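import Pool.Agent.Helper41_Ban.Step
import Pool.Agent.Helper23_TS.Stmts

/-!
The local theorem for `y (y + h) = c ρ`, `c` a nonunit, `h` and `ρ` coprime modulo `π`.
-/

open Polynomial

namespace H41Ban

open H58UB H12UBI

section field

variable {k : Type*} [Field k]

theorem exists_pow_one [Finite k] {g : ℕ} {h b : k[X]} (hm : h.Monic) (hd : h.natDegree = g + 1)
    (hc : IsCoprime h b) : ∃ m, 0 < m ∧ m ≤ Nat.card k ^ (g + 1) ∧ h ∣ b ^ m - 1 := by
  classical
  have : Fintype k := Fintype.ofFinite k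
  let f : Fin (Nat.card k ^ (g + 1) + 1) → (Fin (g + 1) → k) :=
    fun i j => (b ^ (i : ℕ) %ₘ h).coeff j
  have hcard : Fintype.card (Fin (g + 1) → k) < Fintype.card (Fin (Nat.card k ^ (g + 1) + 1)) := by
    rw [Fintype.card_fun, Fintype.card_fin, Fintype.card_fin, Nat.card_eq_fintype_card]
    omega
  obtain ⟨i, j, hij, hfij⟩ := Fintype.exists_ne_map_eq_of_card_lt f hcard
  have hdeg : ∀ q : k[X], ∀ n, g + 1 ≤ n → (q %ₘ h).coeff n = 0 := by
    intro q n hn
    refine coeff_eq_zero_of_natDegree_lt ?_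
    have h1 : (q %ₘ h).natDegree < h.natDegree := by
      refine natDegree_modByMonic_lt _ hm ?_
      intro h0
      rw [h0, natDegree_one] at hd
      omega
    omega
  have hkey : ∀ i j : ℕ, i < j → b ^ i %ₘ h = b ^ j %ₘ h → h ∣ b ^ (j - i) - 1 := by
    intro i j hlt heq
    have h1 : h ∣ b ^ i * (b ^ (j - i) - 1) := by
      have h2 := modByMonic_add_div (b ^ i) h
      have h3 := modByMonic_add_div (b ^ j) h
      have h4 : b ^ j = b ^ i * b ^ (j - i) := by rw [← pow_add]; congr 1; omega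
      refine ⟨b ^ j /ₘ h - b ^ i /ₘ h, ?_⟩
      rw [heq] at h2
      linear_combination (-1 : k[X]) * h4 + h2 - h3
    exact (hc.pow_right).dvd_of_dvd_mul_left h1
  have hpoly : b ^ (i : ℕ) %ₘ h = b ^ (j : ℕ) %ₘ h := by
    ext n
    by_cases hn : n < g + 1
    · exact congrFun hfij ⟨n, hn⟩
    · rw [hdeg _ n (by omega), hdeg _ n (by omega)]
  have hi := i.2
  have hj := j.2
  rcases lt_or_gt_of_ne (fun h0 => hij (Fin.ext h0)) with h1 | h1
  · exact ⟨(j : ℕ) - i, by omega, by omega, hkey _ _ h1 hpoly⟩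
  · exact ⟨(i : ℕ) - j, by omega, by omega, hkey _ _ h1 hpoly.symm⟩

theorem dvd_pow_sub {h b : k[X]} {m : ℕ} {c : k} (hd : h ∣ b ^ m - C c) (i : ℕ) :
    h ∣ b ^ (m * i) - C (c ^ i) := by
  rw [pow_mul, map_pow]
  exact hd.trans (sub_dvd_pow_sub_pow _ _ i)

end field

section dvr

variable {V : Type*} [CommRing V] [IsDomain V] [IsDiscreteValuationRing V] {g : ℕ} {h r : V[X]}
variable {π : V} {l : ℕ} {S : Shape g h r} {r' : V[X]}

theorem Ban.degr (H : Ban π l S r') : r'.natDegree ≤ g := by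
  have h1 := S.degr
  rw [H.eq, natDegree_C_mul (pow_ne_zero l H.irr.ne_zero)] at h1
  exact h1

theorem Ban.level_one (H : Ban π l S r') {k : ℕ} (hk : 1 ≤ k) {c : IsLocalRing.ResidueField V}
    (hc : c ≠ 0) (hd : h.map (rs V) ∣ r'.map (rs V) ^ k - C c) :
    ∃ w s, LevJ H 1 k w s := by
  have hmon : (h.map (rs V)).Monic := S.monic.map _
  obtain ⟨w, s, hf, he, hs, he1⟩ := H.lift H.degr hk 1 (Q := C c) (by
    rw [natDegree_C]; exact Nat.zero_le _) (by
    obtain ⟨T, hT⟩ := hd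
    refine ⟨-T, ?_⟩
    rw [map_one]
    linear_combination (-1 : (IsLocalRing.ResidueField V)[X]) * hT)
  have hdg : (h.map (rs V) ^ k).natDegree = (g + 1) * k := by
    rw [hmon.natDegree_pow, S.monic.natDegree_map, S.deg]; ring
  have hex : ex (IsLocalRing.ResidueField V) (C c) ≠ 0 := by
    rw [ex_C, Ne, hC_eq_zero]
    exact hc
  refine ⟨w, s, hf, he, ?_, ?_, ?_⟩
  · have h0 : Ge 0 (lmap (rs V) s * ex (IsLocalRing.ResidueField V) (h.map (rs V) ^ k)) := by
      rw [hs]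
      have h1 := ge_ex (p := (C c : (IsLocalRing.ResidueField V)[X])) (n := 0)
        (by rw [natDegree_C])
      simpa using h1
    have h2 : Ge (-(((g + 1) * k : ℕ) : ℤ))
        (ex (IsLocalRing.ResidueField V) (h.map (rs V) ^ k)) := ge_ex (le_of_eq hdg)
    have h3 := ge_of_mul h2 (by
      rw [coeff_ex_neg, ← hdg, coeff_natDegree, (hmon.pow k).leadingCoeff]
      exact isUnit_one) h0
    intro j hj
    rw [pow_one, ← residue_eq_zero_iff' H.irr, ← coeff_lmap]
    exact h3 j (by omega)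
  · intro h0
    rw [h0, zero_mul] at hs
    exact hex hs.symm
  · intro h0
    rw [he1, map_one, mul_one] at h0
    have h1 : (-h.map (rs V)) ^ k = 0 := ex_injective (h0.trans (map_zero _).symm)
    exact hmon.ne_zero (neg_eq_zero.1 ((pow_eq_zero_iff (by omega : k ≠ 0)).1 h1))

theorem Ban.steps (H : Ban π l S r') {p t e k : ℕ} (hp : p.Prime) {ε : V}
    (hε : IsUnit ε) (hle : (p : V) = ε * π ^ e) (hte : t + e < p * t) (hk : 1 ≤ k)
    {u : CR V h r} {su : LaurentSeries V} {ν : V}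
    (hu : e0 S u = HahnSeries.C (π ^ (l * (p * k))) * su)
    (hsu : Ge ((p * ((g + 1) * k) : ℕ) : ℤ) su)
    (hu1 : Ge (-((p * ((g + 1) * k) : ℕ) : ℤ)) (e1 S u)) (hν : IsUnit ν)
    (hsν : su * e1 S u = HahnSeries.C ν)
    {w : CR V h r} {s : LaurentSeries V} (hw : LevJ H t k w s) (t' : ℕ) :
    ∃ w' s', LevJ H t' k w' s' := by
  have h1 : ∀ i : ℕ, ∃ w' s', LevJ H (t + i) k w' s' := by
    intro i
    induction i with
    | zero => exact ⟨w, s, hw⟩
    | succ i ih =>
      obtain ⟨w', s', hw'⟩ := ih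
      refine step H H.degr hp hε hle ?_ hk hu hsu hu1 hν hsν hw'
      have h2 : p * (t + i) = p * t + p * i := by ring
      have h3 : 1 * i ≤ p * i := Nat.mul_le_mul_right i hp.one_lt.le
      have h4 : t + i + e < p * (t + i) := by rw [h2]; linarith
      exact h4
  obtain ⟨w', s', hw'⟩ := h1 t'
  exact ⟨w', s', hw'.mono (by omega)⟩

theorem Ban.bound (H : Ban π l S r') [Finite (IsLocalRing.ResidueField V)] {p : ℕ}
    (hp : p.Prime) {e : ℕ} (he : 0 < e) {ε : V}
    (hε : IsUnit ε) (hpe : (p : V) = ε * π ^ e) (hU : ∃ N, 0 < N ∧ U S N) :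
    ∃ N, 0 < N ∧ N ≤ (g + 1) * Nat.card (IsLocalRing.ResidueField V) ^ (g + 1) * (2 * e)
      ∧ U S N := by
  classical
  have hπ := H.irr
  have hmon : (h.map (rs V)).Monic := S.monic.map _
  have hdg : (h.map (rs V)).natDegree = g + 1 := by rw [S.monic.natDegree_map, S.deg]
  obtain ⟨hN0, hN⟩ := Nat.find_spec hU
  have hmin : ∀ n, 0 < n → n < Nat.find hU → ¬ U S n := by
    intro n hn hlt h1
    exact Nat.find_min hU hlt ⟨hn, h1⟩
  set N := Nat.find hU with hNdef
  obtain ⟨K, u, su, ν, hNK, hu, hsu, hu1, hν, hsν, c, hc, hdc⟩ := H.struct hN0 hN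
  have hK0 : 0 < K := by
    rcases Nat.eq_zero_or_pos K with h0 | h0
    · rw [h0, mul_zero] at hNK; omega
    · exact h0
  have hexm : ∃ m, 0 < m ∧ ∃ c : IsLocalRing.ResidueField V, c ≠ 0 ∧
      h.map (rs V) ∣ r'.map (rs V) ^ m - C c := ⟨K, hK0, c, hc, hdc⟩
  obtain ⟨hm0, c₀, hc₀, hm⟩ := Nat.find_spec hexm
  have hmmin : ∀ n, 0 < n → n < Nat.find hexm → ¬ ∃ c : IsLocalRing.ResidueField V, c ≠ 0 ∧
      h.map (rs V) ∣ r'.map (rs V) ^ n - C c := by
    intro n hn hlt h1
    exact Nat.find_min hexm hlt ⟨hn, h1⟩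
  have hmB : Nat.find hexm ≤ Nat.card (IsLocalRing.ResidueField V) ^ (g + 1) := by
    obtain ⟨m', hm'0, hm'B, hm'⟩ := exists_pow_one hmon hdg H.cop
    exact le_trans (Nat.find_min' hexm ⟨hm'0, 1, one_ne_zero, by rw [map_one]; exact hm'⟩) hm'B
  set m := Nat.find hexm with hmdef
  have hdvd : m ∣ K := by
    rw [Nat.dvd_iff_mod_eq_zero]
    by_contra hne
    refine hmmin _ (Nat.pos_of_ne_zero hne) (Nat.mod_lt _ hm0) ?_
    have h1 := dvd_pow_sub hm (K / m)
    have h2 : K = m * (K / m) + K % m := (Nat.div_add_mod K m).symm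
    have hca : c₀ ^ (K / m) ≠ 0 := pow_ne_zero _ hc₀
    refine ⟨c / c₀ ^ (K / m), div_ne_zero hc hca, ?_⟩
    obtain ⟨T₁, hT₁⟩ := h1
    have hdc' := hdc
    rw [h2, pow_add] at hdc'
    obtain ⟨T₂, hT₂⟩ := hdc'
    refine ⟨C (c₀ ^ (K / m))⁻¹ * (T₂ - T₁ * r'.map (rs V) ^ (K % m)), ?_⟩
    have h3 : C (c₀ ^ (K / m))⁻¹ * C (c₀ ^ (K / m)) =
        (1 : (IsLocalRing.ResidueField V)[X]) := by
      rw [← map_mul, inv_mul_cancel₀ hca, map_one]
    have h4 : (C (c / c₀ ^ (K / m)) : (IsLocalRing.ResidueField V)[X]) =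
        C (c₀ ^ (K / m))⁻¹ * C c := by
      rw [← map_mul, div_eq_inv_mul]
    rw [h4]
    linear_combination (-(r'.map (rs V) ^ (K % m))) * h3 + C (c₀ ^ (K / m))⁻¹ * hT₂ -
      C (c₀ ^ (K / m))⁻¹ * r'.map (rs V) ^ (K % m) * hT₁
  obtain ⟨M, hM⟩ := hdvd
  have hM0 : M ≠ 0 := by
    rintro rfl
    rw [mul_zero] at hM
    omega
  have hlev1 : ∀ i, 1 ≤ i → ∃ w s, LevJ H 1 (m * i) w s := by
    intro i hi
    exact H.level_one (Nat.mul_pos hm0 hi) (pow_ne_zero i hc₀) (dvd_pow_sub hm i)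
  -- the exact unit in the form needed for the steps
  have hsteps : ∀ (q t e' k : ℕ) (ε' : V), q.Prime → IsUnit ε' → (q : V) = ε' * π ^ e' →
      t + e' < q * t → 1 ≤ k → K = q * k → (∃ w s, LevJ H t k w s) → False := by
    intro q t e' k ε' hq hε' hqe hte hk hKq hws
    obtain ⟨w, s, hw⟩ := hws
    have hNq : N = q * ((g + 1) * k) := by rw [hNK, hKq]; ring
    refine hmin ((g + 1) * k) (Nat.mul_pos (Nat.succ_pos g) hk) ?_ (U_of_levJ (H := H) fun t' => ?_)
    · have h8 := hq.two_le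
      have h9 : 0 < (g + 1) * k := Nat.mul_pos (Nat.succ_pos g) hk
      rw [hNq]
      nlinarith
    · exact H.steps hq hε' hqe hte hk (by rw [← hKq]; exact hu) (by rw [← hNq]; exact hsu)
        (by rw [← hNq]; exact hu1) hν hsν hw t'
  have hkey : ∀ {q : ℕ}, q.Prime → q ∣ M → q = p := by
    intro q hq hqM
    by_contra hqp
    obtain ⟨M', rfl⟩ := hqM
    have hM'0 : M' ≠ 0 := by rintro rfl; simp at hM0
    have hqu : IsUnit (q : V) := by
      by_contra hnu
      have h1 : π ∣ (q : V) := by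
        rw [← residue_eq_zero_iff' hπ, IsLocalRing.residue_eq_zero_iff]
        exact (IsLocalRing.mem_maximalIdeal _).2 hnu
      have h2 : π ∣ (p : V) := by
        rw [hpe]
        exact dvd_mul_of_dvd_right (dvd_pow_self π he.ne') ε
      have h3 : IsCoprime (q : ℤ) (p : ℤ) :=
        Nat.isCoprime_iff_coprime.2 ((Nat.coprime_primes hq hp).2 hqp)
      obtain ⟨a, b, hab⟩ := h3
      have h4 : (a : V) * (q : V) + (b : V) * (p : V) = 1 := by
        have := congrArg (Int.cast : ℤ → V) hab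
        push_cast at this
        exact this
      have h5 : π ∣ 1 := by
        rw [← h4]
        exact dvd_add (dvd_mul_of_dvd_right h1 _) (dvd_mul_of_dvd_right h2 _)
      exact hπ.not_isUnit (isUnit_of_dvd_one h5)
    exact hsteps q 1 0 (m * M') (q : V) hq hqu (by rw [pow_zero, mul_one])
      (by have := hq.two_le; omega) (Nat.mul_pos hm0 (Nat.pos_of_ne_zero hM'0))
      (by rw [hM]; ring) (hlev1 M' (Nat.one_le_iff_ne_zero.2 hM'0))
  have hMp := Nat.eq_prime_pow_of_unique_prime_dvd hM0 hkey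
  generalize M.primeFactorsList.length = a at hMp
  have hlev : ∀ b : ℕ, ∃ t w s, LevJ H t (p ^ b * m) w s ∧ (p ^ b ≤ t ∨ t + e < p * t) := by
    intro b
    induction b with
    | zero =>
      obtain ⟨w₁, s₁, hw₁⟩ := hlev1 1 le_rfl
      exact ⟨1, w₁, s₁, by rw [pow_zero, one_mul]; rw [mul_one] at hw₁; exact hw₁,
        Or.inl (by simp)⟩
    | succ b ih =>
      obtain ⟨t, w, s, hw, ht⟩ := ih
      have hpb : p ^ (b + 1) * m = p * (p ^ b * m) := by ring
      rw [hpb]
      by_cases h1 : t + e < p * t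
      · exact ⟨t, w ^ p, s ^ p, hw.pow hp hpe (by omega) (by omega), Or.inr h1⟩
      · have h2 : p ^ b ≤ t := by
          rcases ht with h | h
          · exact h
          · exact absurd h h1
        refine ⟨p * t, w ^ p, s ^ p, hw.pow hp hpe (by omega) le_rfl, Or.inl ?_⟩
        rw [pow_succ']
        exact Nat.mul_le_mul_left p h2
  have hM2 : M ≤ 2 * e := by
    rcases Nat.eq_zero_or_pos a with ha | ha
    · rw [hMp, ha, pow_zero]; omega
    · obtain ⟨b, rfl⟩ : ∃ b, a = b + 1 := ⟨a - 1, by omega⟩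
      obtain ⟨t, w, s, hw, ht⟩ := hlev b
      have hKp : K = p * (p ^ b * m) := by rw [hM, hMp]; ring
      have hpos : 0 < p ^ b * m := Nat.mul_pos (pow_pos hp.pos b) hm0
      have h1 : ¬ t + e < p * t := fun h1 =>
        hsteps p t e (p ^ b * m) ε hp hε hpe h1 hpos hKp ⟨w, s, hw⟩
      have h2 : p ^ b ≤ t := by
        rcases ht with h | h
        · exact h
        · exact absurd h h1
      have h3 : 2 * t ≤ p * t := Nat.mul_le_mul_right t hp.two_le
      rw [hMp, pow_succ']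
      have h4 : p * p ^ b ≤ p * t := Nat.mul_le_mul_left p h2
      omega
  refine ⟨N, hN0, ?_, hN⟩
  rw [hNK, hM, ← mul_assoc]
  exact Nat.mul_le_mul (Nat.mul_le_mul_left _ hmB) hM2

end dvr

open Pool.Agent.TS in
/-- the local theorem in the form of the table `ts` -/
theorem lo : LoStmt := by
  intro V _ _ _ g h r ρ c π hD hfin S p e ε hp he hε hpe hU
  obtain ⟨n, u, hcu⟩ := IsDiscreteValuationRing.eq_unit_mul_pow_irreducible hD.c0 hD.irr
  have hn : 1 ≤ n := by
    by_contra hlt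
    have h0 : n = 0 := by omega
    rw [h0, pow_zero, mul_one] at hcu
    have h1 : IsUnit c := by rw [hcu]; exact u.isUnit
    exact hD.irr.not_isUnit (isUnit_of_dvd_unit hD.pc h1)
  have hu : IsUnit (C (rs V (u : V)) : (IsLocalRing.ResidueField V)[X]) :=
    (u.isUnit.map (rs V)).map C
  have H : Ban π n S (C (u : V) * ρ) := by
    refine ⟨hD.irr, hn, ?_, ?_⟩
    · rw [hD.hr, hcu, map_mul]; ring
    · rw [Polynomial.map_mul, Polynomial.map_C]
      exact (isCoprime_mul_unit_left_right hu _ _).2 hD.cop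
  exact H.bound hp he hε hpe hU

end H41Ban
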