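import Mathlib

open Polynomial

namespace Pool.Agent.Ban.H41

/-- Two bivariate polynomials which are coprime over the fraction field have a nonzero
polynomial in the first variable in the ideal they generate. -/
theorem bezout (f g : ℝ[X][X]) (hf : 0 < f.natDegree)
    (h : IsCoprime (f.map (algebraMap ℝ[X] (FractionRing ℝ[X])))
      (g.map (algebraMap ℝ[X] (FractionRing ℝ[X])))) :
    ∃ (D : ℝ[X]) (p q : ℝ[X][X]), D ≠ 0 ∧ f * p + g * q = C D := by
  obtain ⟨p, q, -, -, e⟩ := exists_mul_add_mul_eq_C_resultant f g le_rfl le_rfl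
    (Or.inl hf.ne')
  refine ⟨_, p, q, ?_, e⟩
  intro h0
  have hinj : Function.Injective (algebraMap ℝ[X] (FractionRing ℝ[X])) :=
    IsFractionRing.injective _ _
  have h1 : resultant (f.map (algebraMap ℝ[X] (FractionRing ℝ[X])))
      (g.map (algebraMap ℝ[X] (FractionRing ℝ[X]))) = 0 := by
    have := resultant_map_map f g f.natDegree g.natDegree (algebraMap ℝ[X] (FractionRing ℝ[X]))
    rw [h0, map_zero] at this
    rw [← this, natDegree_map_eq_of_injective hinj, natDegree_map_eq_of_injective hinj]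
  rw [resultant_eq_zero_iff] at h1
  exact h1.2 h

/-- An irreducible `g` of positive degree having infinitely many common zeros with `Δ`
(one over each `t` in an infinite set) divides `Δ`. -/
theorem dvd_of_inf (g Δ : ℝ[X][X]) (hg : Irreducible g) (hd : 0 < g.natDegree)
    (z : ℝ → ℝ) (T : Set ℝ) (hT : T.Infinite)
    (h1 : ∀ t ∈ T, (g.map (evalRingHom t)).eval (z t) = 0)
    (h2 : ∀ t ∈ T, (Δ.map (evalRingHom t)).eval (z t) = 0) : g ∣ Δ := by
  have hprim : g.IsPrimitive := hg.isPrimitive hd.ne'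
  by_contra hnd
  have hirr : Irreducible (g.map (algebraMap ℝ[X] (FractionRing ℝ[X]))) :=
    (hprim.irreducible_iff_irreducible_map_fraction_map).1 hg
  have hcop : IsCoprime (g.map (algebraMap ℝ[X] (FractionRing ℝ[X])))
      (Δ.map (algebraMap ℝ[X] (FractionRing ℝ[X]))) := by
    rcases hirr.isCoprime_or_dvd (Δ.map (algebraMap ℝ[X] (FractionRing ℝ[X]))) with h | h
    · exact h
    · exact absurd (hprim.dvd_of_fraction_map_dvd_fraction_map h) hnd
  obtain ⟨D, p, q, hD, e⟩ := bezout g Δ hd hcop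
  refine hT (Set.Finite.subset (D.roots.toFinset.finite_toSet) ?_)
  intro t ht
  have e2 := congrArg (fun P : ℝ[X][X] => (P.map (evalRingHom t)).eval (z t)) e
  simp only [Polynomial.map_add, Polynomial.map_mul, eval_add, eval_mul, h1 t ht, h2 t ht,
    zero_mul, add_zero, map_C, eval_C, coe_evalRingHom] at e2
  simp [hD, IsRoot.def, ← e2]

/-- For an irreducible polynomial of positive degree, over all but finitely many `t` the roots
are simple and their number is the degree. -/
theorem simple_roots (g : ℝ[X][X]) (hg : Irreducible g) (hd : 0 < g.natDegree) :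
    ∃ F : Set ℝ, F.Finite ∧ ∀ t ∉ F,
      ((g.map (evalRingHom t)).map (algebraMap ℝ ℂ)).roots.toFinset.card = g.natDegree := by
  have hprim : g.IsPrimitive := hg.isPrimitive hd.ne'
  have hirr : Irreducible (g.map (algebraMap ℝ[X] (FractionRing ℝ[X]))) :=
    (hprim.irreducible_iff_irreducible_map_fraction_map).1 hg
  have hsep : (g.map (algebraMap ℝ[X] (FractionRing ℝ[X]))).Separable := by
    have : CharZero (FractionRing ℝ[X]) := by
      exact charZero_of_injective_algebraMap
        (IsFractionRing.injective ℝ[X] (FractionRing ℝ[X]))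
    exact hirr.separable
  rw [separable_def, derivative_map] at hsep
  obtain ⟨D, p, q, hD, e⟩ := bezout g (derivative g) hd hsep
  have hlc : g.leadingCoeff ≠ 0 := leadingCoeff_ne_zero.2 hg.ne_zero
  refine ⟨(D.roots.toFinset : Set ℝ) ∪ (g.leadingCoeff.roots.toFinset : Set ℝ),
    (Finset.finite_toSet _).union (Finset.finite_toSet _), ?_⟩
  intro t ht
  simp only [Set.mem_union, Finset.mem_coe, Multiset.mem_toFinset, mem_roots hD, mem_roots hlc,
    IsRoot.def, not_or] at ht
  set G : ℝ[X] := g.map (evalRingHom t) with hG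
  have hdeg : G.natDegree = g.natDegree := by
    apply natDegree_map_of_leadingCoeff_ne_zero
    simpa using ht.2
  have hG0 : G ≠ 0 := by
    intro h
    rw [h, natDegree_zero] at hdeg
    omega
  have hcop : IsCoprime G (derivative G) := by
    refine ⟨p.map (evalRingHom t) * C (D.eval t)⁻¹, q.map (evalRingHom t) * C (D.eval t)⁻¹, ?_⟩
    have e2 := congrArg (fun P : ℝ[X][X] => P.map (evalRingHom t)) e
    simp only [Polynomial.map_add, Polynomial.map_mul, map_C, coe_evalRingHom] at e2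
    rw [← hG, ← derivative_map, ← hG] at e2
    have h3 : C (D.eval t) * C (D.eval t)⁻¹ = (1 : ℝ[X]) := by
      rw [← C_mul, mul_inv_cancel₀ ht.1, C_1]
    calc p.map (evalRingHom t) * C (D.eval t)⁻¹ * G
          + q.map (evalRingHom t) * C (D.eval t)⁻¹ * derivative G
        = (G * p.map (evalRingHom t) + derivative G * q.map (evalRingHom t))
          * C (D.eval t)⁻¹ := by ring
      _ = 1 := by rw [e2, h3]
  have hsepG : (G.map (algebraMap ℝ ℂ)).Separable :=
    (separable_def G |>.2 hcop).map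
  have hnd : (G.map (algebraMap ℝ ℂ)).roots.Nodup := nodup_roots hsepG
  rw [Multiset.toFinset_card_of_nodup hnd]
  rw [← hdeg, ← natDegree_map (algebraMap ℝ ℂ)]
  exact (IsAlgClosed.splits (G.map (algebraMap ℝ ℂ))).natDegree_eq_card_roots.symm


/-- A factor of one of the `Δ i` which vanishes at `(t, z t)` for infinitely many `t`. -/
theorem exists_factor {ι : Type*} (Δ : ι → ℝ[X][X]) (z : ℝ → ℝ)
    (h1 : ∀ i t, ((Δ i).map (evalRingHom t)).eval (z t) = 0)
    (i0 : ι) (c : ℝ) (hc : c ≠ 0) (h4 : (Δ i0).coeff 0 = C c) :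
    ∃ (g : ℝ[X][X]) (γ : ℝ) (T : Set ℝ), Irreducible g ∧ 0 < g.natDegree ∧ γ ≠ 0 ∧
      g.coeff 0 = C γ ∧ (∀ i, g ∣ Δ i) ∧ T.Infinite ∧
      ∀ t ∈ T, (g.map (evalRingHom t)).eval (z t) = 0 := by
  have hne : Δ i0 ≠ 0 := by
    intro h
    rw [h, coeff_zero] at h4
    exact hc (C_eq_zero.1 h4.symm)
  obtain ⟨f, hf, hfa⟩ := WfDvdMonoid.exists_factors (Δ i0) hne
  obtain ⟨u, hu⟩ := hfa
  have hex : ∀ t : ℝ, ∃ b ∈ f.toFinset, (b.map (evalRingHom t)).eval (z t) = 0 := by
    intro t
    have h := h1 i0 t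
    rw [← hu, Polynomial.map_mul, eval_mul] at h
    rcases mul_eq_zero.1 h with h | h
    · have h5 : ∀ m : Multiset ℝ[X][X], ((m.prod).map (evalRingHom t)).eval (z t) = 0 →
          ∃ b ∈ m, (b.map (evalRingHom t)).eval (z t) = 0 := by
        intro m
        induction m using Multiset.induction_on with
        | empty => simp
        | cons a m ih =>
          intro hm
          rw [Multiset.prod_cons, Polynomial.map_mul, eval_mul] at hm
          rcases mul_eq_zero.1 hm with h | h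
          · exact ⟨a, by simp, h⟩
          · obtain ⟨b, hb, hb2⟩ := ih h
            exact ⟨b, by simp [hb], hb2⟩
      obtain ⟨b, hb, hb2⟩ := h5 f h
      exact ⟨b, by simpa using hb, hb2⟩
    · exfalso
      have hun : IsUnit (((u : ℝ[X][X]).map (evalRingHom t)).eval (z t)) := by
        have := (u.isUnit.map (mapRingHom (evalRingHom t))).map (evalRingHom (z t))
        simpa using this
      exact hun.ne_zero h
  have hinf : ∃ b ∈ f.toFinset, {t : ℝ | (b.map (evalRingHom t)).eval (z t) = 0}.Infinite := by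
    by_contra hcon
    push Not at hcon
    have hfin : (⋃ b ∈ (f.toFinset : Set ℝ[X][X]),
        {t : ℝ | (b.map (evalRingHom t)).eval (z t) = 0}).Finite := by
      refine Set.Finite.biUnion (Finset.finite_toSet _) ?_
      intro b hb
      exact hcon b (by simpa using hb)
    refine Set.infinite_univ (α := ℝ) (hfin.subset ?_)
    intro t _
    obtain ⟨b, hb, hb2⟩ := hex t
    exact Set.mem_biUnion (by simpa using hb) hb2
  obtain ⟨b, hb, hbinf⟩ := hinf
  have hbirr : Irreducible b := hf b (by simpa using hb)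
  have hbd : b ∣ Δ i0 := by
    rw [← hu]
    exact (Multiset.dvd_prod (by simpa using hb)).trans (dvd_mul_right _ _)
  have hcu : IsUnit (b.coeff 0) := by
    obtain ⟨q, hq⟩ := hbd
    have h5 : b.coeff 0 * q.coeff 0 = C c := by
      rw [← h4, hq, mul_coeff_zero]
    have h6 : IsUnit (C c : ℝ[X]) := isUnit_C.2 (isUnit_iff_ne_zero.2 hc)
    rw [← h5] at h6
    exact isUnit_of_mul_isUnit_left h6
  obtain ⟨γ, hγ, hγ2⟩ := isUnit_iff.1 hcu
  have hdeg : 0 < b.natDegree := by
    rw [Nat.pos_iff_ne_zero]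
    intro h0
    apply hbirr.not_isUnit
    rw [eq_C_of_natDegree_eq_zero h0]
    exact hcu.map C
  refine ⟨b, γ, _, hbirr, hdeg, hγ.ne_zero, hγ2.symm, ?_, hbinf, fun t ht => ht⟩
  intro i
  exact dvd_of_inf b (Δ i) hbirr hdeg z _ hbinf (fun t ht => ht) (fun t _ => h1 i t)

/-- A polynomial with values in `{xp t, xm t}` off a finite set and equal to `xp` resp. `xm`
somewhere is `xp` resp. `xm` everywhere. -/
theorem lin (P : ℝ[X]) (xp xm : ℝ → ℝ) (hp : Continuous xp) (hm : Continuous xm)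
    (hpp : ∀ t, 0 < xp t) (hmm : ∀ t, xm t < 0) (F : Set ℝ) (hF : F.Finite)
    (h : ∀ t ∉ F, P.eval t = xp t ∨ P.eval t = xm t) (t0 : ℝ) :
    (P.eval t0 = xp t0 → ∀ t, P.eval t = xp t) ∧
    (P.eval t0 = xm t0 → ∀ t, P.eval t = xm t) := by
  have hall : ∀ t, P.eval t = xp t ∨ P.eval t = xm t := by
    have hcl : IsClosed {t : ℝ | P.eval t = xp t ∨ P.eval t = xm t} := by
      rw [Set.ofPred_or]
      exact (isClosed_eq P.continuous hp).union (isClosed_eq P.continuous hm)
    have hd : Dense Fᶜ := hF.countable.dense_compl ℝ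
    intro t
    have h5 : closure Fᶜ ⊆ {t : ℝ | P.eval t = xp t ∨ P.eval t = xm t} :=
      hcl.closure_subset_iff.2 (fun s hs => h s hs)
    exact h5 (hd t)
  have hne : ∀ t, P.eval t ≠ 0 := by
    intro t
    rcases hall t with h | h
    · rw [h]; exact (hpp t).ne'
    · rw [h]; exact (hmm t).ne
  constructor
  · intro h0 t
    rcases hall t with h | h
    · exact h
    · exfalso
      have h6 : (0 : ℝ) ∈ Set.range (fun s => P.eval s) :=
        mem_range_of_exists_le_of_exists_ge P.continuous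
          ⟨t, by simp only [h]; exact (hmm t).le⟩ ⟨t0, by simp only [h0]; exact (hpp t0).le⟩
      obtain ⟨s, hs⟩ := h6
      exact hne s hs
  · intro h0 t
    rcases hall t with h | h
    · exfalso
      have h6 : (0 : ℝ) ∈ Set.range (fun s => P.eval s) :=
        mem_range_of_exists_le_of_exists_ge P.continuous
          ⟨t0, by simp only [h0]; exact (hmm t0).le⟩ ⟨t, by simp only [h]; exact (hpp t).le⟩
      obtain ⟨s, hs⟩ := h6
      exact hne s hs
    · exact h

/-- Evaluation of a polynomial of degree at most two over a point. -/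
theorem eval_two (g : ℝ[X][X]) (γ : ℝ) (hγ : g.coeff 0 = C γ) (hd : g.natDegree ≤ 2) (t x : ℝ)
    (hx : x ≠ 0) (h : (g.map (evalRingHom t)).eval x⁻¹ = 0) :
    γ * x ^ 2 + (g.coeff 1).eval t * x + (g.coeff 2).eval t = 0 := by
  have h5 : (g.map (evalRingHom t)).eval x⁻¹
      = ∑ i ∈ Finset.range 3, (g.coeff i).eval t * (x⁻¹) ^ i := by
    rw [eval_eq_sum_range' (n := 3)]
    · simp
    · exact lt_of_le_of_lt natDegree_map_le (by omega)
  rw [h5, Finset.sum_range_succ, Finset.sum_range_succ, Finset.sum_range_succ,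
    Finset.sum_range_zero, hγ] at h
  simp only [eval_C, zero_add, pow_zero, mul_one, pow_one] at h
  have h6 : x ^ 2 * (γ + (g.coeff 1).eval t * x⁻¹ + (g.coeff 2).eval t * x⁻¹ ^ 2) = 0 := by
    rw [h, mul_zero]
  calc γ * x ^ 2 + (g.coeff 1).eval t * x + (g.coeff 2).eval t
      = x ^ 2 * (γ + (g.coeff 1).eval t * x⁻¹ + (g.coeff 2).eval t * x⁻¹ ^ 2) := by
        field_simp
    _ = 0 := h6

theorem alg {ι : Type*} (Δ : ι → ℝ[X][X]) (xp xm : ℝ → ℝ) (hp : Continuous xp)
    (hm : Continuous xm) (hpp : ∀ t, 0 < xp t) (hmm : ∀ t, xm t < 0)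
    (h1 : ∀ i t, ((Δ i).map (evalRingHom t)).eval (xp t)⁻¹ = 0)
    (h2 : ∀ i t, ((Δ i).map (evalRingHom t)).eval (xm t)⁻¹ = 0)
    (h3 : ∀ t (z : ℂ),
      (∀ i, (((Δ i).map (evalRingHom t)).map (algebraMap ℝ ℂ)).eval z = 0) →
      z = ((xp t)⁻¹ : ℝ) ∨ z = ((xm t)⁻¹ : ℝ))
    (h4 : ∀ i, ∃ c : ℝ, (Δ i).coeff 0 = C c) :
    ∃ A B : ℝ[X], ∀ t, xp t + xm t = A.eval t ∧ xp t * xm t = B.eval t := by
  -- a polynomial with nonzero constant coefficient
  obtain ⟨i0, c, hc, hi0⟩ : ∃ (i0 : ι) (c : ℝ), c ≠ 0 ∧ (Δ i0).coeff 0 = C c := by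
    by_contra hcon
    push Not at hcon
    have h0 : ∀ i, (((Δ i).map (evalRingHom 0)).map (algebraMap ℝ ℂ)).eval (0 : ℂ) = 0 := by
      intro i
      obtain ⟨c, hc⟩ := h4 i
      have hc0 : c = 0 := by
        by_contra hne
        exact hcon i c hne hc
      rw [← coeff_zero_eq_eval_zero, coeff_map, coeff_map, hc, hc0]
      simp
    rcases h3 0 0 h0 with h | h
    · have : (xp 0)⁻¹ = 0 := by exact_mod_cast h.symm
      exact (inv_ne_zero (hpp 0).ne') this
    · have : (xm 0)⁻¹ = 0 := by exact_mod_cast h.symm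
      exact (inv_ne_zero (hmm 0).ne) this
  -- analysis of one factor
  have key : ∀ (g : ℝ[X][X]) (γ : ℝ), Irreducible g → 0 < g.natDegree → γ ≠ 0 →
      g.coeff 0 = C γ → (∀ i, g ∣ Δ i) →
      (∃ A B : ℝ[X], ∀ t, xp t + xm t = A.eval t ∧ xp t * xm t = B.eval t) ∨
      (g.natDegree = 1 ∧ ∃ F : Set ℝ, F.Finite ∧ ∀ t ∉ F,
        (C (-γ⁻¹) * g.coeff 1).eval t = xp t ∨ (C (-γ⁻¹) * g.coeff 1).eval t = xm t) := by
    intro g γ hg hd hγ hg0 hdvd
    obtain ⟨F, hF, hroots⟩ := simple_roots g hg hd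
    have hsub : ∀ t ∉ F, ((g.map (evalRingHom t)).map (algebraMap ℝ ℂ)).roots.toFinset ⊆
        {(((xp t)⁻¹ : ℝ) : ℂ), (((xm t)⁻¹ : ℝ) : ℂ)} := by
      intro t ht z hz
      have hz1 : ((g.map (evalRingHom t)).map (algebraMap ℝ ℂ)).eval z = 0 := by
        rw [Multiset.mem_toFinset] at hz
        exact (isRoot_of_mem_roots hz)
      have hz2 : z = ((xp t)⁻¹ : ℝ) ∨ z = ((xm t)⁻¹ : ℝ) := by
        apply h3 t z
        intro i
        obtain ⟨q, hq⟩ := hdvd i
        rw [hq, Polynomial.map_mul, Polynomial.map_mul, eval_mul, hz1, zero_mul]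
      simpa using hz2
    have hzero : ∀ t ∉ F, ∀ x : ℝ,
        (x : ℂ) ∈ ((g.map (evalRingHom t)).map (algebraMap ℝ ℂ)).roots.toFinset →
        (g.map (evalRingHom t)).eval x = 0 := by
      intro t ht x hx
      rw [Multiset.mem_toFinset] at hx
      have h5 := isRoot_of_mem_roots hx
      rw [IsRoot.def, eval_map_algebraMap] at h5
      have h6 : aeval (algebraMap ℝ ℂ x) (g.map (evalRingHom t)) = 0 := h5
      rw [aeval_algebraMap_apply] at h6
      have h7 : ((eval x (g.map (evalRingHom t)) : ℝ) : ℂ) = 0 := by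
        simpa [coe_aeval_eq_eval] using h6
      exact_mod_cast h7
    have hcard2 : ∀ t, ({(((xp t)⁻¹ : ℝ) : ℂ), (((xm t)⁻¹ : ℝ) : ℂ)} : Finset ℂ).card = 2 := by
      intro t
      apply Finset.card_pair
      intro h
      have h5 : (xp t)⁻¹ = (xm t)⁻¹ := by exact_mod_cast h
      have := inv_injective h5
      linarith [hpp t, hmm t]
    obtain ⟨t1, ht1⟩ : ∃ t1, t1 ∉ F := by
      by_contra hcon
      push Not at hcon
      exact Set.infinite_univ (α := ℝ) (hF.subset (fun t _ => hcon t))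
    have hle : g.natDegree ≤ 2 := by
      rw [← hroots t1 ht1, ← hcard2 t1]
      exact Finset.card_le_card (hsub t1 ht1)
    rcases Nat.lt_or_ge g.natDegree 2 with h12 | h12
    · right
      have hd1 : g.natDegree = 1 := by omega
      refine ⟨hd1, F, hF, ?_⟩
      intro t ht
      have hc1 := hroots t ht
      rw [hd1] at hc1
      obtain ⟨z, hz⟩ := Finset.card_eq_one.1 hc1
      have hzm : z ∈ ((g.map (evalRingHom t)).map (algebraMap ℝ ℂ)).roots.toFinset := by
        rw [hz]; simp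
      have hg2 : g.coeff 2 = 0 := coeff_eq_zero_of_natDegree_lt (by omega)
      have hz2 := hsub t ht hzm
      simp only [Finset.mem_insert, Finset.mem_singleton] at hz2
      have fin : ∀ x : ℝ, x ≠ 0 → z = ((x⁻¹ : ℝ) : ℂ) →
          (C (-γ⁻¹) * g.coeff 1).eval t = x := by
        intro x hx hzx
        have h5 := hzero t ht x⁻¹ (hzx ▸ hzm)
        have h6 := eval_two g γ hg0 hle t x hx h5
        rw [hg2, eval_zero, add_zero] at h6
        have h7 : x * (γ * x + (g.coeff 1).eval t) = 0 := by linear_combination h6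
        have h8 : γ * x + (g.coeff 1).eval t = 0 := (mul_eq_zero.1 h7).resolve_left hx
        rw [eval_mul, eval_C]
        field_simp
        linarith
      rcases hz2 with h | h
      · exact Or.inl (fin _ (hpp t).ne' h)
      · exact Or.inr (fin _ (hmm t).ne h)
    · left
      have hd2 : g.natDegree = 2 := by omega
      refine ⟨C (-γ⁻¹) * g.coeff 1, C γ⁻¹ * g.coeff 2, ?_⟩
      have hoff : ∀ t ∉ F, xp t + xm t = (C (-γ⁻¹) * g.coeff 1).eval t ∧
          xp t * xm t = (C γ⁻¹ * g.coeff 2).eval t := by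
        intro t ht
        have heq : ((g.map (evalRingHom t)).map (algebraMap ℝ ℂ)).roots.toFinset =
            {(((xp t)⁻¹ : ℝ) : ℂ), (((xm t)⁻¹ : ℝ) : ℂ)} := by
          apply Finset.eq_of_subset_of_card_le (hsub t ht)
          rw [hcard2 t, hroots t ht, hd2]
        have h5 := eval_two g γ hg0 hle t (xp t) (hpp t).ne'
          (hzero t ht _ (by rw [heq]; simp))
        have h6 := eval_two g γ hg0 hle t (xm t) (hmm t).ne
          (hzero t ht _ (by rw [heq]; simp))
        have h7 : (xp t - xm t) * (γ * (xp t + xm t) + (g.coeff 1).eval t) = 0 := by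
          linear_combination h5 - h6
        have h8 : γ * (xp t + xm t) + (g.coeff 1).eval t = 0 :=
          (mul_eq_zero.1 h7).resolve_left (by linarith [hpp t, hmm t] : xp t - xm t ≠ 0)
        have h9 : γ * (xp t * xm t) = (g.coeff 2).eval t := by
          linear_combination (xp t) * h8 - h5
        constructor
        · rw [eval_mul, eval_C]
          field_simp
          linarith
        · rw [eval_mul, eval_C, ← h9]
          field_simp
      have hd : Dense Fᶜ := hF.countable.dense_compl ℝ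
      have e1 : (fun t => xp t + xm t) = fun t => (C (-γ⁻¹) * g.coeff 1).eval t :=
        Continuous.ext_on hd (hp.add hm) (Polynomial.continuous _) (fun t ht => (hoff t ht).1)
      have e2 : (fun t => xp t * xm t) = fun t => (C γ⁻¹ * g.coeff 2).eval t :=
        Continuous.ext_on hd (hp.mul hm) (Polynomial.continuous _) (fun t ht => (hoff t ht).2)
      intro t
      exact ⟨congrFun e1 t, congrFun e2 t⟩
  obtain ⟨g, γ, T, hg, hd, hγ, hg0, hdvd, hT, hTz⟩ :=
    exists_factor Δ (fun t => (xp t)⁻¹) h1 i0 c hc hi0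
  obtain ⟨g', γ', T', hg', hd', hγ', hg0', hdvd', hT', hTz'⟩ :=
    exists_factor Δ (fun t => (xm t)⁻¹) h2 i0 c hc hi0
  rcases key g γ hg hd hγ hg0 hdvd with h | ⟨hd1, F, hF, hv⟩
  · exact h
  rcases key g' γ' hg' hd' hγ' hg0' hdvd' with h | ⟨hd1', F', hF', hv'⟩
  · exact h
  have lemm : ∀ (g : ℝ[X][X]) (γ : ℝ), γ ≠ 0 → g.coeff 0 = C γ → g.natDegree = 1 → ∀ t x : ℝ,
      x ≠ 0 → (g.map (evalRingHom t)).eval x⁻¹ = 0 → (C (-γ⁻¹) * g.coeff 1).eval t = x := by
    intro g γ hγ hg0 hd1 t x hx h5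
    have hg2 : g.coeff 2 = 0 := coeff_eq_zero_of_natDegree_lt (by omega)
    have h6 := eval_two g γ hg0 (by omega) t x hx h5
    rw [hg2, eval_zero, add_zero] at h6
    have h7 : x * (γ * x + (g.coeff 1).eval t) = 0 := by linear_combination h6
    have h8 : γ * x + (g.coeff 1).eval t = 0 := (mul_eq_zero.1 h7).resolve_left hx
    rw [eval_mul, eval_C]
    field_simp
    linarith
  obtain ⟨t0, ht0⟩ := hT.nonempty
  obtain ⟨t0', ht0'⟩ := hT'.nonempty
  have e1 := (lin (C (-γ⁻¹) * g.coeff 1) xp xm hp hm hpp hmm F hF hv t0).1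
    (lemm g γ hγ hg0 hd1 t0 _ (hpp t0).ne' (hTz t0 ht0))
  have e2 := (lin (C (-γ'⁻¹) * g'.coeff 1) xp xm hp hm hpp hmm F' hF' hv' t0').2
    (lemm g' γ' hγ' hg0' hd1' t0' _ (hmm t0').ne (hTz' t0' ht0'))
  refine ⟨C (-γ⁻¹) * g.coeff 1 + C (-γ'⁻¹) * g'.coeff 1,
    (C (-γ⁻¹) * g.coeff 1) * (C (-γ'⁻¹) * g'.coeff 1), ?_⟩
  intro t
  rw [eval_add, eval_mul (p := C (-γ⁻¹) * g.coeff 1), e1 t, e2 t]
  exact ⟨rfl, rfl⟩

end Pool.Agent.Ban.H41
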