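import Mathlib

/-!
Squad BAN (S13205), module POLY2: the moment integrals are polynomials in `(t, z)`.
-/

open Polynomial MeasureTheory Filter Topology
open scoped NNReal

namespace Pool.Agent.Ban.H41

/-- Evaluation of a polynomial in `z` over `ℝ[t]` at `(t, z)`. -/
noncomputable def ev (t : ℝ) (z : ℂ) : ℝ[X][X] →+* ℂ :=
  eval₂RingHom ((algebraMap ℝ ℂ).comp (evalRingHom t)) z

theorem ev_eq (t : ℝ) (z : ℂ) (P : ℝ[X][X]) :
    ev t z P = ((P.map (evalRingHom t)).map (algebraMap ℝ ℂ)).eval z := by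
  rw [ev, coe_eval₂RingHom, eval₂_eq_eval_map, Polynomial.map_map]

theorem ev_X (t : ℝ) (z : ℂ) : ev t z X = z := by simp [ev]

theorem ev_CX (t : ℝ) (z : ℂ) : ev t z (C X) = (t : ℂ) := by simp [ev]

theorem ev_CC (t : ℝ) (z : ℂ) (a : ℝ) : ev t z (C (C a)) = (a : ℂ) := by simp [ev]

theorem ev_real (t x : ℝ) (P : ℝ[X][X]) :
    ev t (x : ℂ) P = (((P.map (evalRingHom t)).eval x : ℝ) : ℂ) := by
  rw [ev_eq, eval_map_algebraMap]
  have h : (x : ℂ) = algebraMap ℝ ℂ x := rfl
  rw [h, aeval_algebraMap_apply]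
  simp [coe_aeval_eq_eval]

section Good

variable {Ω : Type*} [MeasurableSpace Ω] (m : Measure Ω)

/-- bounded and measurable -/
def Bd (f : Ω → ℝ) : Prop := AEStronglyMeasurable f m ∧ ∃ K : ℝ, 0 ≤ K ∧ ∀ᵐ x ∂m, |f x| ≤ K

variable {m}

theorem Bd.zero : Bd m (fun _ => (0 : ℝ)) :=
  ⟨aestronglyMeasurable_const, 0, le_rfl, Eventually.of_forall fun _ => by simp⟩

theorem Bd.const (a : ℝ) : Bd m (fun _ => a) :=
  ⟨aestronglyMeasurable_const, |a|, abs_nonneg _, Eventually.of_forall fun _ => le_rfl⟩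

theorem Bd.add {f g : Ω → ℝ} (hf : Bd m f) (hg : Bd m g) : Bd m (fun x => f x + g x) := by
  obtain ⟨h1, K1, hK1, h2⟩ := hf
  obtain ⟨h3, K2, hK2, h4⟩ := hg
  refine ⟨h1.add h3, K1 + K2, by positivity, ?_⟩
  filter_upwards [h2, h4] with x hx hy
  exact (abs_add_le _ _).trans (add_le_add hx hy)

theorem Bd.mul {f g : Ω → ℝ} (hf : Bd m f) (hg : Bd m g) : Bd m (fun x => f x * g x) := by
  obtain ⟨h1, K1, hK1, h2⟩ := hf
  obtain ⟨h3, K2, hK2, h4⟩ := hg
  refine ⟨h1.mul h3, K1 * K2, by positivity, ?_⟩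
  filter_upwards [h2, h4] with x hx hy
  rw [abs_mul]
  exact mul_le_mul hx hy (abs_nonneg _) hK1

theorem Bd.sum {ι : Type*} (s : Finset ι) {f : ι → Ω → ℝ} (hf : ∀ i ∈ s, Bd m (f i)) :
    Bd m (fun x => ∑ i ∈ s, f i x) := by
  classical
  induction s using Finset.induction_on with
  | empty => simpa using Bd.zero
  | insert a s ha ih =>
    simp only [Finset.sum_insert ha]
    exact (hf a (by simp)).add (ih fun i hi => hf i (by simp [hi]))

theorem Bd.integrable [IsFiniteMeasure m] {f : Ω → ℝ} (hf : Bd m f) : Integrable f m := by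
  obtain ⟨h1, K, _, h2⟩ := hf
  refine Integrable.of_bound h1 K ?_
  filter_upwards [h2] with x hx
  simpa using hx

variable (m)

/-- uniformly bounded polynomials in two variables with measurable coefficients -/
structure Good (F : Ω → ℝ[X][X]) : Prop where
  bd : ∀ i j, Bd m (fun x => ((F x).coeff i).coeff j)
  deg : ∃ N : ℕ, ∀ x i j, N < i + j → ((F x).coeff i).coeff j = 0
  zc : ∀ x j, 0 < j → ((F x).coeff 0).coeff j = 0

variable {m}

theorem coeff_mul2 (P Q : ℝ[X][X]) (i j : ℕ) : ((P * Q).coeff i).coeff j =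
    ∑ a ∈ Finset.HasAntidiagonal.antidiagonal i, ∑ b ∈ Finset.HasAntidiagonal.antidiagonal j,
      (P.coeff a.1).coeff b.1 * (Q.coeff a.2).coeff b.2 := by
  rw [coeff_mul, finsetSum_coeff]
  exact Finset.sum_congr rfl fun a _ => coeff_mul _ _ _

theorem Good.mul {F G : Ω → ℝ[X][X]} (hF : Good m F) (hG : Good m G) :
    Good m (fun x => F x * G x) := by
  refine ⟨?_, ?_, ?_⟩
  · intro i j
    simp only [coeff_mul2]
    exact Bd.sum _ fun a _ => Bd.sum _ fun b _ => (hF.bd _ _).mul (hG.bd _ _)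
  · obtain ⟨N1, h1⟩ := hF.deg
    obtain ⟨N2, h2⟩ := hG.deg
    refine ⟨N1 + N2, ?_⟩
    intro x i j hij
    rw [coeff_mul2]
    refine Finset.sum_eq_zero fun a ha => Finset.sum_eq_zero fun b hb => ?_
    rw [Finset.HasAntidiagonal.mem_antidiagonal] at ha hb
    rcases Nat.lt_or_ge N1 (a.1 + b.1) with h | h
    · rw [h1 x _ _ h, zero_mul]
    · rw [h2 x a.2 b.2 (by omega), mul_zero]
  · intro x j hj
    rw [coeff_mul2]
    simp only [Finset.Nat.antidiagonal_zero, Finset.sum_singleton]
    refine Finset.sum_eq_zero fun b hb => ?_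
    rw [Finset.HasAntidiagonal.mem_antidiagonal] at hb
    rcases Nat.eq_zero_or_pos b.1 with h | h
    · rw [hG.zc x b.2 (by omega), mul_zero]
    · rw [hF.zc x b.1 h, zero_mul]

theorem Good.add {F G : Ω → ℝ[X][X]} (hF : Good m F) (hG : Good m G) :
    Good m (fun x => F x + G x) := by
  refine ⟨?_, ?_, ?_⟩
  · intro i j
    simp only [coeff_add]
    exact (hF.bd _ _).add (hG.bd _ _)
  · obtain ⟨N1, h1⟩ := hF.deg
    obtain ⟨N2, h2⟩ := hG.deg
    refine ⟨N1 + N2, ?_⟩
    intro x i j hij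
    rw [coeff_add, coeff_add, h1 x i j (by omega), h2 x i j (by omega), add_zero]
  · intro x j hj
    rw [coeff_add, coeff_add, hF.zc x j hj, hG.zc x j hj, add_zero]

theorem Good.cc {f : Ω → ℝ} (hf : Bd m f) : Good m (fun x => C (C (f x))) := by
  refine ⟨?_, ⟨0, ?_⟩, ?_⟩
  · intro i j
    rcases Nat.eq_zero_or_pos i with rfl | hi
    · rcases Nat.eq_zero_or_pos j with rfl | hj
      · simpa using hf
      · have : ∀ x, (((C (C (f x)) : ℝ[X][X]).coeff 0).coeff j) = 0 := by
          intro x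
          rw [coeff_C_zero, coeff_C, if_neg hj.ne']
        simp only [this]
        exact Bd.zero
    · have : ∀ x, (((C (C (f x)) : ℝ[X][X]).coeff i).coeff j) = 0 := by
        intro x
        rw [coeff_C, if_neg hi.ne', coeff_zero]
      simp only [this]
      exact Bd.zero
  · intro x i j hij
    rw [coeff_C]
    split_ifs with h
    · rw [coeff_C, if_neg (by omega)]
    · simp
  · intro x j hj
    rw [coeff_C_zero, coeff_C, if_neg hj.ne']

theorem Good.const (a : ℝ) : Good m (fun _ => (C (C a) : ℝ[X][X])) := Good.cc (Bd.const a)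

/-- the linear building block `z (a + t b) + c` -/
theorem Good.lin {a b c : Ω → ℝ} (ha : Bd m a) (hb : Bd m b) (hc : Bd m c) :
    Good m (fun x => X * (C (C (a x)) + C X * C (C (b x))) + C (C (c x))) := by
  have e : ∀ (x : Ω) (i : ℕ), (X * (C (C (a x)) + C X * C (C (b x))) + C (C (c x)) : ℝ[X][X]).coeff i
      = if i = 0 then C (c x) else if i = 1 then C (a x) + X * C (b x) else 0 := by
    intro x i
    rw [coeff_add]
    rcases i with _ | i
    · simp
    · rw [coeff_X_mul, coeff_add, coeff_C_mul]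
      rcases i with _ | i
      · simp
      · simp [coeff_C]
  refine ⟨?_, ⟨2, ?_⟩, ?_⟩
  · intro i j
    simp only [e]
    rcases i with _ | i
    · simp only [if_true]
      rcases j with _ | j
      · simpa using hc
      · have : ∀ x, (C (c x) : ℝ[X]).coeff (j + 1) = 0 := fun x => by
          rw [coeff_C, if_neg (by omega)]
        simp only [this]
        exact Bd.zero
    · rcases i with _ | i
      · simp only [zero_add, one_ne_zero, if_false, if_true]
        rcases j with _ | j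
        · simpa using ha
        · rcases j with _ | j
          · have : ∀ x, (C (a x) + X * C (b x) : ℝ[X]).coeff (0 + 1) = b x := fun x => by
              rw [coeff_add, coeff_X_mul, coeff_C_zero, coeff_C, if_neg (by omega), zero_add]
            simp only [this]
            exact hb
          · have : ∀ x, (C (a x) + X * C (b x) : ℝ[X]).coeff (j + 1 + 1) = 0 := fun x => by
              rw [coeff_add, coeff_X_mul, coeff_C, coeff_C, if_neg (by omega), if_neg (by omega),
                zero_add]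
            simp only [this]
            exact Bd.zero
      · have h1 : ¬ (i + 1 + 1 = 0) := by omega
        have h2 : ¬ (i + 1 + 1 = 1) := by omega
        simp only [if_neg h1, if_neg h2, coeff_zero]
        exact Bd.zero
  · intro x i j hij
    rw [e]
    split_ifs with h1 h2
    · rw [coeff_C, if_neg (by omega)]
    · rw [coeff_add]
      rcases j with _ | j
      · omega
      · rw [coeff_X_mul, coeff_C, coeff_C, if_neg (by omega), if_neg (by omega), zero_add]
    · simp
  · intro x j hj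
    rw [e, if_pos rfl, coeff_C, if_neg hj.ne']

theorem Good.sum {ι : Type*} (s : Finset ι) {F : ι → Ω → ℝ[X][X]} (hF : ∀ i ∈ s, Good m (F i)) :
    Good m (fun x => ∑ i ∈ s, F i x) := by
  classical
  induction s using Finset.induction_on with
  | empty => simpa using (Good.const (m := m) 0)
  | insert a s ha ih =>
    simp only [Finset.sum_insert ha]
    exact (hF a (by simp)).add (ih fun i hi => hF i (by simp [hi]))

theorem Good.prod {ι : Type*} (s : Finset ι) {F : ι → Ω → ℝ[X][X]} (hF : ∀ i ∈ s, Good m (F i)) :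
    Good m (fun x => ∏ i ∈ s, F i x) := by
  classical
  induction s using Finset.induction_on with
  | empty => simpa using (Good.const (m := m) 1)
  | insert a s ha ih =>
    simp only [Finset.prod_insert ha]
    exact (hF a (by simp)).mul (ih fun i hi => hF i (by simp [hi]))

theorem Good.det {k : ℕ} {F : Fin k → Fin k → Ω → ℝ[X][X]} (hF : ∀ i j, Good m (F i j)) :
    Good m (fun x => Matrix.det (Matrix.of fun i j => F i j x)) := by
  simp only [Matrix.det_apply', Matrix.of_apply]
  refine Good.sum _ fun σ _ => Good.mul ?_ (Good.prod _ fun i _ => hF _ _)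
  have h := Good.const (m := m) (((Equiv.Perm.sign σ : ℤˣ) : ℤ) : ℝ)
  have e : (((((Equiv.Perm.sign σ : ℤˣ) : ℤ) : ℝ[X][X]))) =
      C (C ((((Equiv.Perm.sign σ : ℤˣ) : ℤ) : ℝ))) := by
    simp
  rw [e]
  exact h

theorem Good.aeval {k : ℕ} {F : Fin k → Ω → ℝ[X][X]} (hF : ∀ i, Good m (F i))
    (P : MvPolynomial (Fin k) ℝ) : Good m (fun x => MvPolynomial.aeval (fun i => F i x) P) := by
  induction P using MvPolynomial.induction_on with
  | C a =>
    have e : ∀ x, MvPolynomial.aeval (fun i => F i x) (MvPolynomial.C a : MvPolynomial (Fin k) ℝ)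
        = C (C a) := by
      intro x
      rw [MvPolynomial.aeval_C]
      rfl
    simp only [e]
    exact Good.const a
  | add p q hp hq =>
    simp only [map_add]
    exact hp.add hq
  | mul_X p i hp =>
    simp only [map_mul, MvPolynomial.aeval_X]
    exact hp.mul (hF i)

/-- two-variable expansion -/
theorem expand (P : ℝ[X][X]) (N : ℕ) (hN : ∀ i j, N < i + j → (P.coeff i).coeff j = 0) :
    P = ∑ i ∈ Finset.range (N + 1), ∑ j ∈ Finset.range (N + 1),
      monomial i (monomial j ((P.coeff i).coeff j)) := by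
  ext i j
  rw [finsetSum_coeff, finsetSum_coeff]
  simp only [finsetSum_coeff]
  have h : ∀ i' j', ((monomial i' (monomial j' ((P.coeff i').coeff j')) : ℝ[X][X]).coeff i).coeff j
      = if i' = i then (if j' = j then (P.coeff i).coeff j else 0) else 0 := by
    intro i' j'
    rw [coeff_monomial]
    split_ifs with h1 h2
    · rw [coeff_monomial, if_pos h2, h1, h2]
    · rw [coeff_monomial, if_neg h2]
    · simp
  simp only [h]
  by_cases hi : i < N + 1
  · by_cases hj : j < N + 1
    · simp [Finset.sum_ite_eq', hi, hj]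
    · rw [hN i j (by omega)]
      simp
  · rw [hN i j (by omega)]
    simp

theorem ev_monomial (t : ℝ) (z : ℂ) (i j : ℕ) (a : ℝ) :
    ev t z (monomial i (monomial j a)) = (a : ℂ) * ((t : ℂ) ^ j * z ^ i) := by
  simp [ev, eval_monomial, mul_assoc]

/-- integration of a good family -/
theorem Good.integral [IsFiniteMeasure m] {F : Ω → ℝ[X][X]} (hF : Good m F) :
    ∃ D : ℝ[X][X], (∃ c : ℝ, D.coeff 0 = C c) ∧
      (∀ t z, ev t z D = ∫ x, ev t z (F x) ∂m) ∧ ∀ t z, Integrable (fun x => ev t z (F x)) m := by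
  obtain ⟨N, hN⟩ := hF.deg
  have hexp : ∀ t z x, ev t z (F x) = ∑ i ∈ Finset.range (N + 1), ∑ j ∈ Finset.range (N + 1),
      (((((F x).coeff i).coeff j : ℝ)) : ℂ) * ((t : ℂ) ^ j * z ^ i) := by
    intro t z x
    conv_lhs => rw [expand (F x) N (hN x)]
    simp only [map_sum, ev_monomial]
  have hint : ∀ (t : ℝ) (z : ℂ) (i j : ℕ), Integrable
      (fun x => (((((F x).coeff i).coeff j : ℝ)) : ℂ) * ((t : ℂ) ^ j * z ^ i)) m := by
    intro t z i j
    exact ((hF.bd i j).integrable.ofReal).mul_const _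
  refine ⟨∑ i ∈ Finset.range (N + 1), ∑ j ∈ Finset.range (N + 1),
      monomial i (monomial j (∫ x, ((F x).coeff i).coeff j ∂m)), ?_, ?_, ?_⟩
  · refine ⟨∫ x, ((F x).coeff 0).coeff 0 ∂m, ?_⟩
    ext j
    rw [finsetSum_coeff, finsetSum_coeff]
    simp only [finsetSum_coeff]
    have h : ∀ i' j', ((monomial i' (monomial j' (∫ x, ((F x).coeff i').coeff j' ∂m)) :
        ℝ[X][X]).coeff 0).coeff j
        = if i' = 0 then (if j' = j then (if j = 0 then ∫ x, ((F x).coeff 0).coeff 0 ∂m else 0)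
          else 0) else 0 := by
      intro i' j'
      rw [coeff_monomial]
      split_ifs with h1 h2 h3
      · rw [coeff_monomial, if_pos h2, h1, h2, h3]
      · rw [coeff_monomial, if_pos h2, h1, h2]
        have : ∀ x, ((F x).coeff 0).coeff j = 0 := fun x => hF.zc x j (Nat.pos_of_ne_zero h3)
        simp [this]
      · rw [coeff_monomial, if_neg h2]
      · simp
    simp only [h]
    rw [coeff_C]
    by_cases hj : j = 0
    · subst hj
      simp [Finset.sum_ite_eq']
    · simp [hj]
  · intro t z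
    simp only [map_sum, ev_monomial, hexp]
    rw [integral_finsetSum _ fun i _ => integrable_finsetSum _ fun j _ => hint t z i j]
    refine Finset.sum_congr rfl fun i _ => ?_
    rw [integral_finsetSum _ fun j _ => hint t z i j]
    refine Finset.sum_congr rfl fun j _ => ?_
    rw [integral_mul_const, integral_complex_ofReal]
  · intro t z
    simp only [hexp]
    exact integrable_finsetSum _ fun i _ => integrable_finsetSum _ fun j _ => hint t z i j

end Good

section Main

variable {k : ℕ}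

/-- complexified map -/
noncomputable def Gc (A B U : EuclideanSpace ℝ (Fin k) → EuclideanSpace ℝ (Fin k)) (t : ℝ) (z : ℂ)
    (x : EuclideanSpace ℝ (Fin k)) : Fin k → ℂ :=
  fun i => z * ((A x i : ℂ) + (t : ℂ) * (B x i : ℂ)) + (U x i : ℂ)

/-- complexified Jacobian -/
noncomputable def Dc (A B U : EuclideanSpace ℝ (Fin k) → EuclideanSpace ℝ (Fin k)) (t : ℝ) (z : ℂ)
    (x : EuclideanSpace ℝ (Fin k)) : ℂ :=
  Matrix.det (Matrix.of fun i j : Fin k =>
    z * (((fderiv ℝ A x (EuclideanSpace.single j 1)) i : ℂ)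
      + (t : ℂ) * ((fderiv ℝ B x (EuclideanSpace.single j 1)) i : ℂ))
      + ((fderiv ℝ U x (EuclideanSpace.single j 1)) i : ℂ))

theorem gc_real (A B U : EuclideanSpace ℝ (Fin k) → EuclideanSpace ℝ (Fin k)) (t z : ℝ)
    (x : EuclideanSpace ℝ (Fin k)) (P : MvPolynomial (Fin k) ℝ) :
    MvPolynomial.aeval (Gc A B U t (z : ℂ) x) P
      = ((MvPolynomial.eval (fun i => (z • A x + (z * t) • B x + U x) i) P : ℝ) : ℂ) := by
  have e : Gc A B U t (z : ℂ) x
      = fun i => algebraMap ℝ ℂ ((z • A x + (z * t) • B x + U x) i) := by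
    funext i
    simp [Gc]
    ring
  rw [e]
  induction P using MvPolynomial.induction_on with
  | C a => simp
  | add p q hp hq => rw [map_add, map_add, hp, hq]; push_cast; ring
  | mul_X p i hp => rw [map_mul, map_mul, hp]; simp

theorem det_eq_matrix (f : EuclideanSpace ℝ (Fin k) →L[ℝ] EuclideanSpace ℝ (Fin k)) :
    f.det = Matrix.det (Matrix.of fun i j : Fin k => (f (EuclideanSpace.single j 1)) i) := by
  have h := LinearMap.det_toMatrix (EuclideanSpace.basisFun (Fin k) ℝ).toBasis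
    (f : EuclideanSpace ℝ (Fin k) →ₗ[ℝ] EuclideanSpace ℝ (Fin k))
  rw [ContinuousLinearMap.det, ← h]
  rfl

theorem dc_real (A B U : EuclideanSpace ℝ (Fin k) → EuclideanSpace ℝ (Fin k))
    (x : EuclideanSpace ℝ (Fin k)) (hA : DifferentiableAt ℝ A x) (hB : DifferentiableAt ℝ B x)
    (hC : DifferentiableAt ℝ U x) (t z : ℝ) :
    Dc A B U t (z : ℂ) x
      = (((fderiv ℝ (fun y => z • A y + (z * t) • B y + U y) x).det : ℝ) : ℂ) := by
  have e : fderiv ℝ (fun y => z • A y + (z * t) • B y + U y) x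
      = z • fderiv ℝ A x + (z * t) • fderiv ℝ B x + fderiv ℝ U x := by
    have h1 := ((hA.hasFDerivAt.const_smul z).add (hB.hasFDerivAt.const_smul (z * t))).add
      hC.hasFDerivAt
    exact h1.fderiv
  rw [e, det_eq_matrix, Dc]
  have h2 := RingHom.map_det (algebraMap ℝ ℂ) (Matrix.of fun i j : Fin k =>
    ((z • fderiv ℝ A x + (z * t) • fderiv ℝ B x + fderiv ℝ U x)
      (EuclideanSpace.single j 1)) i)
  have h3 : (algebraMap ℝ ℂ) (Matrix.det (Matrix.of fun i j : Fin k =>
    ((z • fderiv ℝ A x + (z * t) • fderiv ℝ B x + fderiv ℝ U x)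
      (EuclideanSpace.single j 1)) i)) = ((Matrix.det (Matrix.of fun i j : Fin k =>
    ((z • fderiv ℝ A x + (z * t) • fderiv ℝ B x + fderiv ℝ U x)
      (EuclideanSpace.single j 1)) i) : ℝ) : ℂ) := rfl
  rw [← h3, h2]
  congr 1
  ext i j
  simp only [Matrix.of_apply, RingHom.mapMatrix_apply, Matrix.map_apply]
  simp
  ring

theorem poly2_real (A B U : EuclideanSpace ℝ (Fin k) → EuclideanSpace ℝ (Fin k)) (L : ℝ≥0)
    (hA : LipschitzWith L A) (hB : LipschitzWith L B) (hC : LipschitzWith L U) :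
    ∀ᵐ x ∂(volume : Measure (EuclideanSpace ℝ (Fin k))), ∀ t z : ℝ,
      Dc A B U t (z : ℂ) x
        = (((fderiv ℝ (fun y => z • A y + (z * t) • B y + U y) x).det : ℝ) : ℂ) := by
  filter_upwards [hA.ae_differentiableAt, hB.ae_differentiableAt, hC.ae_differentiableAt]
    with x h1 h2 h3 t z
  exact dc_real A B U x h1 h2 h3 t z

theorem Bd.of_cont {T K0 : Set (EuclideanSpace ℝ (Fin k))} (hT : MeasurableSet T)
    (hK : IsCompact K0) (hTK : T ⊆ K0) {f : EuclideanSpace ℝ (Fin k) → ℝ} (hf : Continuous f) :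
    Bd (volume.restrict T) f := by
  obtain ⟨M, hM⟩ := hK.exists_bound_of_continuousOn hf.continuousOn
  refine ⟨hf.aestronglyMeasurable, max M 0, le_max_right _ _, ?_⟩
  refine (ae_restrict_iff' hT).2 (Eventually.of_forall fun x hx => ?_)
  exact (hM x (hTK hx)).trans (le_max_left _ _)

theorem Bd.fder {T : Set (EuclideanSpace ℝ (Fin k))}
    {A : EuclideanSpace ℝ (Fin k) → EuclideanSpace ℝ (Fin k)} {L : ℝ≥0} (hA : LipschitzWith L A)
    (i j : Fin k) : Bd (volume.restrict T)
      (fun x => (fderiv ℝ A x (EuclideanSpace.single j 1)) i) := by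
  have h1 : Measurable fun x => fderiv ℝ A x (EuclideanSpace.single j 1) :=
    measurable_fderiv_apply_const ℝ A _
  have h2 : Continuous fun y : EuclideanSpace ℝ (Fin k) => y i := by fun_prop
  refine ⟨(h2.measurable.comp h1).aestronglyMeasurable, L, L.2, Eventually.of_forall fun x => ?_⟩
  have h3 : ‖fderiv ℝ A x‖ ≤ L := norm_fderiv_le_of_lipschitz ℝ hA
  have h4 : ‖(EuclideanSpace.single j 1 : EuclideanSpace ℝ (Fin k))‖ = 1 := by simp
  calc |(fderiv ℝ A x (EuclideanSpace.single j 1)) i|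
      = ‖(fderiv ℝ A x (EuclideanSpace.single j 1)) i‖ := rfl
    _ ≤ ‖fderiv ℝ A x (EuclideanSpace.single j 1)‖ := PiLp.norm_apply_le _ _
    _ ≤ ‖fderiv ℝ A x‖ * ‖(EuclideanSpace.single j 1 : EuclideanSpace ℝ (Fin k))‖ :=
        ContinuousLinearMap.le_opNorm _ _
    _ ≤ L := by rw [h4, mul_one]; exact h3

theorem ev_aeval (t : ℝ) (z : ℂ) (f : Fin k → ℝ[X][X]) (P : MvPolynomial (Fin k) ℝ) :
    ev t z (MvPolynomial.aeval f P) = MvPolynomial.aeval (fun i => ev t z (f i)) P := by
  induction P using MvPolynomial.induction_on with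
  | C a =>
    rw [MvPolynomial.aeval_C, MvPolynomial.aeval_C]
    exact ev_CC t z a
  | add p q hp hq => rw [map_add, map_add, map_add, hp, hq]
  | mul_X p i hp => rw [map_mul, map_mul, map_mul, hp, MvPolynomial.aeval_X, MvPolynomial.aeval_X]

/-- POLY2: the moment integrals are polynomials in `(t, z)`. -/
theorem poly2 (A B U : EuclideanSpace ℝ (Fin k) → EuclideanSpace ℝ (Fin k))
    (w : EuclideanSpace ℝ (Fin k) → ℝ)
    (L : ℝ≥0) (c : ℝ) (S : Set (EuclideanSpace ℝ (Fin k))) (h : ℝ → ℝ) (hh : Continuous h)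
    (h1 : ∀ r, 1 < r → h r = 0) (hc : 0 < c)
    (hA : LipschitzWith L A) (hB : LipschitzWith L B) (hU : LipschitzWith L U)
    (hw : Continuous w) (hS : MeasurableSet S) (hcw : ∀ x ∈ S, c * ‖x‖ ≤ w x)
    (P : MvPolynomial (Fin k) ℝ) :
    ∃ D : ℝ[X][X], (∃ c1 : ℝ, D.coeff 0 = C c1) ∧
      (∀ t z, ev t z D = ∫ x in S, (MvPolynomial.aeval (Gc A B U t z x) P) *
        (((h (w x) : ℝ) : ℂ) * Dc A B U t z x)) ∧
      ∀ t z, IntegrableOn (fun x => (MvPolynomial.aeval (Gc A B U t z x) P) *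
        (((h (w x) : ℝ) : ℂ) * Dc A B U t z x)) S := by
  set T : Set (EuclideanSpace ℝ (Fin k)) := S ∩ {x | w x ≤ 1} with hTdef
  have hT : MeasurableSet T := hS.inter (isClosed_le hw continuous_const).measurableSet
  have hTK : T ⊆ Metric.closedBall 0 (1 / c) := by
    rintro x ⟨hx1, hx2⟩
    rw [mem_closedBall_zero_iff, le_div_iff₀ hc, mul_comm]
    exact (hcw x hx1).trans hx2
  have hK : IsCompact (Metric.closedBall (0 : EuclideanSpace ℝ (Fin k)) (1 / c)) :=
    isCompact_closedBall _ _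
  have hfin : IsFiniteMeasure ((volume : Measure (EuclideanSpace ℝ (Fin k))).restrict T) := by
    refine ⟨?_⟩
    rw [Measure.restrict_apply_univ]
    exact (measure_mono hTK).trans_lt hK.measure_lt_top
  have hco : ∀ {M : EuclideanSpace ℝ (Fin k) → EuclideanSpace ℝ (Fin k)}, LipschitzWith L M →
      ∀ i : Fin k, Bd ((volume : Measure (EuclideanSpace ℝ (Fin k))).restrict T)
        (fun x => M x i) := by
    intro M hM i
    have h2 : Continuous fun y : EuclideanSpace ℝ (Fin k) => y i := by fun_prop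
    exact Bd.of_cont hT hK hTK (h2.comp hM.continuous)
  set F1 : EuclideanSpace ℝ (Fin k) → ℝ[X][X] := fun x => MvPolynomial.aeval (fun i =>
    X * (C (C (A x i)) + C X * C (C (B x i))) + C (C (U x i))) P with hF1
  set F2 : EuclideanSpace ℝ (Fin k) → ℝ[X][X] := fun x => C (C (h (w x))) with hF2
  set F3 : EuclideanSpace ℝ (Fin k) → ℝ[X][X] := fun x => Matrix.det (Matrix.of fun i j : Fin k =>
    X * (C (C ((fderiv ℝ A x (EuclideanSpace.single j 1)) i))
      + C X * C (C ((fderiv ℝ B x (EuclideanSpace.single j 1)) i)))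
      + C (C ((fderiv ℝ U x (EuclideanSpace.single j 1)) i))) with hF3
  have g1 : Good (volume.restrict T) F1 :=
    Good.aeval (fun i => Good.lin (hco hA i) (hco hB i) (hco hU i)) P
  have g2 : Good (volume.restrict T) F2 := Good.cc (Bd.of_cont hT hK hTK (hh.comp hw))
  have g3 : Good (volume.restrict T) F3 :=
    Good.det fun i j => Good.lin (Bd.fder hA i j) (Bd.fder hB i j) (Bd.fder hU i j)
  obtain ⟨D, hD0, hD1, hD2⟩ := (g1.mul (g2.mul g3)).integral
  have hev : ∀ t z x, ev t z (F1 x * (F2 x * F3 x)) = (MvPolynomial.aeval (Gc A B U t z x) P) *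
        (((h (w x) : ℝ) : ℂ) * Dc A B U t z x) := by
    intro t z x
    rw [map_mul, map_mul]
    congr 1
    · rw [hF1, ev_aeval]
      congr 2
      funext i
      simp only [map_add, map_mul, ev_X, ev_CC, ev_CX, Gc]
    · congr 1
      · rw [hF2, ev_CC]
      · rw [hF3, RingHom.map_det, Dc]
        congr 1
        ext i j
        simp only [Matrix.of_apply, RingHom.mapMatrix_apply, Matrix.map_apply, map_add, map_mul,
          ev_X, ev_CC, ev_CX]
  simp only [hev] at hD1 hD2
  have hz : ∀ t z, ∀ x ∈ S \ T, (MvPolynomial.aeval (Gc A B U t z x) P) *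
        (((h (w x) : ℝ) : ℂ) * Dc A B U t z x) = 0 := by
    intro t z x hx
    have hx1 : 1 < w x := by
      by_contra hcon
      exact hx.2 ⟨hx.1, not_lt.1 hcon⟩
    rw [h1 _ hx1]
    simp
  refine ⟨D, hD0, ?_, ?_⟩
  · intro t z
    rw [hD1 t z]
    exact (setIntegral_eq_of_subset_of_forall_diff_eq_zero hS Set.inter_subset_left (hz t z)).symm
  · intro t z
    exact IntegrableOn.of_forall_diff_eq_zero (hD2 t z) hS (hz t z)

/-- the complex Jacobian density is integrable -/
theorem poly2_int (A B U : EuclideanSpace ℝ (Fin k) → EuclideanSpace ℝ (Fin k))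
    (w : EuclideanSpace ℝ (Fin k) → ℝ)
    (L : ℝ≥0) (c : ℝ) (S : Set (EuclideanSpace ℝ (Fin k))) (h : ℝ → ℝ) (hh : Continuous h)
    (h1 : ∀ r, 1 < r → h r = 0) (hc : 0 < c)
    (hA : LipschitzWith L A) (hB : LipschitzWith L B) (hU : LipschitzWith L U)
    (hw : Continuous w) (hS : MeasurableSet S) (hcw : ∀ x ∈ S, c * ‖x‖ ≤ w x) (t : ℝ) (z : ℂ) :
    IntegrableOn (fun x => ((h (w x) : ℝ) : ℂ) * Dc A B U t z x) S := by
  obtain ⟨_, _, _, h2⟩ := poly2 A B U w L c S h hh h1 hc hA hB hU hw hS hcw 1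
  have h3 := h2 t z
  simpa using h3

/-- the form of `poly2` that fits `alg` -/
theorem poly2_alg (A B U : EuclideanSpace ℝ (Fin k) → EuclideanSpace ℝ (Fin k))
    (w : EuclideanSpace ℝ (Fin k) → ℝ)
    (L : ℝ≥0) (c : ℝ) (S : Set (EuclideanSpace ℝ (Fin k))) (h : ℝ → ℝ) (hh : Continuous h)
    (h1 : ∀ r, 1 < r → h r = 0) (hc : 0 < c)
    (hA : LipschitzWith L A) (hB : LipschitzWith L B) (hU : LipschitzWith L U)
    (hw : Continuous w) (hS : MeasurableSet S) (hcw : ∀ x ∈ S, c * ‖x‖ ≤ w x)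
    (P : MvPolynomial (Fin k) ℝ) (c0 : ℝ) :
    ∃ D : ℝ[X][X], (∃ c1 : ℝ, D.coeff 0 = C c1) ∧
      (∀ (t : ℝ) (z : ℂ), ((D.map (evalRingHom t)).map (algebraMap ℝ ℂ)).eval z
        = (∫ x in S, (MvPolynomial.aeval (Gc A B U t z x) P) *
        (((h (w x) : ℝ) : ℂ) * Dc A B U t z x)) - (c0 : ℂ)) ∧
      (∀ t z : ℝ, (D.map (evalRingHom t)).eval z
        = (∫ x in S, (MvPolynomial.eval (fun i => (z • A x + (z * t) • B x + U x) i) P) *
        (h (w x) * (fderiv ℝ (fun y => z • A y + (z * t) • B y + U y) x).det)) - c0) := by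
  obtain ⟨D, ⟨c1, hc1⟩, h2, _⟩ := poly2 A B U w L c S h hh h1 hc hA hB hU hw hS hcw P
  refine ⟨D - C (C c0), ⟨c1 - c0, ?_⟩, ?_, ?_⟩
  · rw [coeff_sub, coeff_C_zero, hc1, C_sub]
  · intro t z
    rw [← ev_eq, map_sub, ev_CC, h2]
  · intro t z
    have h3 : (((((D - C (C c0)).map (evalRingHom t)).eval z : ℝ)) : ℂ)
        = (((∫ x in S, (MvPolynomial.eval (fun i => (z • A x + (z * t) • B x + U x) i) P) *
        (h (w x) * (fderiv ℝ (fun y => z • A y + (z * t) • B y + U y) x).det)) - c0 : ℝ) : ℂ) := by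
      rw [← ev_real, map_sub, ev_CC, h2, Complex.ofReal_sub]
      congr 1
      rw [← integral_complex_ofReal]
      refine integral_congr_ae ?_
      filter_upwards [ae_restrict_of_ae (poly2_real A B U L hA hB hU)] with x hx
      rw [hx t z, gc_real]
      push_cast
      ring
    exact_mod_cast h3

end Main

end Pool.Agent.Ban.H41
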