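import Pool.Agent.Helper68_BAN.Stmt3
import Pool.Agent.Helper41_Ban.Poly2

/-!
Squad BAN (S13205), module POLY2 in the form of `POLY2Stmt`.
-/

open Polynomial MeasureTheory Filter Topology
open scoped NNReal

namespace Pool.Agent.Ban.H41

open Pool.Agent.BAN

theorem poly2Stmt : POLY2Stmt := by
  intro n A B U w L c S hc hA hB hU hw hS hcw P
  have h1 : Continuous cut := by
    unfold cut
    fun_prop
  have h2 : ∀ r : ℝ, 1 < r → cut r = 0 := by
    intro r hr
    apply max_eq_left
    nlinarith
  obtain ⟨D, hD0, hD, _⟩ := poly2_alg A B U w L c S cut h1 h2 hc hA hB hU hw hS hcw P 0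
  refine ⟨D, hD0, ?_⟩
  intro t z
  rw [hD t z]
  simp only [Complex.ofReal_zero, sub_zero]
  refine integral_congr_ae (Filter.Eventually.of_forall fun x => ?_)
  have e1 : Gc A B U t z x = fun i => z * (((A x) i + t * (B x) i : ℝ) : ℂ) + (((U x) i : ℝ) : ℂ) := by
    funext i
    simp only [Gc]
    push_cast
    ring
  have e2 : Dc A B U t z x = cdet A B U t z x := by
    rw [Dc, cdet]
    congr 1
    ext i j
    simp only [Matrix.of_apply]
    push_cast
    ring
  simp only [e1, e2, mul_assoc]

end Pool.Agent.Ban.H41
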