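import Pool.Agent.Helper54_BAN.RootK
import Pool.Agent.Helper93_BAN.SQRT
import Pool.Agent.Helper93_BAN.EB2
import Pool.Agent.Helper9_BAN.QG
import Pool.Agent.Helper9_BAN.GAUF
import Pool.Agent.Helper37_BAN.NP
import Pool.Agent.Helper37_BAN.PINV
import Pool.Agent.Helper48_BAN.Bas2
import Pool.Agent.Helper48_BAN.Near2
import Pool.Agent.Helper51_BAN.TR2
import Pool.Agent.Helper51_BAN.CAP2
import Pool.Agent.Helper12_BAN.SEC2
import Pool.Agent.Helper12_BAN.HOLP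
import Pool.Agent.Helper4_BAN.ORB
import Pool.Agent.Helper4_BAN.DEGC
import Pool.Agent.Helper46_BAN.INVIP2
import Pool.Agent.Helper46_BAN.MAPC
import Pool.Agent.Helper20_BAN.Map
import Pool.Agent.Helper20_BAN.Cen
import Pool.Agent.Helper21_Ban.Fin
import Pool.Agent.Helper63_BAN.DEG
import Pool.Agent.Helper63_BAN.BODY
import Pool.Agent.Helper14_BAN.LIM
import Pool.Agent.Helper68_BAN.Ana2d
import Pool.Agent.Helper41_Ban.Poly2S
import Pool.Agent.Helper41_Ban.Fina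

/-!
Squad BAN (S13205): assembly.
-/

namespace Pool.Agent.Ban.H41

open Pool.Agent.BAN

theorem sNP : NPStmt := H37.np (H9.qg (H93.sqrt H54.plStmt H54.rootStmt))
theorem sEB2 : EB2Stmt := H93.eb2 H54.plStmt
theorem sBAS2 : BAS2Stmt := H48.bas2
theorem sNEAR2 : NEAR2Stmt := H48.near2 sEB2 sBAS2
theorem sTR2 : TR2Stmt := H51.tr2 sNP H37.pinv sNEAR2 sBAS2
theorem sSEC2 : SEC2Stmt := H12.sec2 sTR2
theorem sCAP2 : CAP2Stmt := H51.cap2 H4.orb sBAS2
theorem sDEG : DEGStmt := H63.DEG (H4.degc H21.cvsStmt H12.holp)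
theorem sLIM : LIMStmt := H14.lim sDEG H21.ndStmt
theorem sANA2 : ANA2Stmt := H68.ana2 sLIM poly2Stmt
theorem sBODY : BODYStmt := H63.BODY H20.cenv H9.gauf

theorem afterMain (hM : MAINAStmt) :
    ∀ n : ℕ, 3 ≤ n →
    ∀ B : Set (EuclideanSpace ℝ (Fin n)),
      Convex ℝ B → IsCompact B →
      (0 : EuclideanSpace ℝ (Fin n)) ∈ interior B →
      (∀ H₁ H₂ : Submodule ℝ (EuclideanSpace ℝ (Fin n)),
        Module.finrank ℝ H₁ = n - 1 → Module.finrank ℝ H₂ = n - 1 →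
        ∃ f : EuclideanSpace ℝ (Fin n) ≃ᵃ[ℝ] EuclideanSpace ℝ (Fin n),
          f '' (B ∩ (H₁ : Set (EuclideanSpace ℝ (Fin n)))) =
            B ∩ (H₂ : Set (EuclideanSpace ℝ (Fin n)))) →
      ∃ g : EuclideanSpace ℝ (Fin n) ≃ᵃ[ℝ] EuclideanSpace ℝ (Fin n),
        B = g '' Metric.closedBall (0 : EuclideanSpace ℝ (Fin n)) 1 :=
  fina H46.invip2 hM H9.gauf sBODY


end Pool.Agent.Ban.H41
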