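import Pool.Agent.Helper12_UBI.Alg

/-!
The two sheets: divisibility of expansions, the expansion of `y` when `r` is divisible by `π^l`,
division by powers of `y`.
-/

open Polynomial

namespace H41Ban

open H58UB H12UBI

section ring

variable {A : Type*} [CommRing A]

/-- all coefficients divisible -/
theorem exists_of_dvd {a : A} {s : LaurentSeries A} (h : ∀ j, a ∣ s.coeff j) :
    ∃ t : LaurentSeries A, s = HahnSeries.C a * t := by
  classical
  refine ⟨⟨fun j => if s.coeff j = 0 then 0 else Classical.choose (h j), ?_⟩, ?_⟩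
  · refine s.isPWO_support.mono ?_
    intro j hj h0
    apply hj
    have h1 : s.coeff j = 0 := h0
    change (if s.coeff j = 0 then 0 else Classical.choose (h j)) = 0
    rw [if_pos h1]
  · ext j
    rw [coeff_C_mul']
    change s.coeff j = a * (if s.coeff j = 0 then 0 else Classical.choose (h j))
    split_ifs with h1
    · rw [h1, mul_zero]
    · exact Classical.choose_spec (h j)

theorem ex_dvd {a : A} {p : A[X]} {t : LaurentSeries A} (h : ex A p = HahnSeries.C a * t) :
    ∃ p', p = C a * p' := by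
  have : C a ∣ p := by
    rw [Polynomial.C_dvd_iff_dvd_coeff]
    intro i
    rw [← coeff_ex_neg, h, coeff_C_mul']
    exact Dvd.intro _ rfl
  exact this

theorem C_cancel [IsDomain A] {a : A} (ha : a ≠ 0) {s t : LaurentSeries A}
    (h : HahnSeries.C a * s = HahnSeries.C a * t) : s = t := by
  ext j
  have := congrArg (fun s => s.coeff j) h
  simp only [coeff_C_mul'] at this
  exact mul_left_cancel₀ ha this

variable {g : ℕ} {h r : A[X]}

theorem isUnit_q (S : Shape g h r) : IsUnit (-ex A h - 2 * y0 S) := by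
  refine isUnit_of_lead (ge_q S) ?_
  rw [coeff_q]
  exact isUnit_one.neg

/-- an element whose two expansions are divisible by `a` is divisible by `a` -/
theorem dvd_of_exp (S : Shape g h r) {a : A} {v : CR A h r} {s t : LaurentSeries A}
    (h0 : e0 S v = HahnSeries.C a * s) (h1 : e1 S v = HahnSeries.C a * t) :
    ∃ v', v = cst h r a * v' := by
  obtain ⟨qi, hqi⟩ := (isUnit_q S).exists_right_inv
  have h2 : ex A v.im = HahnSeries.C a * ((t - s) * qi) := by
    have h3 := e1_sub_e0 S v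
    rw [h0, h1] at h3
    linear_combination (-ex A v.im) * hqi - qi * h3
  obtain ⟨im', him⟩ := ex_dvd h2
  have h4 : ex A v.re = HahnSeries.C a * (s - ex A im' * y0 S) := by
    have h5 := e0_apply S v
    rw [h0, him, map_mul, ex_C] at h5
    linear_combination (-1 : LaurentSeries A) * h5
  obtain ⟨re', hre⟩ := ex_dvd h4
  refine ⟨⟨re', im'⟩, ?_⟩
  refine QuadraticAlgebra.ext ?_ ?_
  · rw [QuadraticAlgebra.re_mul, cst_re, cst_im, hre]
    simp
  · rw [QuadraticAlgebra.im_mul, cst_re, cst_im, him]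
    simp

/-- the function `y` -/
noncomputable def yy (h r : A[X]) : CR A h r := ⟨0, 1⟩

theorem e0_yy (S : Shape g h r) : e0 S (yy h r) = y0 S := by
  rw [e0_apply, yy]; simp

theorem e1_yy (S : Shape g h r) : e1 S (yy h r) = -ex A h - y0 S := by
  rw [e1_apply, yy]; simp

theorem isUnit_hy (S : Shape g h r) : IsUnit (ex A h + y0 S) := by
  refine isUnit_of_lead (n := -((g + 1 : ℕ) : ℤ)) ?_ ?_
  · exact (ge_ex (le_of_eq S.deg)).add ((ge_y0 S).mono (by omega))
  · rw [HahnSeries.coeff_add, ge_y0 S _ (by omega), coeff_ex_neg, ← S.deg, coeff_natDegree,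
      S.monic]
    simp

/-- if `r = a r'` then `y0 = a η` -/
theorem exists_eta (S : Shape g h r) {a : A} {r' : A[X]} (hr : r = C a * r') :
    ∃ η : LaurentSeries A, y0 S = HahnSeries.C a * η ∧ η * (ex A h + y0 S) = ex A r' := by
  obtain ⟨qi, hqi⟩ := (isUnit_hy S).exists_right_inv
  refine ⟨ex A r' * qi, ?_, ?_⟩
  · have h1 := y0_eq S
    have h2 : ex A r = HahnSeries.C a * ex A r' := by rw [hr, map_mul, ex_C]
    rw [h2] at h1
    linear_combination (-y0 S) * hqi + qi * h1
  · linear_combination ex A r' * hqi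

end ring

section dvr

variable {V : Type*} [CommRing V] [IsDomain V] [IsDiscreteValuationRing V] {g : ℕ} {h r : V[X]}

/-- the residue map -/
noncomputable abbrev rs (V : Type*) [CommRing V] [IsLocalRing V] : V →+* IsLocalRing.ResidueField V :=
  IsLocalRing.residue V

theorem rs_pow_zero {π : V} (hπ : Irreducible π) {m : ℕ} (hm : 1 ≤ m) : rs V (π ^ m) = 0 := by
  rw [map_pow, (residue_eq_zero_iff' hπ π).2 dvd_rfl, zero_pow (by omega)]

theorem lmap_C {B : Type*} [CommRing B] (φ : V →+* B) (a : V) :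
    lmap φ (HahnSeries.C a) = HahnSeries.C (φ a) := by
  ext j
  rw [coeff_lmap, HahnSeries.C_apply, HahnSeries.C_apply, HahnSeries.coeff_single,
    HahnSeries.coeff_single]
  split_ifs
  · rfl
  · exact map_zero φ

theorem lmap_eq_zero_of_dvd {π : V} (hπ : Irreducible π) {m : ℕ} (hm : 1 ≤ m)
    (s : LaurentSeries V) : lmap (rs V) (HahnSeries.C (π ^ m) * s) = 0 := by
  rw [map_mul, lmap_C, rs_pow_zero hπ hm, map_zero, zero_mul]

theorem exists_of_lmap_zero {π : V} (hπ : Irreducible π) {s : LaurentSeries V}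
    (hs : lmap (rs V) s = 0) : ∃ t, s = HahnSeries.C π * t := by
  refine exists_of_dvd fun j => ?_
  rw [← residue_eq_zero_iff' hπ, ← coeff_lmap, hs, HahnSeries.coeff_zero]

/-- content of a Laurent series -/
theorem exists_content {π : V} (hπ : Irreducible π) {s : LaurentSeries V} (hs : s ≠ 0) :
    ∃ (m : ℕ) (t : LaurentSeries V), s = HahnSeries.C (π ^ m) * t ∧ lmap (rs V) t ≠ 0 := by
  obtain ⟨j, hj⟩ : ∃ j, s.coeff j ≠ 0 := by
    by_contra hcon
    push Not at hcon
    apply hs
    ext j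
    exact hcon j
  have hfin : ∃ m : ℕ, ¬ ∃ t, s = HahnSeries.C (π ^ m) * t := by
    obtain ⟨m, hm⟩ := FiniteMultiplicity.of_not_isUnit hπ.not_isUnit hj
    refine ⟨m + 1, ?_⟩
    rintro ⟨t, rfl⟩
    apply hm
    rw [coeff_C_mul']
    exact Dvd.intro _ rfl
  classical
  have hmin := Nat.find_spec hfin
  set M := Nat.find hfin with hM
  have hM0 : M ≠ 0 := by
    intro h0
    rw [h0] at hmin
    exact hmin ⟨s, by rw [pow_zero, map_one, one_mul]⟩
  obtain ⟨M', hM'⟩ : ∃ M', M = M' + 1 := ⟨M - 1, by omega⟩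
  have h1 := Nat.find_min hfin (m := M') (by omega)
  push Not at h1
  obtain ⟨t, ht⟩ := h1
  refine ⟨M', t, ht, ?_⟩
  intro h0
  obtain ⟨t', rfl⟩ := exists_of_lmap_zero hπ h0
  exact hmin ⟨t', by rw [ht, hM', pow_succ, map_mul, mul_assoc]⟩

/-- the standing data: `r = π^l r'`, `l ≥ 1`, `h` and `r'` coprime modulo `π` -/
structure Ban (π : V) (l : ℕ) (S : Shape g h r) (r' : V[X]) : Prop where
  irr : Irreducible π
  pos : 1 ≤ l
  eq : r = C (π ^ l) * r'
  cop : IsCoprime (h.map (rs V)) (r'.map (rs V))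

variable {π : V} {l : ℕ} {S : Shape g h r} {r' : V[X]}

/-- the normalised expansion of `y` -/
noncomputable def Ban.eta (H : Ban π l S r') : LaurentSeries V :=
  Classical.choose (exists_eta S H.eq)

theorem Ban.y0_eta (H : Ban π l S r') : y0 S = HahnSeries.C (π ^ l) * H.eta :=
  (Classical.choose_spec (exists_eta S H.eq)).1

theorem Ban.eta_mul (H : Ban π l S r') : H.eta * (ex V h + y0 S) = ex V r' :=
  (Classical.choose_spec (exists_eta S H.eq)).2

theorem Ban.lmap_y0 (H : Ban π l S r') : lmap (rs V) (y0 S) = 0 := by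
  rw [H.y0_eta, lmap_eq_zero_of_dvd H.irr H.pos]

theorem Ban.eta_red (H : Ban π l S r') :
    lmap (rs V) H.eta * ex _ (h.map (rs V)) = ex _ (r'.map (rs V)) := by
  have h1 := congrArg (lmap (rs V)) H.eta_mul
  rw [map_mul, map_add, H.lmap_y0, add_zero, lmap_ex, lmap_ex] at h1
  exact h1

theorem Ban.ge_eta (H : Ban π l S r') : Ge 1 H.eta := by
  refine ge_of_C_mul (pow_ne_zero l H.irr.ne_zero) ?_
  rw [← H.y0_eta]
  exact ge_y0 S

theorem Ban.e0_red (H : Ban π l S r') (z : CR V h r) :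
    lmap (rs V) (e0 S z) = ex _ (z.re.map (rs V)) := by
  rw [e0_apply, map_add, map_mul, H.lmap_y0, mul_zero, add_zero, lmap_ex]

theorem Ban.e1_red (H : Ban π l S r') (z : CR V h r) :
    lmap (rs V) (e1 S z) = ex _ (z.re.map (rs V) - h.map (rs V) * z.im.map (rs V)) := by
  rw [e1_apply, map_add, map_mul, map_sub, map_neg, H.lmap_y0, lmap_ex, lmap_ex, lmap_ex,
    map_sub, map_mul]
  ring

/-- division by a power of `y` -/
theorem Ban.tmap (H : Ban π l S r') {k : ℕ} {w : CR V h r} {s : LaurentSeries V}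
    (hw : e0 S w = HahnSeries.C (π ^ (l * k)) * s) :
    ∃ z : CR V h r, e0 S z = s * (-(ex V h + y0 S)) ^ k ∧ e1 S z = e1 S w * H.eta ^ k := by
  have hc : HahnSeries.C (π ^ (l * k)) = (HahnSeries.C (π ^ l) : LaurentSeries V) ^ k := by
    rw [← map_pow, ← pow_mul]
  have h0 : e0 S (w * star (yy h r) ^ k) =
      HahnSeries.C (π ^ (l * k)) * (s * (-(ex V h + y0 S)) ^ k) := by
    rw [map_mul, map_pow, e0_star, e1_yy, hw]
    ring
  have h1 : e1 S (w * star (yy h r) ^ k) =
      HahnSeries.C (π ^ (l * k)) * (e1 S w * H.eta ^ k) := by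
    rw [map_mul, map_pow, e1_star, e0_yy, H.y0_eta, hc]
    ring
  obtain ⟨z, hz⟩ := dvd_of_exp S h0 h1
  have hπ : π ^ (l * k) ≠ 0 := pow_ne_zero _ H.irr.ne_zero
  refine ⟨z, ?_, ?_⟩
  · apply C_cancel hπ
    rw [← h0, hz, map_mul, e0_cst]
  · apply C_cancel hπ
    rw [← h1, hz, map_mul, e1_cst]

/-- the structure of the reduction of an element whose first expansion is divisible by
`π^(l k)` -/
theorem Ban.conv (H : Ban π l S r') {k : ℕ} {w : CR V h r} {s : LaurentSeries V}
    (hw : e0 S w = HahnSeries.C (π ^ (l * k)) * s) :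
    ∃ γ Q : (IsLocalRing.ResidueField V)[X],
      lmap (rs V) (e1 S w) = ex _ ((-h.map (rs V)) ^ k * γ) ∧
      lmap (rs V) s * ex _ (h.map (rs V) ^ k) = ex _ Q ∧
      h.map (rs V) ∣ Q - γ * r'.map (rs V) ^ k := by
  obtain ⟨z, hz0, hz1⟩ := H.tmap hw
  set hb := h.map (rs V) with hhb
  set rb := r'.map (rs V) with hrb
  have h0 : lmap (rs V) s * (-ex _ hb) ^ k = ex _ (z.re.map (rs V)) := by
    rw [← H.e0_red, hz0, map_mul, map_pow, map_neg, map_add, H.lmap_y0, add_zero, lmap_ex]
  set P := w.re.map (rs V) - hb * w.im.map (rs V) with hP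
  have hPe : lmap (rs V) (e1 S w) = ex _ P := H.e1_red w
  have h1 : ex _ P * lmap (rs V) H.eta ^ k =
      ex _ (z.re.map (rs V) - hb * z.im.map (rs V)) := by
    rw [← hPe, ← map_pow, ← map_mul, ← hz1, H.e1_red]
  have h2 : P * rb ^ k = (z.re.map (rs V) - hb * z.im.map (rs V)) * hb ^ k := by
    apply ex_injective
    rw [map_mul, map_mul, ← h1, map_pow, map_pow, ← H.eta_red]
    ring
  have h3 : hb ^ k ∣ P := by
    have h4 : IsCoprime (hb ^ k) (rb ^ k) := H.cop.pow
    exact h4.dvd_of_dvd_mul_right ⟨z.re.map (rs V) - hb * z.im.map (rs V), by rw [h2]; ring⟩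
  obtain ⟨q, hq⟩ := h3
  have hm : hb.Monic := S.monic.map _
  have h5 : q * rb ^ k = z.re.map (rs V) - hb * z.im.map (rs V) := by
    have h6 : hb ^ k * (q * rb ^ k) = hb ^ k * (z.re.map (rs V) - hb * z.im.map (rs V)) := by
      rw [← mul_assoc, ← hq, h2]; ring
    exact mul_left_cancel₀ (pow_ne_zero k hm.ne_zero) h6
  refine ⟨(-1) ^ k * q, (-1) ^ k * z.re.map (rs V), ?_, ?_, ?_⟩
  · rw [hPe, hq]
    congr 1
    have : (-hb) ^ k = (-1) ^ k * hb ^ k := by rw [← mul_pow]; ring
    rw [this]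
    have h7 : ((-1 : (IsLocalRing.ResidueField V)[X]) ^ k) * (-1) ^ k = 1 := by
      rw [← mul_pow]; simp
    linear_combination (-(hb ^ k * q)) * h7
  · have h8 : (-ex (IsLocalRing.ResidueField V) hb) ^ k = (-1) ^ k * ex _ hb ^ k := by
      rw [← mul_pow]; ring
    rw [h8] at h0
    have h7 : ((-1 : LaurentSeries (IsLocalRing.ResidueField V)) ^ k) * (-1) ^ k = 1 := by
      rw [← mul_pow]; simp
    rw [map_mul, map_pow, map_pow, map_neg, map_one, ← h0]
    linear_combination (-(lmap (rs V) s * ex _ hb ^ k)) * h7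
  · refine ⟨(-1) ^ k * z.im.map (rs V), ?_⟩
    linear_combination (-((-1) ^ k : (IsLocalRing.ResidueField V)[X])) * h5

end dvr

end H41Ban
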