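import Pool.Agent.Helper41_Ban.Bas

/-!
Expansion of a polynomial in digits modulo `h`, and lifting of reductions.
-/

open Polynomial

namespace H41Ban

open H58UB H12UBI

section field

variable {k : Type*} [Field k]

/-- `Q = Σ_{j ≤ m} a_j b^j h^(m-j)` with `deg a_j ≤ g` for `j ≥ 1` -/
theorem digits {g : ℕ} {h b : k[X]} (hm : h.Monic) (hd : h.natDegree = g + 1)
    (hc : IsCoprime h b) (m : ℕ) : ∀ Q : k[X], ∃ a : ℕ → k[X],
      (∀ j, j ≠ 0 → (a j).natDegree ≤ g) ∧
      Q = ∑ j ∈ Finset.range (m + 1), a j * b ^ j * h ^ (m - j) := by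
  induction m with
  | zero =>
    intro Q
    refine ⟨fun j => if j = 0 then Q else 0, ?_, ?_⟩
    · intro j hj
      simp [hj]
    · simp
  | succ m ih =>
    intro Q
    have hc' : IsCoprime h (b ^ (m + 1)) := hc.pow_right
    obtain ⟨u, v, huv⟩ := hc'
    set c := (Q * v) %ₘ h with hcdef
    have hcd : c.natDegree ≤ g := by
      have h1 : c.natDegree < h.natDegree := by
        refine natDegree_modByMonic_lt _ hm ?_
        intro h0
        rw [h0, natDegree_one] at hd
        omega
      omega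
    have hdiv : h ∣ Q - c * b ^ (m + 1) := by
      have h1 : Q * v = c + h * ((Q * v) /ₘ h) := (modByMonic_add_div (Q * v) h).symm
      refine ⟨Q * u + (Q * v) /ₘ h * b ^ (m + 1), ?_⟩
      linear_combination (-Q) * huv + b ^ (m + 1) * h1
    obtain ⟨Q', hQ'⟩ := hdiv
    obtain ⟨a, ha, haQ⟩ := ih Q'
    refine ⟨fun j => if j = m + 1 then c else a j, ?_, ?_⟩
    · intro j hj
      by_cases h1 : j = m + 1
      · simp only [h1, if_true]; exact hcd
      · simp only [h1, if_false]; exact ha j hj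
    · rw [Finset.sum_range_succ]
      simp only [if_true, Nat.sub_self, pow_zero, mul_one]
      have h2 : ∑ j ∈ Finset.range (m + 1), (if j = m + 1 then c else a j) * b ^ j *
          h ^ (m + 1 - j) = h * Q' := by
        rw [haQ, Finset.mul_sum]
        refine Finset.sum_congr rfl fun j hj => ?_
        have hj' := Finset.mem_range.1 hj
        rw [if_neg (by omega)]
        have h3 : m + 1 - j = (m - j) + 1 := by omega
        rw [h3, pow_succ]
        ring
      rw [h2, ← hQ']
      ring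

/-- the same with a prescribed constant leading digit and degree bounds -/
theorem digits' {g : ℕ} {h b : k[X]} (hm : h.Monic) (hd : h.natDegree = g + 1)
    (hb : b.natDegree ≤ g) (hc : IsCoprime h b) {m : ℕ} (γ : k) {Q : k[X]}
    (hQ : Q.natDegree ≤ 2 * ((g + 1) * (m + 1))) (hdvd : h ∣ Q - C γ * b ^ (m + 1)) :
    ∃ a : ℕ → k[X], (∀ j, j ≠ 0 → (a j).natDegree ≤ g) ∧
      (a 0).natDegree ≤ (g + 1) * (m + 1) ∧
      Q = C γ * b ^ (m + 1) + ∑ j ∈ Finset.range (m + 1), a j * b ^ j * h ^ (m + 1 - j) := by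
  obtain ⟨Q', hQ'⟩ := hdvd
  obtain ⟨a, ha, haQ⟩ := digits hm hd hc m Q'
  have hsum : Q = C γ * b ^ (m + 1) +
      ∑ j ∈ Finset.range (m + 1), a j * b ^ j * h ^ (m + 1 - j) := by
    have h2 : ∑ j ∈ Finset.range (m + 1), a j * b ^ j * h ^ (m + 1 - j) = h * Q' := by
      rw [haQ, Finset.mul_sum]
      refine Finset.sum_congr rfl fun j hj => ?_
      have hj' := Finset.mem_range.1 hj
      have h3 : m + 1 - j = (m - j) + 1 := by omega
      rw [h3, pow_succ]
      ring
    rw [h2, ← hQ']
    ring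
  refine ⟨a, ha, ?_, hsum⟩
  have h0 : a 0 * h ^ (m + 1) = Q - C γ * b ^ (m + 1) -
      ∑ j ∈ Finset.range m, a (j + 1) * b ^ (j + 1) * h ^ (m + 1 - (j + 1)) := by
    have h1 := hsum
    rw [Finset.sum_range_succ'] at h1
    rw [pow_zero, mul_one, Nat.sub_zero] at h1
    linear_combination (-1 : k[X]) * h1
  have hbp : ∀ i, (b ^ i).natDegree ≤ g * i := fun i => by
    refine le_trans natDegree_pow_le ?_
    rw [mul_comm]
    exact Nat.mul_le_mul_right i hb
  have hhp : ∀ i, (h ^ i).natDegree = (g + 1) * i := fun i => by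
    rw [hm.natDegree_pow, hd]; ring
  have hdeg : (a 0 * h ^ (m + 1)).natDegree ≤ 2 * ((g + 1) * (m + 1)) := by
    rw [h0]
    refine le_trans (natDegree_sub_le _ _) (max_le (le_trans (natDegree_sub_le _ _)
      (max_le hQ ?_)) ?_)
    · refine le_trans natDegree_mul_le ?_
      rw [natDegree_C, zero_add]
      refine le_trans (hbp _) ?_
      nlinarith
    · refine natDegree_sum_le_of_forall_le _ _ fun j hj => ?_
      have hj' := Finset.mem_range.1 hj
      refine le_trans natDegree_mul_le ?_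
      have h2 : (a (j + 1) * b ^ (j + 1)).natDegree ≤ g + g * (j + 1) :=
        le_trans natDegree_mul_le (Nat.add_le_add (ha _ (by omega)) (hbp _))
      rw [hhp]
      have h3 : m + 1 - (j + 1) = m - j := by omega
      rw [h3]
      obtain ⟨i, rfl⟩ : ∃ i, m = j + i + 1 := ⟨m - j - 1, by omega⟩
      have h4 : j + i + 1 - j = i + 1 := by omega
      rw [h4]
      nlinarith
  by_cases ha0 : a 0 = 0
  · rw [ha0, natDegree_zero]
    exact Nat.zero_le _
  · rw [mul_comm, (hm.pow (m + 1)).natDegree_mul' ha0, hhp] at hdeg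
    omega

end field

section dvr

variable {V : Type*} [CommRing V] [IsDomain V] [IsDiscreteValuationRing V] {g : ℕ} {h r : V[X]}
variable {π : V} {l : ℕ} {S : Shape g h r} {r' : V[X]}

/-- lift of a polynomial with degree bound -/
theorem exists_lift (p : (IsLocalRing.ResidueField V)[X]) (n : ℕ) (hp : p.natDegree ≤ n) :
    ∃ q : V[X], q.map (rs V) = p ∧ q.natDegree ≤ n := by
  obtain ⟨q, hq⟩ := Polynomial.map_surjective (rs V) IsLocalRing.residue_surjective p
  refine ⟨∑ i ∈ Finset.range (n + 1), monomial i (q.coeff i), ?_, ?_⟩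
  · ext j
    rw [coeff_map, finsetSum_coeff]
    simp only [coeff_monomial, Finset.sum_ite_eq', Finset.mem_range]
    split_ifs with hj
    · rw [← hq, coeff_map]
    · rw [map_zero]
      exact (coeff_eq_zero_of_natDegree_lt (by omega)).symm
  · refine natDegree_sum_le_of_forall_le _ _ fun i hi => ?_
    refine le_trans (natDegree_monomial_le _) ?_
    have := Finset.mem_range.1 hi
    omega

/-- polynomials in the coordinate ring -/
noncomputable def pl (h r : V[X]) (p : V[X]) : CR V h r := algebraMap V[X] (CR V h r) p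

theorem e0_pl (p : V[X]) : e0 S (pl h r p) = ex V p := by
  have h1 : (pl h r p).re = p := rfl
  have h2 : (pl h r p).im = 0 := rfl
  rw [e0_apply, h1, h2, map_zero, zero_mul, add_zero]

theorem e1_pl (p : V[X]) : e1 S (pl h r p) = ex V p := by
  have h1 : (pl h r p).re = p := rfl
  have h2 : (pl h r p).im = 0 := rfl
  rw [e1_apply, h1, h2, map_zero, zero_mul, add_zero]

theorem ge_sum {A : Type*} [CommRing A] {n : ℤ} {ι : Type*} (s : Finset ι)
    (f : ι → LaurentSeries A) (hf : ∀ i ∈ s, Ge n (f i)) : Ge n (∑ i ∈ s, f i) := by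
  classical
  induction s using Finset.induction_on with
  | empty => rw [Finset.sum_empty]; exact ge_zero n
  | insert a s ha ih =>
    rw [Finset.sum_insert ha]
    exact (hf a (Finset.mem_insert_self a s)).add
      (ih fun i hi => hf i (Finset.mem_insert_of_mem hi))

/-- lifting of reductions -/
theorem Ban.lift (H : Ban π l S r') (hr' : r'.natDegree ≤ g) {k : ℕ} (hk : 1 ≤ k)
    (γ : IsLocalRing.ResidueField V) {Q : (IsLocalRing.ResidueField V)[X]}
    (hQ : Q.natDegree ≤ 2 * ((g + 1) * k))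
    (hdvd : h.map (rs V) ∣ Q - C γ * r'.map (rs V) ^ k) :
    ∃ (w : CR V h r) (s : LaurentSeries V), Fn S ((g + 1) * k) w ∧
      e0 S w = HahnSeries.C (π ^ (l * k)) * s ∧
      lmap (rs V) s * ex _ (h.map (rs V) ^ k) = ex _ Q ∧
      lmap (rs V) (e1 S w) = ex _ ((-h.map (rs V)) ^ k * C γ) := by
  obtain ⟨m, rfl⟩ : ∃ m, k = m + 1 := ⟨k - 1, by omega⟩
  have hmon : (h.map (rs V)).Monic := S.monic.map _
  have hdg : (h.map (rs V)).natDegree = g + 1 := by rw [S.monic.natDegree_map, S.deg]
  have hrd : (r'.map (rs V)).natDegree ≤ g := le_trans natDegree_map_le hr'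
  obtain ⟨a, ha, ha0, haQ⟩ := digits' hmon hdg hrd H.cop γ hQ hdvd
  have hlift : ∀ j, ∃ q : V[X], q.map (rs V) = a j ∧
      q.natDegree ≤ if j = 0 then (g + 1) * (m + 1) else g := by
    intro j
    refine exists_lift (a j) _ ?_
    split_ifs with hj
    · rw [hj]; exact ha0
    · exact ha j hj
  choose b hb hbd using hlift
  obtain ⟨c, hc⟩ := IsLocalRing.residue_surjective γ
  let w : CR V h r := pl h r (C c) * yy h r ^ (m + 1) +
    ∑ j ∈ Finset.range (m + 1), cst h r (π ^ (l * (m + 1 - j))) * (pl h r (b j) * yy h r ^ j)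
  let s : LaurentSeries V := ex V (C c) * H.eta ^ (m + 1) +
    ∑ j ∈ Finset.range (m + 1), ex V (b j) * H.eta ^ j
  have hdeg : ∀ j, (b j).natDegree + (g + 1) * j ≤ (g + 1) * (m + 1) ∨ m + 1 ≤ j := by
    intro j
    by_cases h1 : m + 1 ≤ j
    · exact Or.inr h1
    · left
      have h2 := hbd j
      by_cases h3 : j = 0
      · rw [if_pos h3] at h2
        rw [h3] at h2 ⊢
        omega
      · rw [if_neg h3] at h2
        obtain ⟨i, rfl⟩ : ∃ i, m = j + i := ⟨m - j, by omega⟩
        nlinarith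
  have hy : HahnSeries.C (π ^ l) * H.eta = y0 S := H.y0_eta.symm
  have hpow : ∀ j, y0 S ^ j = HahnSeries.C (π ^ (l * j)) * H.eta ^ j := by
    intro j
    rw [← hy, mul_pow, ← map_pow, ← pow_mul]
  have he0 : e0 S w = HahnSeries.C (π ^ (l * (m + 1))) * s := by
    simp only [w, s]
    rw [map_add, map_mul, map_pow, e0_pl, e0_yy, map_sum, mul_add, Finset.mul_sum, hpow]
    refine congrArg₂ (· + ·) (by ring) (Finset.sum_congr rfl fun j hj => ?_)
    have hj' := Finset.mem_range.1 hj
    rw [map_mul, e0_cst, map_mul, map_pow (e0 S) (yy h r), e0_pl, e0_yy, hpow]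
    have h4 : (HahnSeries.C (π ^ (l * (m + 1))) : LaurentSeries V) =
        HahnSeries.C (π ^ (l * (m + 1 - j))) * HahnSeries.C (π ^ (l * j)) := by
      rw [← map_mul, ← pow_add, ← mul_add]
      congr 3
      omega
    rw [h4]
    ring
  have hgs : Ge (-(((g + 1) * (m + 1) : ℕ) : ℤ)) s := by
    refine Ge.add ?_ (ge_sum _ _ fun j hj => ?_)
    · rw [ex_C]
      refine ge_C_mul ?_ c
      refine (H.ge_eta.pow (m + 1)).mono ?_
      have : (0 : ℤ) ≤ ((m + 1 : ℕ) : ℤ) * 1 := by positivity
      have h5 : (0 : ℤ) ≤ (((g + 1) * (m + 1) : ℕ) : ℤ) := by positivity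
      omega
    · have hj' := Finset.mem_range.1 hj
      have h3 : (b j).natDegree ≤ (g + 1) * (m + 1) := by
        rcases hdeg j with h | h
        · exact le_trans (Nat.le_add_right _ _) h
        · omega
      refine ((ge_ex h3).mul (H.ge_eta.pow j)).mono ?_
      have : (0 : ℤ) ≤ ((j : ℕ) : ℤ) * 1 := by positivity
      omega
  have hy1 : Ge (-((g + 1 : ℕ) : ℤ)) (-ex V h - y0 S) :=
    ((ge_ex (le_of_eq S.deg)).neg).sub ((ge_y0 S).mono (by omega))
  refine ⟨w, s, ⟨?_, ?_⟩, he0, ?_, ?_⟩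
  · rw [he0]
    exact ge_C_mul hgs _
  · simp only [w]
    rw [map_add, map_mul, map_pow, e1_pl, e1_yy, map_sum]
    refine Ge.add ?_ (ge_sum _ _ fun j hj => ?_)
    · rw [ex_C]
      refine ge_C_mul ((hy1.pow (m + 1)).mono (le_of_eq ?_)) c
      push_cast; ring
    · have hj' := Finset.mem_range.1 hj
      rw [map_mul, e1_cst, map_mul, map_pow (e1 S) (yy h r), e1_pl, e1_yy]
      refine ge_C_mul (((ge_ex le_rfl).mul (hy1.pow j)).mono ?_) _
      rcases hdeg j with h | h
      · have h6 : (((b j).natDegree + (g + 1) * j : ℕ) : ℤ) ≤ (((g + 1) * (m + 1) : ℕ) : ℤ) := by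
          exact_mod_cast h
        push_cast at h6 ⊢
        linarith
      · omega
  · simp only [s]
    rw [map_add, map_mul, map_pow, lmap_ex, map_sum]
    have h7 : ∀ j ≤ m + 1, lmap (rs V) H.eta ^ j * ex _ (h.map (rs V) ^ (m + 1)) =
        ex _ (r'.map (rs V) ^ j * h.map (rs V) ^ (m + 1 - j)) := by
      intro j hj
      rw [map_mul, map_pow (ex _) (r'.map (rs V)), ← H.eta_red, map_pow, map_pow, mul_pow,
        mul_assoc, ← pow_add]
      congr 2
      omega
    rw [haQ, map_add, map_sum, add_mul, Finset.sum_mul]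
    refine congrArg₂ (· + ·) ?_ (Finset.sum_congr rfl fun j hj => ?_)
    · rw [mul_assoc, h7 (m + 1) le_rfl, Nat.sub_self, pow_zero, mul_one, map_mul,
        Polynomial.map_C, hc]
    · have hj' := Finset.mem_range.1 hj
      rw [map_mul, map_pow, lmap_ex, mul_assoc, h7 j (by omega), hb, ← map_mul, ← mul_assoc]
  · simp only [w]
    rw [map_add, map_mul, map_pow, e1_pl, e1_yy, map_sum, map_add, map_mul, map_pow, map_sub,
      map_neg, H.lmap_y0, sub_zero, lmap_ex, lmap_ex, map_sum]
    have h8 : ∑ j ∈ Finset.range (m + 1), lmap (rs V) (e1 S (cst h r (π ^ (l * (m + 1 - j))) *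
        (pl h r (b j) * yy h r ^ j))) = 0 := by
      refine Finset.sum_eq_zero fun j hj => ?_
      have hj' := Finset.mem_range.1 hj
      rw [map_mul, e1_cst]
      refine lmap_eq_zero_of_dvd H.irr ?_ _
      have h9 : 1 ≤ m + 1 - j := by omega
      exact Nat.mul_pos H.pos h9
    rw [h8, add_zero, map_mul, map_pow, map_neg, Polynomial.map_C, hc]
    ring

end dvr

end H41Ban
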