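import Mathlib

namespace Pool.Agent.Ban.H41

/-- `q` is quadratic on every real line through two points. -/
def IsQ {V : Type*} [AddCommGroup V] [Module ℝ V] (q : V → ℝ) : Prop :=
  ∀ (a b : V) (t : ℝ), q (a + t • b) = q a + t * (q (a + b) - q a - q b) + t ^ 2 * q b

section

variable {V : Type*} [AddCommGroup V] [Module ℝ V] {q : V → ℝ}

theorem IsQ.zero (h : IsQ q) : q 0 = 0 := by
  have := h 0 0 2
  simp at this
  linarith

theorem IsQ.smul (h : IsQ q) (t : ℝ) (b : V) : q (t • b) = t ^ 2 * q b := by
  have := h 0 b t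
  simp only [zero_add, h.zero] at this
  linarith

theorem IsQ.neg (h : IsQ q) (b : V) : q (-b) = q b := by
  have := h.smul (-1) b
  rw [neg_one_smul] at this
  linarith

theorem IsQ.par (h : IsQ q) (a b : V) : q (a + b) + q (a - b) = 2 * q a + 2 * q b := by
  have := h a b (-1)
  rw [neg_one_smul, ← sub_eq_add_neg] at this
  linarith

theorem IsQ.three (h : IsQ q) (a b c : V) :
    q (a + b + c) = q (a + b) + q (a + c) + q (b + c) - q a - q b - q c := by
  have h1 := h.par (a + b) c
  have h2 := h.par (a - c) b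
  have h3 := h.par a (b + c)
  have h4 := h.par a c
  have e1 : a - c + b = a + b - c := by abel
  have e2 : a - c - b = a - (b + c) := by abel
  have e3 : a + (b + c) = a + b + c := by abel
  rw [e1, e2] at h2
  rw [e3] at h3
  linarith

theorem IsQ.polar_smul (h : IsQ q) (t : ℝ) (a b : V) :
    q (a + t • b) - q a - q (t • b) = t * (q (a + b) - q a - q b) := by
  rw [h a b t, h.smul]; ring

/-- The quadratic form of a function which is quadratic on lines. -/
noncomputable def IsQ.form (h : IsQ q) : QuadraticForm ℝ V :=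
  QuadraticMap.ofPolar q (fun t x => by rw [h.smul, smul_eq_mul]; ring)
    (fun a b c => by
      simp only [QuadraticMap.polar]
      have := h.three a b c
      linarith)
    (fun t a b => by
      simp only [QuadraticMap.polar, smul_eq_mul]
      have := h.polar_smul t b a
      rw [add_comm (t • a) b, add_comm a b]
      linarith)

@[simp] theorem IsQ.form_apply (h : IsQ q) (x : V) : h.form x = q x := rfl

theorem IsQ.const_mul (h : IsQ q) (c : ℝ) : IsQ (fun x => c * q x) := by
  intro a b t
  simp only [h a b t]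
  ring

end

/-- Transfer of the two properties from the gauge of `K0` to the gauge `G` of a translate:
`φ (x - G x • β) = G x`. -/
theorem transfer {V : Type*} [AddCommGroup V] [Module ℝ V] (φ G : V → ℝ) (β : V)
    (hφ0 : ∀ v, 0 ≤ φ v) (hβ : φ (-β) < 1)
    (hL : ∀ a b, φ (a + b) - φ (-(a + b)) = (φ a - φ (-a)) + (φ b - φ (-b)))
    (hLs : ∀ (t : ℝ) a, φ (t • a) - φ (-(t • a)) = t * (φ a - φ (-a)))
    (hq : IsQ (fun v => φ v * φ (-v)))
    (hG0 : G 0 = 0) (hG : ∀ v, v ≠ 0 → 0 < G v)
    (hT : ∀ v, v ≠ 0 → φ (v - G v • β) = G v) :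
    (∀ a b, G (a + b) - G (-(a + b)) = (G a - G (-a)) + (G b - G (-b))) ∧
    IsQ (fun v => G v * G (-v)) := by
  set c : ℝ := (1 + φ β) * (1 - φ (-β)) with hc
  have hcpos : 0 < c := mul_pos (by linarith [hφ0 β]) (by linarith)
  set ℓ : V → ℝ := fun v => (φ v - φ (-v)) -
    (φ (v + β) * φ (-(v + β)) - φ v * φ (-v) - φ β * φ (-β)) with hℓ
  have key : ∀ v, v ≠ 0 → c * G v ^ 2 - ℓ v * G v - φ v * φ (-v) = 0 := by
    intro v hv
    have h1 := hT v hv
    set s := G v with hs
    set y := v - s • β with hy
    have h2 : φ y * φ (-y) + s * (φ y - φ (-y)) = s ^ 2 := by rw [h1]; ring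
    have h3 : φ y * φ (-y) = φ v * φ (-v) + (-s) * (φ (v + β) * φ (-(v + β)) - φ v * φ (-v)
        - φ β * φ (-β)) + (-s) ^ 2 * (φ β * φ (-β)) := by
      have := hq v β (-s)
      simp only at this
      rw [← this, hy, neg_smul, ← sub_eq_add_neg]
    have h4 : φ y - φ (-y) = (φ v - φ (-v)) - s * (φ β - φ (-β)) := by
      have h5 := hL v ((-s) • β)
      have h6 := hLs (-s) β
      rw [h6, neg_smul, ← sub_eq_add_neg, ← hy] at h5
      linarith
    rw [h3, h4] at h2
    simp only [hℓ, hc]
    linear_combination -h2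
  have hℓneg : ∀ v, ℓ (-v) = -ℓ v := by
    intro v
    have h1 := hq.par v β
    have h2 := hq.neg (v - β)
    -- 
    have e : -v + β = -(v - β) := by abel
    simp only [hℓ, neg_neg]
    rw [e]
    simp only [neg_neg] at h2 ⊢
    linarith
  have key2 : ∀ v, c * (G v - G (-v)) = ℓ v ∧ c * (G v * G (-v)) = φ v * φ (-v) := by
    intro v
    by_cases hv : v = 0
    · subst hv
      have h0 := hℓneg 0
      rw [neg_zero] at h0
      have h1 : φ (0 : V) * φ (-0) = 0 := hq.zero
      refine ⟨?_, ?_⟩
      · rw [neg_zero, sub_self, mul_zero]; linarith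
      · rw [h1, hG0]; ring
    · have hv' : -v ≠ 0 := neg_ne_zero.2 hv
      have k1 := key v hv
      have k2 := key (-v) hv'
      rw [hℓneg, neg_neg] at k2
      have h1 : (G v + G (-v)) * (c * (G v - G (-v)) - ℓ v) = 0 := by
        linear_combination k1 - k2
      have h2 : c * (G v - G (-v)) - ℓ v = 0 :=
        (mul_eq_zero.1 h1).resolve_left (by linarith [hG v hv, hG (-v) hv'] :
          G v + G (-v) ≠ 0)
      refine ⟨by linarith, ?_⟩
      linear_combination k1 - (G v) * h2
  have hℓadd : ∀ a b, ℓ (a + b) = ℓ a + ℓ b := by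
    intro a b
    have h1 := hq.three a b β
    have h2 := hL a b
    -- 
    simp only [hℓ]
    linarith
  constructor
  · intro a b
    have h1 := (key2 (a + b)).1
    have h2 := (key2 a).1
    have h3 := (key2 b).1
    have h4 := hℓadd a b
    have h5 : c * ((G (a + b) - G (-(a + b))) - ((G a - G (-a)) + (G b - G (-b)))) = 0 := by
      linear_combination h1 - h2 - h3 + h4
    have := (mul_eq_zero.1 h5).resolve_left hcpos.ne'
    linarith
  · have h6 : (fun v => G v * G (-v)) = fun v => c⁻¹ * (φ v * φ (-v)) := by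
      funext v
      rw [← (key2 v).2]
      field_simp
    rw [h6]
    exact hq.const_mul _

end Pool.Agent.Ban.H41
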