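import Mathlib
import Pool.Agent.Helper41_Ban.Quad

open Module

namespace Pool.Agent.Ban.H41

/-- The inner product of a positive definite quadratic function. -/
@[instance_reducible] noncomputable def core {E : Type*} [AddCommGroup E] [Module ℝ E] {q : E → ℝ} (hq : IsQ q)
    (hpos : ∀ x, x ≠ 0 → 0 < q x) : InnerProductSpace.Core ℝ E where
  inner x y := (q (x + y) - q x - q y) / 2
  conj_inner_symm x y := by
    simp only [conj_trivial]
    rw [add_comm y x]; ring
  re_inner_nonneg x := by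
    have h1 : q (x + x) = 4 * q x := by
      rw [← two_smul ℝ x, hq.smul]; ring
    have h2 : 0 ≤ q x := by
      by_cases hx : x = 0
      · rw [hx, hq.zero]
      · exact (hpos x hx).le
    simp only [RCLike.re_to_real]
    rw [h1]; linarith
  add_left x y z := by
    have := hq.three x y z
    linarith
  smul_left x y r := by
    simp only [conj_trivial]
    have := hq.polar_smul r y x
    rw [add_comm (r • x) y, add_comm x y]
    linarith
  definite x hx := by
    by_contra hne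
    have h1 : q (x + x) = 4 * q x := by
      rw [← two_smul ℝ x, hq.smul]; ring
    rw [h1] at hx
    linarith [hpos x hne]

theorem posdef_equiv {E : Type*} [AddCommGroup E] [Module ℝ E] [FiniteDimensional ℝ E] (n : ℕ)
    (hn : finrank ℝ E = n) (q : E → ℝ) (hq : IsQ q) (hpos : ∀ x, x ≠ 0 → 0 < q x) :
    ∃ T : E ≃ₗ[ℝ] EuclideanSpace ℝ (Fin n), ∀ x, q x = ‖T x‖ ^ 2 := by
  let c : InnerProductSpace.Core ℝ E := core hq hpos
  let _ : NormedAddCommGroup E := c.toNormedAddCommGroup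
  let _ : InnerProductSpace ℝ E := InnerProductSpace.ofCore c.toCore
  let b := (stdOrthonormalBasis ℝ E).reindex (finCongr hn)
  refine ⟨b.repr.toLinearEquiv, ?_⟩
  intro x
  have h1 : ‖b.repr x‖ = ‖x‖ := b.repr.norm_map x
  have h2 : ‖x‖ ^ 2 = inner ℝ x x := (real_inner_self_eq_norm_sq x).symm
  have h3 : inner ℝ x x = (q (x + x) - q x - q x) / 2 := rfl
  have h4 : q (x + x) = 4 * q x := by
    rw [← two_smul ℝ x, hq.smul]; ring
  change q x = ‖b.repr x‖ ^ 2
  rw [h1, h2, h3, h4]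
  ring


/-- A gauge function whose odd part is linear and for which `g x * g (-x)` is quadratic is the
gauge of an ellipsoid. -/
theorem ellipsoid {E : Type*} [AddCommGroup E] [Module ℝ E] [FiniteDimensional ℝ E] (n : ℕ)
    (hn : finrank ℝ E = n) (g : E → ℝ) (hg0 : ∀ x, 0 ≤ g x) (hgpos : ∀ x, x ≠ 0 → 0 < g x)
    (hL : ∀ a b, g (a + b) - g (-(a + b)) = (g a - g (-a)) + (g b - g (-b)))
    (hLs : ∀ (t : ℝ) a, g (t • a) - g (-(t • a)) = t * (g a - g (-a)))
    (hq : IsQ (fun v => g v * g (-v))) :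
    ∃ (T : EuclideanSpace ℝ (Fin n) ≃ₗ[ℝ] E) (c : E),
      ∀ x, g x ≤ 1 ↔ ∃ y : EuclideanSpace ℝ (Fin n), ‖y‖ ≤ 1 ∧ x = T y + c := by
  obtain ⟨T, hT⟩ := posdef_equiv n hn _ hq
    (fun x hx => mul_pos (hgpos x hx) (hgpos (-x) (neg_ne_zero.2 hx)))
  let L : E →ₗ[ℝ] ℝ :=
    { toFun := fun x => g x - g (-x)
      map_add' := hL
      map_smul' := hLs }
  let L' : EuclideanSpace ℝ (Fin n) →L[ℝ] ℝ :=
    LinearMap.toContinuousLinearMap (L ∘ₗ T.symm.toLinearMap)
  obtain ⟨d, hd⟩ : ∃ d : EuclideanSpace ℝ (Fin n), ∀ x, L x = inner ℝ d (T x) := by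
    refine ⟨(InnerProductSpace.toDual ℝ (EuclideanSpace ℝ (Fin n))).symm L', ?_⟩
    intro x
    rw [InnerProductSpace.toDual_symm_apply]
    change L x = L (T.symm (T x))
    rw [T.symm_apply_apply]
  set d2 : EuclideanSpace ℝ (Fin n) := (2 : ℝ)⁻¹ • d with hd2
  set r : ℝ := Real.sqrt (1 + ‖d2‖ ^ 2) with hr
  have hr2 : r ^ 2 = 1 + ‖d2‖ ^ 2 := Real.sq_sqrt (by positivity)
  have hrpos : 0 < r := Real.sqrt_pos.2 (by positivity)
  have key : ∀ x, g x ≤ 1 ↔ ‖T x + d2‖ ≤ r := by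
    intro x
    have h1 : ‖T x + d2‖ ^ 2 = g x * g (-x) + (g x - g (-x)) + ‖d2‖ ^ 2 := by
      rw [norm_add_sq_real, ← hT x]
      have h2 : inner ℝ (T x) d2 = (2 : ℝ)⁻¹ * (g x - g (-x)) := by
        rw [hd2, inner_smul_right, real_inner_comm, ← hd x]
        rfl
      rw [h2]; ring
    have h3 : ‖T x + d2‖ ≤ r ↔ ‖T x + d2‖ ^ 2 ≤ r ^ 2 := by
      rw [sq_le_sq₀ (norm_nonneg _) hrpos.le]
    rw [h3, h1, hr2]
    have h4 : 0 ≤ g (-x) := hg0 (-x)
    constructor
    · intro h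
      nlinarith
    · intro h
      nlinarith
  refine ⟨(LinearEquiv.smulOfNeZero ℝ _ r hrpos.ne').trans T.symm, -(T.symm d2), ?_⟩
  intro x
  rw [key x]
  constructor
  · intro h
    refine ⟨r⁻¹ • (T x + d2), ?_, ?_⟩
    · rw [norm_smul, norm_inv, Real.norm_eq_abs, abs_of_pos hrpos]
      rw [inv_mul_le_iff₀ hrpos]; linarith
    · simp only [LinearEquiv.trans_apply, LinearEquiv.smulOfNeZero_apply, smul_smul,
        mul_inv_cancel₀ hrpos.ne', one_smul, map_add, LinearEquiv.symm_apply_apply]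
      abel
  · rintro ⟨y, hy, rfl⟩
    simp only [LinearEquiv.trans_apply, LinearEquiv.smulOfNeZero_apply, map_add, map_neg,
      LinearEquiv.apply_symm_apply, neg_add_cancel_right]
    rw [norm_smul, Real.norm_eq_abs, abs_of_pos hrpos]
    nlinarith [norm_nonneg y]

end Pool.Agent.Ban.H41
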