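import Mathlib
import Pool.Agent.Helper41_Ban.Fin

open Module

namespace Pool.Agent.Ban.H41

/-- Two vectors of a space of dimension at least three are orthogonal to a nonzero vector. -/
theorem exists_orth {E : Type*} [NormedAddCommGroup E] [InnerProductSpace ℝ E]
    [FiniteDimensional ℝ E] (hn : 3 ≤ finrank ℝ E) (a b : E) :
    ∃ ν : E, ν ≠ 0 ∧ inner ℝ ν a = 0 ∧ inner ℝ ν b = 0 := by
  set W : Submodule ℝ E := Submodule.span ℝ {a, b} with hW
  have h1 : finrank ℝ W ≤ 2 := by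
    classical
    have h := finrank_span_finset_le_card (R := ℝ) ({a, b} : Finset E)
    have h2 : (({a, b} : Finset E) : Set E) = ({a, b} : Set E) := by simp
    rw [Set.finrank, h2] at h
    exact h.trans Finset.card_le_two
  have h2 : finrank ℝ W + finrank ℝ Wᗮ = finrank ℝ E := Submodule.finrank_add_finrank_orthogonal W
  have h3 : Wᗮ ≠ ⊥ := by
    intro h
    rw [h, finrank_bot] at h2
    omega
  obtain ⟨ν, hν, hν0⟩ := Submodule.exists_mem_ne_zero_of_ne_bot h3
  refine ⟨ν, hν0, ?_, ?_⟩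
  · rw [real_inner_comm]
    exact (Submodule.mem_orthogonal W ν).1 hν a (Submodule.subset_span (by simp))
  · rw [real_inner_comm]
    exact (Submodule.mem_orthogonal W ν).1 hν b (Submodule.subset_span (by simp))

/-- The boundary condition for a section `{v | φ v ≤ 1} = {v | g (A v + A β) ≤ 1}`. -/
theorem bdry {V E : Type*} [NormedAddCommGroup V] [NormedSpace ℝ V] [NormedAddCommGroup E]
    [NormedSpace ℝ E] (φ : V → ℝ) (g : E → ℝ) (hφc : Continuous φ)
    (hφh : ∀ r : ℝ, 0 ≤ r → ∀ v, φ (r • v) = r * φ v)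
    (hgh : ∀ r : ℝ, 0 ≤ r → ∀ x, g (r • x) = r * g x)
    (hg0 : ∀ x, 0 ≤ g x) (hgpos : ∀ x, x ≠ 0 → 0 < g x)
    (A : V →ₗ[ℝ] E) (hA : Function.Injective A) (β : V)
    (hK : ∀ v, φ v ≤ 1 ↔ g (A v + A β) ≤ 1) :
    φ (-β) < 1 ∧ ∀ v, v ≠ 0 → φ (v - g (A v) • β) = g (A v) := by
  constructor
  · have hG : 0 ≤ g (-(A β)) := hg0 _
    set ε : ℝ := (1 + g (-(A β)))⁻¹ with hε
    have hε0 : 0 < ε := by positivity
    have h1 : g (A (-((1 + ε) • β)) + A β) ≤ 1 := by
      have e1 : A (-((1 + ε) • β)) + A β = ε • (-(A β)) := by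
        rw [map_neg, map_smul, add_smul, one_smul, smul_neg]; abel
      rw [e1, hgh ε hε0.le, hε, inv_mul_le_iff₀ (by positivity)]
      linarith
    have h2 := (hK _).2 h1
    rw [← smul_neg, hφh (1 + ε) (by positivity)] at h2
    by_contra hcon
    push Not at hcon
    nlinarith
  · intro v hv
    have hAv : A v ≠ 0 := by
      intro h
      apply hv
      exact hA (by rw [h, map_zero])
    set s : ℝ := g (A v) with hs
    have hs0 : 0 < s := hgpos _ hAv
    set y : V := s⁻¹ • v - β with hy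
    have e1 : A y + A β = s⁻¹ • A v := by
      rw [hy, map_sub, map_smul]; abel
    have h1 : φ y ≤ 1 := by
      rw [hK, e1, hgh _ (by positivity), ← hs, inv_mul_cancel₀ hs0.ne']
    have h2 : φ y = 1 := by
      by_contra hne
      have hlt : φ y < 1 := lt_of_le_of_ne h1 hne
      have hcont : Continuous (fun ε : ℝ => φ (y + ε • (y + β))) := by fun_prop
      have h3 : ∀ᶠ ε in nhds (0 : ℝ), φ (y + ε • (y + β)) < 1 := by
        apply (hcont.tendsto 0).eventually_lt tendsto_const_nhds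
        simpa using hlt
      have h4 : ∀ᶠ ε in nhdsWithin (0 : ℝ) (Set.Ioi 0), φ (y + ε • (y + β)) < 1 :=
        h3.filter_mono nhdsWithin_le_nhds
      obtain ⟨ε, hε, hε0⟩ := (h4.and self_mem_nhdsWithin).exists
      have hε1 : (0 : ℝ) < ε := hε0
      have h5 := (hK _).1 hε.le
      have e2 : A (y + ε • (y + β)) + A β = (1 + ε) • (s⁻¹ • A v) := by
        rw [← e1, map_add, map_smul, map_add, add_smul, one_smul]; abel
      rw [e2, hgh _ (by positivity), hgh _ (by positivity), ← hs, inv_mul_cancel₀ hs0.ne'] at h5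
      linarith
    have e3 : v - s • β = s • y := by
      rw [hy, smul_sub, smul_smul, mul_inv_cancel₀ hs0.ne', one_smul]
    rw [e3, hφh _ hs0.le, h2, mul_one]

/-- If all central hyperplane sections have the two properties then the body is an ellipsoid. -/
theorem glue {V : Type*} [AddCommGroup V] [Module ℝ V] (n : ℕ) (hn : 3 ≤ n)
    (φ : V → ℝ) (g : EuclideanSpace ℝ (Fin n) → ℝ)
    (hφ0 : ∀ v, 0 ≤ φ v)
    (hL : ∀ a b, φ (a + b) - φ (-(a + b)) = (φ a - φ (-a)) + (φ b - φ (-b)))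
    (hLs : ∀ (t : ℝ) a, φ (t • a) - φ (-(t • a)) = t * (φ a - φ (-a)))
    (hq : IsQ (fun v => φ v * φ (-v)))
    (hg0 : ∀ x, 0 ≤ g x) (hgpos : ∀ x, x ≠ 0 → 0 < g x)
    (hgh : ∀ r : ℝ, 0 ≤ r → ∀ x, g (r • x) = r * g x)
    (hsec : ∀ ν : EuclideanSpace ℝ (Fin n), ν ≠ 0 → ∃ (A : V →ₗ[ℝ] EuclideanSpace ℝ (Fin n))
      (β : V), (∀ x, inner ℝ ν x = 0 → ∃ v, A v = x) ∧ Function.Injective A ∧ φ (-β) < 1 ∧
      ∀ v, v ≠ 0 → φ (v - g (A v) • β) = g (A v)) :
    ∃ (T : EuclideanSpace ℝ (Fin n) ≃ₗ[ℝ] EuclideanSpace ℝ (Fin n))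
      (c : EuclideanSpace ℝ (Fin n)),
      ∀ x, g x ≤ 1 ↔ ∃ y : EuclideanSpace ℝ (Fin n), ‖y‖ ≤ 1 ∧ x = T y + c := by
  have hg00 : g 0 = 0 := by
    have := hgh 0 le_rfl 0
    simpa using this
  have hloc : ∀ a b : EuclideanSpace ℝ (Fin n),
      (g (a + b) - g (-(a + b)) = (g a - g (-a)) + (g b - g (-b))) ∧
      ∀ t : ℝ, g (a + t • b) * g (-(a + t • b)) = g a * g (-a)
        + t * (g (a + b) * g (-(a + b)) - g a * g (-a) - g b * g (-b))
        + t ^ 2 * (g b * g (-b)) := by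
    intro a b
    obtain ⟨ν, hν, hνa, hνb⟩ := exists_orth (E := EuclideanSpace ℝ (Fin n))
      (by rw [finrank_euclideanSpace_fin]; exact hn) a b
    obtain ⟨A, β, hsurj, hinj, hβ, hT⟩ := hsec ν hν
    obtain ⟨a', rfl⟩ := hsurj a hνa
    obtain ⟨b', rfl⟩ := hsurj b hνb
    have htr := transfer φ (fun v => g (A v)) β hφ0 hβ hL hLs hq (by simp [hg00])
      (fun v hv => hgpos _ (fun h => hv (hinj (by rw [h, map_zero])))) hT
    constructor
    · have := htr.1 a' b'
      simpa using this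
    · intro t
      have := htr.2 a' b' t
      simpa using this
  have hgLs : ∀ (t : ℝ) a, g (t • a) - g (-(t • a)) = t * (g a - g (-a)) := by
    intro t a
    rcases le_total 0 t with ht | ht
    · rw [← smul_neg, hgh t ht, hgh t ht]; ring
    · have h1 : t • a = (-t) • (-a) := by simp
      have h2 : -(t • a) = (-t) • a := by simp
      rw [h2, h1, hgh (-t) (by linarith), hgh (-t) (by linarith)]; ring
  exact ellipsoid n finrank_euclideanSpace_fin g hg0 hgpos (fun a b => (hloc a b).1) hgLs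
    (fun a b t => (hloc a b).2 t)

end Pool.Agent.Ban.H41
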