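import Mathlib

open Polynomial Filter Topology

namespace Pool.Agent.Ban.H41

theorem poly_growth (P : ℝ[X]) (n : ℕ) (c : ℝ)
    (h : Tendsto (fun t : ℝ => P.eval t / t ^ n) atTop (𝓝 c)) :
    P.natDegree ≤ n ∧ P.coeff n = c := by
  have hX : ∀ t : ℝ, (X ^ n : ℝ[X]).eval t = t ^ n := by intro t; simp
  have hXd : (X ^ n : ℝ[X]).degree = n := degree_X_pow n
  have hX0 : (X ^ n : ℝ[X]) ≠ 0 := pow_ne_zero _ X_ne_zero
  have hd : P.degree ≤ n := by
    by_contra hcon
    push Not at hcon
    rw [← hXd] at hcon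
    have h1 := abs_div_tendsto_atTop_atTop_of_degree_gt P (X ^ n) hcon hX0
    have h2 : Tendsto (fun t : ℝ => |P.eval t / (X ^ n : ℝ[X]).eval t|) atTop (𝓝 |c|) := by
      simp only [hX]
      exact h.abs
    exact not_tendsto_nhds_of_tendsto_atTop h1 _ h2
  refine ⟨natDegree_le_iff_degree_le.2 hd, ?_⟩
  rcases hd.lt_or_eq with h3 | h3
  · have h1 := div_tendsto_atTop_zero_of_degree_lt P (X ^ n) (by rw [hXd]; exact h3)
    simp only [hX] at h1
    rw [coeff_eq_zero_of_degree_lt h3]
    exact tendsto_nhds_unique h1 h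
  · have h1 := div_tendsto_atTop_leadingCoeff_div_of_degree_eq P (X ^ n) (by rw [hXd]; exact h3)
    simp only [hX, leadingCoeff_X_pow, div_one] at h1
    have h4 := tendsto_nhds_unique h1 h
    rw [← h4, leadingCoeff, natDegree_eq_of_degree_eq_some h3]

variable {V : Type*} [NormedAddCommGroup V] [NormedSpace ℝ V]

/-- From polynomials on lines to linearity and to the parallelogram law. -/
theorem lq (φ : V → ℝ) (hc : Continuous φ) (hh : ∀ r : ℝ, 0 ≤ r → ∀ v, φ (r • v) = r * φ v)
    (hpol : ∀ a b : V, (∀ t : ℝ, a + t • b ≠ 0) → ∃ A B : ℝ[X], ∀ t : ℝ,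
      φ (a + t • b) - φ (-(a + t • b)) = A.eval t ∧
      φ (a + t • b) * φ (-(a + t • b)) = B.eval t) :
    (∀ a b, φ (a + b) - φ (-(a + b)) = (φ a - φ (-a)) + (φ b - φ (-b))) ∧
    (∀ a b, ∀ t : ℝ, φ (a + t • b) * φ (-(a + t • b)) = φ a * φ (-a)
      + t * (φ (a + b) * φ (-(a + b)) - φ a * φ (-a) - φ b * φ (-b)) + t ^ 2 * (φ b * φ (-b))) := by
  have hL : ∀ (r : ℝ) (v : V), φ (r • v) - φ (-(r • v)) = r * (φ v - φ (-v)) := by
    intro r v
    rcases le_total 0 r with hr | hr
    · rw [← smul_neg, hh r hr, hh r hr]; ring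
    · have h1 : r • v = (-r) • (-v) := by simp
      have h2 : -(r • v) = (-r) • v := by simp
      rw [h2, h1, hh (-r) (by linarith), hh (-r) (by linarith)]; ring
  have hq : ∀ (r : ℝ) (v : V), φ (r • v) * φ (-(r • v)) = r ^ 2 * (φ v * φ (-v)) := by
    intro r v
    rcases le_total 0 r with hr | hr
    · rw [← smul_neg, hh r hr, hh r hr]; ring
    · have h1 : r • v = (-r) • (-v) := by simp
      have h2 : -(r • v) = (-r) • v := by simp
      rw [h2, h1, hh (-r) (by linarith), hh (-r) (by linarith)]; ring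
  have hlim : ∀ a b : V, Tendsto (fun t : ℝ => b + t⁻¹ • a) atTop (𝓝 b) := by
    intro a b
    have h1 : Tendsto (fun t : ℝ => b + t⁻¹ • a) atTop (𝓝 (b + (0 : ℝ) • a)) :=
      tendsto_const_nhds.add (tendsto_inv_atTop_zero.smul tendsto_const_nhds)
    simpa using h1
  -- the independent case
  have ind : ∀ a b : V, (∀ t : ℝ, a + t • b ≠ 0) →
      (∀ t : ℝ, φ (a + t • b) - φ (-(a + t • b)) = (φ a - φ (-a)) + t * (φ b - φ (-b))) ∧
      ∃ β : ℝ, ∀ t : ℝ, φ (a + t • b) * φ (-(a + t • b)) = φ a * φ (-a) + t * β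
        + t ^ 2 * (φ b * φ (-b)) := by
    intro a b hab
    obtain ⟨A, B, hAB⟩ := hpol a b hab
    have e1 : ∀ t : ℝ, t ≠ 0 → a + t • b = t • (b + t⁻¹ • a) := by
      intro t ht
      rw [smul_add, smul_smul, mul_inv_cancel₀ ht, one_smul, add_comm]
    constructor
    · have hA : Tendsto (fun t : ℝ => A.eval t / t ^ 1) atTop (𝓝 (φ b - φ (-b))) := by
        have h1 : Tendsto (fun t : ℝ => φ (b + t⁻¹ • a) - φ (-(b + t⁻¹ • a))) atTop
            (𝓝 (φ b - φ (-b))) :=
          ((hc.tendsto b).comp (hlim a b)).sub ((hc.tendsto (-b)).comp (hlim a b).neg)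
        refine h1.congr' ?_
        filter_upwards [eventually_gt_atTop (0 : ℝ)] with t ht
        rw [← (hAB t).1, e1 t ht.ne', hL, pow_one, mul_div_assoc, mul_comm, div_mul_cancel₀]
        exact ht.ne'
      obtain ⟨hd, hcf⟩ := poly_growth A 1 _ hA
      have h0 : A.coeff 0 = φ a - φ (-a) := by
        have := (hAB 0).1
        rw [zero_smul, add_zero] at this
        rw [coeff_zero_eq_eval_zero, ← this]
      intro t
      rw [(hAB t).1, eval_eq_sum_range' (n := 2) (by omega), Finset.sum_range_succ,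
        Finset.sum_range_succ, Finset.sum_range_zero, h0, hcf]
      ring
    · have hB : Tendsto (fun t : ℝ => B.eval t / t ^ 2) atTop (𝓝 (φ b * φ (-b))) := by
        have h1 : Tendsto (fun t : ℝ => φ (b + t⁻¹ • a) * φ (-(b + t⁻¹ • a))) atTop
            (𝓝 (φ b * φ (-b))) :=
          ((hc.tendsto b).comp (hlim a b)).mul ((hc.tendsto (-b)).comp (hlim a b).neg)
        refine h1.congr' ?_
        filter_upwards [eventually_gt_atTop (0 : ℝ)] with t ht
        rw [← (hAB t).2, e1 t ht.ne', hq]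
        field_simp
      obtain ⟨hd, hcf⟩ := poly_growth B 2 _ hB
      have h0 : B.coeff 0 = φ a * φ (-a) := by
        have := (hAB 0).2
        rw [zero_smul, add_zero] at this
        rw [coeff_zero_eq_eval_zero, ← this]
      refine ⟨B.coeff 1, ?_⟩
      intro t
      rw [(hAB t).2, eval_eq_sum_range' (n := 3) (by omega), Finset.sum_range_succ,
        Finset.sum_range_succ, Finset.sum_range_succ, Finset.sum_range_zero, h0, hcf]
      ring
  constructor
  · intro a b
    by_cases hab : ∀ t : ℝ, a + t • b ≠ 0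
    · have := (ind a b hab).1 1
      simpa using this
    · push Not at hab
      obtain ⟨t, ht⟩ := hab
      have ha : a = (-t) • b := by
        rw [neg_smul]; exact eq_neg_of_add_eq_zero_left ht
      have h1 : a + b = (-t + 1) • b := by rw [ha, add_smul, one_smul]
      rw [h1, hL, ha, hL]
      ring
  · intro a b
    by_cases hab : ∀ t : ℝ, a + t • b ≠ 0
    · obtain ⟨β, hβ⟩ := (ind a b hab).2
      have h1 := hβ 1
      rw [one_smul] at h1
      intro t
      rw [hβ t, h1]
      ring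
    · push Not at hab
      obtain ⟨s, hs⟩ := hab
      have ha : a = (-s) • b := by
        rw [neg_smul]; exact eq_neg_of_add_eq_zero_left hs
      intro t
      have h1 : a + b = (-s + 1) • b := by rw [ha, add_smul, one_smul]
      have h2 : a + t • b = (-s + t) • b := by rw [ha, add_smul]
      rw [h1, h2, hq, hq, ha, hq]
      ring

end Pool.Agent.Ban.H41
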