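import Pool.Agent.Helper68_BAN.Stmt2
import Pool.Agent.Helper41_Ban.Lq
import Pool.Agent.Helper41_Ban.Glue

/-!
Squad BAN (S13205), module FINA: the final conversion.
-/

open Polynomial MeasureTheory Filter Topology
open scoped NNReal

namespace Pool.Agent.Ban.H41

open Pool.Agent.BAN

section

variable {V : Type} [NormedAddCommGroup V] [NormedSpace ℝ V] {φ : V → ℝ}

theorem gau0 (h : Gau φ) : φ 0 = 0 := by
  have := h.hom 0 0 le_rfl
  simpa using this

theorem gau_nonneg (h : Gau φ) (x : V) : 0 ≤ φ x := by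
  by_cases hx : x = 0
  · rw [hx, gau0 h]
  · exact (h.pos x hx).le

theorem gau_cont [FiniteDimensional ℝ V] (h : Gau φ) : Continuous φ := by
  have h1 : ConvexOn ℝ Set.univ φ := by
    refine ⟨convex_univ, ?_⟩
    intro x _ y _ a b ha hb _
    rw [smul_eq_mul, smul_eq_mul, ← h.hom a x ha, ← h.hom b y hb]
    exact h.sub _ _
  exact h1.locallyLipschitz.continuous

theorem gau_comp {W : Type} [NormedAddCommGroup W] [NormedSpace ℝ W] (h : Gau φ) (T : W ≃L[ℝ] V) :
    Gau (fun w => φ (T w)) := by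
  refine ⟨?_, ?_, ?_⟩
  · intro x y
    rw [map_add]
    exact h.sub _ _
  · intro t x ht
    rw [map_smul]
    exact h.hom t _ ht
  · intro x hx
    exact h.pos _ (fun h0 => hx (by simpa using h0))

end

theorem fina (hI : INVIP2Stmt) (hM : MAINAStmt) (hG : GAUFStmt) (hB : BODYStmt) :
    ∀ n : ℕ, 3 ≤ n →
    ∀ B : Set (EuclideanSpace ℝ (Fin n)),
      Convex ℝ B → IsCompact B →
      (0 : EuclideanSpace ℝ (Fin n)) ∈ interior B →
      (∀ H₁ H₂ : Submodule ℝ (EuclideanSpace ℝ (Fin n)),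
        Module.finrank ℝ H₁ = n - 1 → Module.finrank ℝ H₂ = n - 1 →
        ∃ f : EuclideanSpace ℝ (Fin n) ≃ᵃ[ℝ] EuclideanSpace ℝ (Fin n),
          f '' (B ∩ (H₁ : Set (EuclideanSpace ℝ (Fin n)))) =
            B ∩ (H₂ : Set (EuclideanSpace ℝ (Fin n)))) →
      ∃ g : EuclideanSpace ℝ (Fin n) ≃ᵃ[ℝ] EuclideanSpace ℝ (Fin n),
        B = g '' Metric.closedBall (0 : EuclideanSpace ℝ (Fin n)) 1 := by
  intro n hn B hconv hcomp h0 hsec
  obtain ⟨k, rfl⟩ : ∃ k, n = k + 1 := ⟨n - 1, by omega⟩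
  have hk : 2 ≤ k := by omega
  obtain ⟨φ, b, L, β, hφ, hL0, hβ, hbL, hbν, hA⟩ := hB k hk B hconv hcomp h0
    (fun H₁ H₂ h1 h2 => hsec H₁ H₂ (by rw [h1]; rfl) (by rw [h2]; rfl))
  obtain ⟨T, hT⟩ := hI (EuclideanSpace ℝ (Fin k)) φ hφ
  obtain ⟨hgB, hgB1, hgF⟩ := hG (EuclideanSpace ℝ (Fin (k + 1))) B hconv hcomp h0
  obtain ⟨L', hL'0, hgF1, hgF2⟩ := hgF β hβ
  set g : EuclideanSpace ℝ (Fin (k + 1)) → ℝ := gauge B with hg
  set φ' : EuclideanSpace ℝ (Fin k) → ℝ := fun v => φ (T v) with hφ'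
  set Φ : EuclideanSpace ℝ (Fin (k + 1)) → EuclideanSpace ℝ (Fin (k + 1)) → ℝ :=
    fun ν => gauge ((fun x => x - b ν) '' B) with hΦ
  have hgφ : Gau φ' := gau_comp hφ T
  have hΦg : ∀ ν, ‖ν‖ = 1 → Gau (Φ ν) := fun ν hν => (hgF1 (b ν) (hbν ν hν).2).1
  have hdat : DatR φ' Φ := by
    refine ⟨?_, hgφ, hΦg, ?_, hT, ?_⟩
    · rw [finrank_euclideanSpace_fin, finrank_euclideanSpace_fin]
    · refine ⟨L' * L, by positivity, ?_⟩
      intro ν ν' hν hν' x
      refine (hgF2 (b ν) (b ν') (hbν ν hν).2 (hbν ν' hν').2 x).trans ?_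
      have := hbL ν ν' hν hν'
      have h3 : L' * ‖b ν - b ν'‖ ≤ L' * L * ‖ν - ν'‖ := by
        rw [mul_assoc]
        exact mul_le_mul_of_nonneg_left this hL'0
      exact mul_le_mul_of_nonneg_right h3 (norm_nonneg _)
    · intro ν hν
      obtain ⟨A, hA1, hA2⟩ := hA ν hν
      refine ⟨A.comp (T : EuclideanSpace ℝ (Fin k) →L[ℝ] EuclideanSpace ℝ (Fin k)), ?_, ?_⟩
      · intro v
        exact hA2 (T v)
      · intro v
        exact hA1 (T v)
  have hpoly : ∀ a d : EuclideanSpace ℝ (Fin k), (∀ t : ℝ, a + t • d ≠ 0) →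
      ∃ P R : ℝ[X], ∀ t : ℝ, φ' (a + t • d) - φ' (-(a + t • d)) = P.eval t ∧
        φ' (a + t • d) * φ' (-(a + t • d)) = R.eval t := by
    intro a d had
    by_cases hd : d = 0
    · refine ⟨C (φ' a - φ' (-a)), C (φ' a * φ' (-a)), ?_⟩
      intro t
      simp [hd]
    · refine hM k hk g φ' Φ b L β hdat hgB hβ hbL ?_ a d ?_
      · intro ν hν
        exact ⟨(hbν ν hν).1, (hbν ν hν).2, (hgF1 (b ν) (hbν ν hν).2).2⟩
      · rw [LinearIndependent.pair_iff]
        intro s t hst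
        by_cases hs : s = 0
        · refine ⟨hs, ?_⟩
          rw [hs, zero_smul, zero_add] at hst
          exact (smul_eq_zero.1 hst).resolve_right hd
        · exfalso
          apply had (s⁻¹ * t)
          have h3 : s⁻¹ • (s • a + t • d) = 0 := by rw [hst, smul_zero]
          rwa [smul_add, smul_smul, smul_smul, inv_mul_cancel₀ hs, one_smul] at h3
  have hhom : ∀ r : ℝ, 0 ≤ r → ∀ v, φ' (r • v) = r * φ' v := fun r hr v => hgφ.hom r v hr
  obtain ⟨hl, hq⟩ := lq φ' (gau_cont hgφ) hhom hpoly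
  have hLs : ∀ (t : ℝ) a, φ' (t • a) - φ' (-(t • a)) = t * (φ' a - φ' (-a)) := by
    intro t a
    rcases le_total 0 t with ht | ht
    · rw [← smul_neg, hhom t ht, hhom t ht]; ring
    · have h1 : t • a = (-t) • (-a) := by simp
      have h2 : -(t • a) = (-t) • a := by simp
      rw [h2, h1, hhom (-t) (by linarith), hhom (-t) (by linarith)]; ring
  have hglue := glue (k + 1) hn φ' g (gau_nonneg hgφ) hl hLs (fun a b t => hq a b t)
    (gau_nonneg hgB) hgB.pos (fun r hr x => hgB.hom r x hr)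
  obtain ⟨S, c, hSc⟩ := hglue (by
    intro ν hν
    have hν1 : ‖(‖ν‖⁻¹ • ν : EuclideanSpace ℝ (Fin (k + 1)))‖ = 1 := by
      rw [norm_smul, norm_inv, norm_norm, inv_mul_cancel₀ (norm_ne_zero_iff.2 hν)]
    set ν1 : EuclideanSpace ℝ (Fin (k + 1)) := ‖ν‖⁻¹ • ν with hν1d
    obtain ⟨A, hA1, hA2⟩ := hdat.non ν1 hν1
    have hinj : Function.Injective (A : EuclideanSpace ℝ (Fin k) →ₗ[ℝ] EuclideanSpace ℝ (Fin (k + 1))) := by
      rw [← LinearMap.ker_eq_bot, LinearMap.ker_eq_bot']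
      intro v hv
      by_contra hne
      have h3 := hgφ.pos v hne
      have h4 : A v = 0 := hv
      rw [← hA1 v, h4, gau0 (hΦg ν1 hν1)] at h3
      exact lt_irrefl _ h3
    have hsurj : ∀ x, inner ℝ ν1 x = 0 → ∃ v, A v = x := by
      have h5 : LinearMap.range (A : EuclideanSpace ℝ (Fin k) →ₗ[ℝ] EuclideanSpace ℝ (Fin (k + 1)))
          = (Submodule.span ℝ {ν1})ᗮ := by
        apply Submodule.eq_of_le_of_finrank_eq
        · rintro _ ⟨v, rfl⟩
          rw [Submodule.mem_orthogonal_singleton_iff_inner_right]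
          exact hA2 v
        · rw [LinearMap.finrank_range_of_inj hinj, finrank_euclideanSpace_fin]
          have h6 := Submodule.finrank_add_finrank_orthogonal (Submodule.span ℝ {ν1})
          have h7 : ν1 ≠ 0 := by
            intro h
            rw [h, norm_zero] at hν1
            exact zero_ne_one hν1
          rw [finrank_span_singleton h7, finrank_euclideanSpace_fin] at h6
          omega
      intro x hx
      have h8 : x ∈ LinearMap.range
          (A : EuclideanSpace ℝ (Fin k) →ₗ[ℝ] EuclideanSpace ℝ (Fin (k + 1))) := by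
        rw [h5, Submodule.mem_orthogonal_singleton_iff_inner_right]
        exact hx
      exact h8
    obtain ⟨β0, hβ0⟩ := hsurj (b ν1) (hbν ν1 hν1).1
    obtain ⟨hb1, hb2⟩ := bdry φ' g (gau_cont hgφ) hhom (fun r hr x => hgB.hom r x hr)
      (gau_nonneg hgB) hgB.pos
      (A : EuclideanSpace ℝ (Fin k) →ₗ[ℝ] EuclideanSpace ℝ (Fin (k + 1))) hinj β0 (by
        intro v
        have h9 := (hgF1 (b ν1) (hbν ν1 hν1).2).2 (A v)
        have h10 : gauge ((fun x => x - b ν1) '' B) (A v) = φ' v := hA1 v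
        rw [h10] at h9
        rw [h9]
        have h11 : (A : EuclideanSpace ℝ (Fin k) →ₗ[ℝ] EuclideanSpace ℝ (Fin (k + 1))) v
            + (A : EuclideanSpace ℝ (Fin k) →ₗ[ℝ] EuclideanSpace ℝ (Fin (k + 1))) β0
            = b ν1 + A v := by
          have : (A : EuclideanSpace ℝ (Fin k) →ₗ[ℝ] EuclideanSpace ℝ (Fin (k + 1))) β0 = b ν1 := hβ0
          rw [this]
          exact add_comm _ _
        rw [h11])
    refine ⟨(A : EuclideanSpace ℝ (Fin k) →ₗ[ℝ] EuclideanSpace ℝ (Fin (k + 1))), β0, ?_, hinj,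
      hb1, hb2⟩
    intro x hx
    apply hsurj x
    rw [hν1d, real_inner_smul_left, hx, mul_zero])
  refine ⟨S.toAffineEquiv.trans (AffineEquiv.constVAdd ℝ (EuclideanSpace ℝ (Fin (k + 1))) c), ?_⟩
  ext x
  rw [← hgB1 x, hSc x]
  constructor
  · rintro ⟨y, hy, rfl⟩
    refine ⟨y, by simpa using hy, ?_⟩
    simp [add_comm]
  · rintro ⟨y, hy, rfl⟩
    refine ⟨y, by simpa using hy, ?_⟩
    simp [add_comm]

end Pool.Agent.Ban.H41
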