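import Pool.Agent.Helper41_Ban.St
import Pool.Agent.Helper12_UBI.Root

/-!
Approximate units and extraction of roots.
-/

open Polynomial

namespace H41Ban

open H58UB H12UBI

section dvr

variable {V : Type*} [CommRing V] [IsDomain V] [IsDiscreteValuationRing V] {g : ℕ} {h r : V[X]}
variable {π : V} {l : ℕ} {S : Shape g h r} {r' : V[X]}

theorem Ban.lemZ0 (H : Ban π l S r') (m : ℕ) : ∀ z : CR V h r, Ge 0 (e1 S z) →
    D (π ^ m) 1 (e0 S z) → ∃ δ, z = cst h r (π ^ m) * δ := by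
  have hπ := H.irr
  have hmon : (h.map (rs V)).Monic := S.monic.map _
  induction m with
  | zero => intro z _ _; exact ⟨z, by rw [pow_zero, map_one, one_mul]⟩
  | succ m ih =>
    intro z h1 h0
    have h2 : Ge 1 (lmap (rs V) (e0 S z)) := by
      refine ge_lmap_of_D hπ ?_
      exact h0.of_dvd (Dvd.intro_left (π ^ m) (by rw [pow_succ]))
    rw [H.e0_red] at h2
    have hre : z.re.map (rs V) = 0 := eq_zero_of_ge_one h2
    have h3 : Ge 0 (lmap (rs V) (e1 S z)) := ge_lmap h1 _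
    rw [H.e1_red, hre, zero_sub] at h3
    have him : z.im.map (rs V) = 0 := by
      by_contra hne
      have h3' : Ge (-((0 : ℕ) : ℤ)) (ex (IsLocalRing.ResidueField V)
          (-(h.map (rs V) * z.im.map (rs V)))) := h3.mono (by simp)
      have h4 := natDegree_le_of_ge h3'
      rw [natDegree_neg, hmon.natDegree_mul' hne, S.monic.natDegree_map, S.deg] at h4
      omega
    have h5 : cmap (IsLocalRing.residue V) h r z = 0 :=
      QuadraticAlgebra.ext hre him
    obtain ⟨z', rfl⟩ := exists_of_cmap_zero hπ h5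
    have hπ0 : π ≠ 0 := hπ.ne_zero
    rw [map_mul, e1_cst] at h1
    rw [map_mul, e0_cst, pow_succ, mul_comm (π ^ m) π] at h0
    obtain ⟨δ, hδ⟩ := ih z' (ge_of_C_mul hπ0 h1) (D.of_C_mul hπ0 h0)
    exact ⟨δ, by rw [hδ, pow_succ, mul_comm (π ^ m) π, map_mul, mul_assoc]⟩

/-- approximate units of index `(g+1) k` and level `t` -/
structure LevJ (H : Ban π l S r') (t k : ℕ) (w : CR V h r) (s : LaurentSeries V) : Prop where
  fn : Fn S ((g + 1) * k) w
  e : e0 S w = HahnSeries.C (π ^ (l * k)) * s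
  d : D (π ^ t) (((g + 1) * k : ℕ) : ℤ) s
  ne0 : lmap (rs V) s ≠ 0
  ne1 : lmap (rs V) (e1 S w) ≠ 0

variable {H : Ban π l S r'} {t k : ℕ} {w : CR V h r} {s : LaurentSeries V}

theorem LevJ.ge (hw : LevJ H t k w s) : Ge (-(((g + 1) * k : ℕ) : ℤ)) s := by
  refine ge_of_C_mul (pow_ne_zero (l * k) H.irr.ne_zero) ?_
  rw [← hw.e]
  exact hw.fn.1

theorem LevJ.mono (hw : LevJ H t k w s) {t' : ℕ} (ht : t' ≤ t) : LevJ H t' k w s :=
  ⟨hw.fn, hw.e, hw.d.of_dvd (pow_dvd_pow π ht), hw.ne0, hw.ne1⟩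

theorem LevJ.ge_red (hw : LevJ H t k w s) (ht : 1 ≤ t) :
    Ge (((g + 1) * k : ℕ) : ℤ) (lmap (rs V) s) := by
  refine ge_lmap_of_D H.irr ?_
  exact hw.d.of_dvd (dvd_pow_self π (by omega))

theorem LevJ.cst_red (hw : LevJ H t k w s) (ht : 1 ≤ t) :
    ∃ c : IsLocalRing.ResidueField V, c ≠ 0 ∧
      lmap (rs V) s * lmap (rs V) (e1 S w) = HahnSeries.C c := by
  obtain ⟨γ, Q, hγ, hQ, hdvd⟩ := H.conv hw.e
  have hmon : (h.map (rs V)).Monic := S.monic.map _
  have hdg : (h.map (rs V) ^ k).natDegree = (g + 1) * k := by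
    rw [hmon.natDegree_pow, S.monic.natDegree_map, S.deg]; ring
  have h2 : Ge (-(((g + 1) * k : ℕ) : ℤ)) (ex _ (h.map (rs V) ^ k)) := ge_ex (le_of_eq hdg)
  have h3 := (hw.ge_red ht).mul h2
  rw [hQ] at h3
  have hQc : Q = C (Q.coeff 0) := eq_C_of_ge_zero (h3.mono (by omega))
  have hexh : ex (IsLocalRing.ResidueField V) (h.map (rs V) ^ k) ≠ 0 := by
    intro h0
    exact (hmon.pow k).ne_zero (ex_injective (h0.trans (map_zero _).symm))
  have hQ0 : Q ≠ 0 := by
    rintro rfl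
    rw [map_zero] at hQ
    rcases mul_eq_zero.1 hQ with h | h
    · exact hw.ne0 h
    · exact hexh h
  have hq : Q.coeff 0 ≠ 0 := by
    intro h0
    rw [h0, map_zero] at hQc
    exact hQ0 hQc
  have hneg : (-h.map (rs V)) ^ k = (-1) ^ k * h.map (rs V) ^ k := by rw [← mul_pow]; ring
  have hγ0 : γ ≠ 0 := by
    rintro rfl
    apply hw.ne1
    rw [hγ, mul_zero, map_zero]
  have h4 : Ge (-(((g + 1) * k : ℕ) : ℤ)) (lmap (rs V) (e1 S w)) := ge_lmap hw.fn.2 _
  rw [hγ] at h4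
  have h5 := natDegree_le_of_ge h4
  have h6 : ((-h.map (rs V)) ^ k * γ).natDegree = (g + 1) * k + γ.natDegree := by
    have h7 : (-h.map (rs V)) ^ k * γ = h.map (rs V) ^ k * (C ((-1) ^ k) * γ) := by
      rw [hneg, map_pow, map_neg, map_one]; ring
    have h8 : ((-1 : IsLocalRing.ResidueField V) ^ k) ≠ 0 := pow_ne_zero _ (by simp)
    rw [h7, (hmon.pow k).natDegree_mul' (mul_ne_zero (C_ne_zero.2 h8) hγ0), hdg,
      natDegree_C_mul h8]
  rw [h6] at h5
  have hγc : γ = C (γ.coeff 0) := eq_C_of_natDegree_le_zero (by omega)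
  have hg : γ.coeff 0 ≠ 0 := by
    intro h0
    rw [h0, map_zero] at hγc
    exact hγ0 hγc
  refine ⟨(-1) ^ k * γ.coeff 0 * Q.coeff 0,
    mul_ne_zero (mul_ne_zero (pow_ne_zero _ (by simp)) hg) hq, ?_⟩
  rw [hγ, hneg]
  have h9 : ex (IsLocalRing.ResidueField V) Q = HahnSeries.C (Q.coeff 0) := by
    conv_lhs => rw [hQc]
    rw [ex_C]
  have h10 : ex (IsLocalRing.ResidueField V) γ = HahnSeries.C (γ.coeff 0) := by
    conv_lhs => rw [hγc]
    rw [ex_C]
  have h11 : ex (IsLocalRing.ResidueField V) ((-1) ^ k) = HahnSeries.C ((-1) ^ k) := by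
    rw [← ex_C]
    congr 1
    simp
  rw [map_mul, map_mul (ex (IsLocalRing.ResidueField V)) ((-1) ^ k), h10, h11,
    map_mul HahnSeries.C, map_mul HahnSeries.C, ← h9, ← hQ]
  ring

/-- the level of a `p`-th power -/
theorem LevJ.pow {p : ℕ} (hp : p.Prime) {e : ℕ} {ε : V} (hpe : (p : V) = ε * π ^ e)
    (hw : LevJ H t k w s) {t' : ℕ} (h1 : t' ≤ t + e) (h2 : t' ≤ p * t) :
    LevJ H t' (p * k) (w ^ p) (s ^ p) := by
  have hnk : p * ((g + 1) * k) = (g + 1) * (p * k) := by ring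
  refine ⟨?_, ?_, ?_, ?_, ?_⟩
  · have := hw.fn.pow p
    rwa [hnk] at this
  · rw [map_pow, hw.e, mul_pow, ← map_pow, ← pow_mul]
    congr 3
    ring
  · obtain ⟨x, b, hxb, hx, hb⟩ := hw.d.split hw.ge
    rw [hxb]
    obtain ⟨s', hs'⟩ := exists_add_pow_prime_eq hp x (HahnSeries.C (π ^ t) * b)
    rw [hs']
    refine (D.add ?_ ?_).add ?_
    · refine D.of_ge ((hx.pow p).mono (le_of_eq ?_))
      push_cast; ring
    · rw [mul_pow, ← map_pow, ← pow_mul, mul_comm t p]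
      exact D.C_mul.of_dvd (pow_dvd_pow π h2)
    · have h3 : (p : LaurentSeries V) = HahnSeries.C (p : V) := by simp
      rw [h3, hpe]
      have h4 : HahnSeries.C (ε * π ^ e) * x * (HahnSeries.C (π ^ t) * b) * s' =
          HahnSeries.C (π ^ (t + e)) * (HahnSeries.C ε * (x * b * s')) := by
        rw [map_mul, pow_add, map_mul]; ring
      rw [h4]
      exact D.C_mul.of_dvd (pow_dvd_pow π h1)
  · rw [map_pow]
    exact pow_ne_zero p hw.ne0
  · rw [map_pow, map_pow]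
    exact pow_ne_zero p hw.ne1

/-- a level-`t` element for every `t` gives an exact unit -/
theorem U_of_levJ (hw : ∀ t, ∃ w s, LevJ H t k w s) : U S ((g + 1) * k) := by
  refine U_of_lev H.irr fun t => ?_
  obtain ⟨w, s, hw⟩ := hw t
  refine ⟨w, hw.fn, ?_, ?_⟩
  · intro j hj
    rw [hw.e, coeff_C_mul']
    exact dvd_mul_of_dvd_right (hw.d j hj) _
  · intro h0
    apply hw.ne1
    have h1 := lmap_e1 S (rs V) w
    rw [h1, h0, map_zero]

end dvr

end H41Ban
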