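import Pool.Agent.Helper41_Ban.Dig

/-!
The structure of a unit of the generic fibre.
-/

open Polynomial

namespace H41Ban

open H58UB H12UBI

section dvr

variable {V : Type*} [CommRing V] [IsDomain V] [IsDiscreteValuationRing V] {g : ℕ} {h r : V[X]}
variable {π : V} {l : ℕ} {S : Shape g h r} {r' : V[X]}

theorem hC_eq_zero {A : Type*} [CommRing A] {a : A} : (HahnSeries.C a : LaurentSeries A) = 0 ↔ a = 0 := by
  constructor
  · intro h
    have h1 := congrArg (fun s => s.coeff 0) h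
    simpa using h1
  · rintro rfl
    exact map_zero _

theorem Ban.hb_not_unit (H : Ban π l S r') : ¬ IsUnit (h.map (rs V)) := by
  intro hu
  have h1 := natDegree_eq_zero_of_isUnit hu
  rw [S.monic.natDegree_map, S.deg] at h1
  omega

theorem Ban.rb_ne_zero (H : Ban π l S r') : r'.map (rs V) ≠ 0 := by
  intro h0
  have h1 := H.cop
  rw [h0, isCoprime_zero_right] at h1
  exact H.hb_not_unit h1

theorem Ban.r_ne_zero (H : Ban π l S r') : r ≠ 0 := by
  rw [H.eq]
  refine mul_ne_zero (C_ne_zero.2 (pow_ne_zero l H.irr.ne_zero)) ?_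
  rintro rfl
  exact H.rb_ne_zero (Polynomial.map_zero _)

theorem norm_ne_zero' (S : Shape g h r) (hr : r ≠ 0) {u : CR V h r} (hu : u ≠ 0) :
    u.norm ≠ 0 := by
  intro h0
  set K := FractionRing V
  have hinj : Function.Injective (algebraMap V K) := IsFractionRing.injective V K
  have h1 : (cmap (algebraMap V K) h r u).norm = 0 := by
    rw [norm_cmap, h0, Polynomial.map_zero]
  refine norm_ne_zero (smap S (algebraMap V K)) ?_ ?_ h1
  · exact (Polynomial.map_ne_zero_iff hinj).2 hr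
  · intro h2
    apply hu
    apply cmap_injective (algebraMap V K) hinj
    rw [h2, map_zero]

theorem Ban.struct (H : Ban π l S r') {N : ℕ} (hN : 0 < N) (hU : U S N) :
    ∃ (K : ℕ) (u : CR V h r) (su : LaurentSeries V) (ν : V), N = (g + 1) * K ∧
      e0 S u = HahnSeries.C (π ^ (l * K)) * su ∧ Ge (N : ℤ) su ∧ Ge (-(N : ℤ)) (e1 S u) ∧
      IsUnit ν ∧ su * e1 S u = HahnSeries.C ν ∧
      ∃ c : IsLocalRing.ResidueField V, c ≠ 0 ∧ h.map (rs V) ∣ r'.map (rs V) ^ K - C c := by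
  have hπ := H.irr
  have hl := H.pos
  obtain ⟨u, hu, hu0, hu1⟩ := exists_primitive hπ hU
  have hu' : u ≠ 0 := by
    rintro rfl
    exact hu (map_zero _)
  have hnorm : ∃ ν₀ : V, u.norm = C ν₀ := by
    refine ⟨_, eq_C_of_ge_zero ?_⟩
    rw [← e0_mul_e1 S]
    exact (hu0.mul hu1).mono (by omega)
  obtain ⟨ν₀, hν₀⟩ := hnorm
  have hν₀0 : ν₀ ≠ 0 := by
    rintro rfl
    exact norm_ne_zero' S H.r_ne_zero hu' (by rw [hν₀, map_zero])
  have hee : e0 S u * e1 S u = HahnSeries.C ν₀ := by rw [e0_mul_e1, hν₀, ex_C]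
  have hC0 : (HahnSeries.C ν₀ : LaurentSeries V) ≠ 0 := by
    rw [Ne, hC_eq_zero]
    exact hν₀0
  have he0 : e0 S u ≠ 0 := by
    intro h0
    rw [h0, zero_mul] at hee
    exact hC0 hee.symm
  have he1 : e1 S u ≠ 0 := by
    intro h0
    rw [h0, mul_zero] at hee
    exact hC0 hee.symm
  obtain ⟨m₀, t₀, ht₀, ht₀'⟩ := exists_content hπ he0
  obtain ⟨m₁, t₁, ht₁, ht₁'⟩ := exists_content hπ he1
  -- the first expansion reduces to zero
  have hred0 : lmap (rs V) (e0 S u) = 0 := by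
    have h1 : Ge (N : ℤ) (lmap (rs V) (e0 S u)) := ge_lmap hu0 _
    rw [H.e0_red] at h1 ⊢
    rw [eq_zero_of_ge_one (h1.mono (by omega)), map_zero]
  have hm₀ : 1 ≤ m₀ := by
    by_contra hlt
    have h0 : m₀ = 0 := by omega
    rw [h0, pow_zero, map_one, one_mul] at ht₀
    rw [ht₀] at hred0
    exact ht₀' hred0
  have hm₁ : m₁ = 0 := by
    by_contra hne
    obtain ⟨i, rfl⟩ : ∃ i, m₁ = i + 1 := ⟨m₁ - 1, by omega⟩
    obtain ⟨j, rfl⟩ : ∃ j, m₀ = j + 1 := ⟨m₀ - 1, by omega⟩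
    obtain ⟨v, hv⟩ := dvd_of_exp S (a := π) (v := u) (s := HahnSeries.C (π ^ j) * t₀)
      (t := HahnSeries.C (π ^ i) * t₁)
      (by rw [ht₀, pow_succ, map_mul]; ring) (by rw [ht₁, pow_succ, map_mul]; ring)
    apply hu
    rw [hv, map_mul, cmap_cst, (residue_eq_zero_iff' hπ π).2 dvd_rfl, map_zero, zero_mul]
  rw [hm₁, pow_zero, map_one, one_mul] at ht₁
  have hne : lmap (rs V) (t₀ * t₁) ≠ 0 := by
    rw [map_mul]
    exact mul_ne_zero ht₀' ht₁'
  obtain ⟨a, u₀, ha⟩ := IsDiscreteValuationRing.eq_unit_mul_pow_irreducible hν₀0 hπ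
  have hee' : HahnSeries.C (π ^ m₀) * (t₀ * t₁) = HahnSeries.C (π ^ a) * HahnSeries.C (u₀ : V) := by
    rw [← map_mul, mul_comm (π ^ a), ← ha, ← hee, ht₀, ht₁]
    ring
  have hma : m₀ = a := by
    rcases lt_trichotomy m₀ a with h1 | h1 | h1
    · exfalso
      obtain ⟨i, rfl⟩ : ∃ i, a = m₀ + (i + 1) := ⟨a - m₀ - 1, by omega⟩
      rw [pow_add, map_mul, mul_assoc] at hee'
      have h2 := C_cancel (pow_ne_zero m₀ hπ.ne_zero) hee'
      apply hne
      rw [h2, lmap_eq_zero_of_dvd hπ (by omega)]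
    · exact h1
    · exfalso
      obtain ⟨i, rfl⟩ : ∃ i, m₀ = a + (i + 1) := ⟨m₀ - a - 1, by omega⟩
      rw [pow_add, map_mul, mul_assoc] at hee'
      have h2 := C_cancel (pow_ne_zero a hπ.ne_zero) hee'
      have h3 := congrArg (lmap (rs V)) h2
      rw [lmap_eq_zero_of_dvd hπ (by omega), lmap_C] at h3
      have h4 : IsUnit (rs V (u₀ : V)) := u₀.isUnit.map _
      exact h4.ne_zero (hC_eq_zero.1 h3.symm)
  subst hma
  have htt : t₀ * t₁ = HahnSeries.C (u₀ : V) := C_cancel (pow_ne_zero m₀ hπ.ne_zero) hee'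
  have htt' : t₀ * e1 S u = HahnSeries.C (u₀ : V) := by rw [ht₁]; exact htt
  set K := m₀ / l with hK
  set a' := m₀ % l with ha'
  have hma' : m₀ = l * K + a' := (Nat.div_add_mod m₀ l).symm
  have ha'l : a' < l := Nat.mod_lt _ (by omega)
  have hw : e0 S u = HahnSeries.C (π ^ (l * K)) * (HahnSeries.C (π ^ a') * t₀) := by
    rw [ht₀, ← mul_assoc, ← map_mul, ← pow_add, ← hma']
  have ha'0 : a' = 0 := by
    by_contra hne'
    obtain ⟨z, hz0, hz1⟩ := H.tmap hw
    have hre : ∃ A' : V[X], z.re = C (π ^ a') * A' := by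
      refine ex_dvd (t := t₀ * (-(ex V h + y0 S)) ^ K -
        HahnSeries.C (π ^ (l - a')) * (ex V z.im * H.eta)) ?_
      have h1 : ex V z.re = e0 S z - ex V z.im * y0 S := by rw [e0_apply]; ring
      have h2 : (HahnSeries.C (π ^ l) : LaurentSeries V) =
          HahnSeries.C (π ^ a') * HahnSeries.C (π ^ (l - a')) := by
        rw [← map_mul, ← pow_add]
        congr 3
        omega
      rw [h1, hz0, H.y0_eta, h2]
      ring
    obtain ⟨A', hA'⟩ := hre
    have hnz : z.norm = C (π ^ a') * (C (u₀ : V) * (-r') ^ K) := by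
      apply ex_injective
      rw [← e0_mul_e1 S, hz0, hz1, map_mul, map_mul, map_pow (ex V) (-r'), map_neg (ex V) r',
        ex_C, ex_C, ← H.eta_mul, ← htt']
      have h0 : (-(ex V h + y0 S)) ^ K * H.eta ^ K = (-(H.eta * (ex V h + y0 S))) ^ K := by
        rw [← mul_pow]; congr 1; ring
      linear_combination (HahnSeries.C (π ^ a') * t₀ * e1 S u) * h0
    rw [QuadraticAlgebra.norm_def, hA'] at hnz
    have h3 : C (π ^ l) = (C (π ^ a') * C (π ^ (l - a')) : V[X]) := by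
      rw [← map_mul, ← pow_add]
      congr 2
      omega
    have h4 : C (π ^ a') * (C (π ^ a') * A' * A' - h * A' * z.im -
        C (π ^ (l - a')) * r' * z.im * z.im) = C (π ^ a') * (C (u₀ : V) * (-r') ^ K) := by
      rw [← hnz]
      have h5 : r = C (π ^ a') * C (π ^ (l - a')) * r' := by rw [← h3]; exact H.eq
      linear_combination (z.im * z.im) * h5
    have h6 := mul_left_cancel₀ (C_ne_zero.2 (pow_ne_zero a' hπ.ne_zero)) h4
    have h7 := congrArg (Polynomial.map (rs V)) h6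
    simp only [Polynomial.map_sub, Polynomial.map_mul, Polynomial.map_C, Polynomial.map_pow,
      Polynomial.map_neg] at h7
    have h8 : (rs V) (π ^ a') = 0 := rs_pow_zero hπ (by omega)
    have h9 : (rs V) (π ^ (l - a')) = 0 := rs_pow_zero hπ (by omega)
    rw [h8, h9, map_zero] at h7
    have h10 : h.map (rs V) ∣ C ((rs V) (u₀ : V)) * (-r'.map (rs V)) ^ K :=
      ⟨-(A'.map (rs V) * z.im.map (rs V)), by rw [← h7]; ring⟩
    have h11 : IsUnit (C ((rs V) (u₀ : V)) : (IsLocalRing.ResidueField V)[X]) :=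
      (u₀.isUnit.map (rs V)).map C
    have h12 : h.map (rs V) ∣ (-r'.map (rs V)) ^ K := (h11.dvd_mul_left).1 h10
    have h13 : IsCoprime (h.map (rs V)) ((-r'.map (rs V)) ^ K) := (H.cop.neg_right).pow_right
    exact H.hb_not_unit (h13.isUnit_of_dvd' dvd_rfl h12)
  rw [ha'0, pow_zero, map_one, one_mul] at hw
  obtain ⟨γ, Q, hγ, hQ, hdvd⟩ := H.conv hw
  have hmon : (h.map (rs V)).Monic := S.monic.map _
  have hprod : Q * ((-h.map (rs V)) ^ K * γ) = C (rs V (u₀ : V)) * h.map (rs V) ^ K := by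
    apply ex_injective
    rw [map_mul, ← hQ, ← hγ, map_mul, ex_C, ← lmap_C, ← htt', map_mul]
    ring
  have hQγ : (-1) ^ K * Q * γ = C (rs V (u₀ : V)) := by
    have h1 : h.map (rs V) ^ K * ((-1) ^ K * Q * γ) =
        h.map (rs V) ^ K * C (rs V (u₀ : V)) := by
      have h2 : (-h.map (rs V)) ^ K = (-1) ^ K * h.map (rs V) ^ K := by rw [← mul_pow]; ring
      rw [h2] at hprod
      linear_combination hprod
    exact mul_left_cancel₀ (pow_ne_zero K hmon.ne_zero) h1
  have hu₀ : IsUnit (C (rs V (u₀ : V)) : (IsLocalRing.ResidueField V)[X]) :=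
    (u₀.isUnit.map (rs V)).map C
  have hγu : IsUnit γ := by
    rw [← hQγ] at hu₀
    exact isUnit_of_mul_isUnit_right hu₀
  have hQu : IsUnit Q := by
    rw [← hQγ] at hu₀
    exact isUnit_of_mul_isUnit_right (isUnit_of_mul_isUnit_left hu₀)
  obtain ⟨γ₀, hγ₀, rfl⟩ := Polynomial.isUnit_iff.1 hγu
  obtain ⟨q₀, hq₀, rfl⟩ := Polynomial.isUnit_iff.1 hQu
  have hst0 : Ge (N : ℤ) t₀ := by
    refine ge_of_C_mul (pow_ne_zero (l * K) hπ.ne_zero) ?_
    rw [← hw]
    exact hu0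
  have hle1 : (g + 1) * K ≤ N := by
    have h1 : Ge (-(N : ℤ)) (lmap (rs V) (e1 S u)) := ge_lmap hu1 _
    rw [hγ] at h1
    have h2 := natDegree_le_of_ge h1
    have h3 : ((-h.map (rs V)) ^ K * C γ₀).natDegree = (g + 1) * K := by
      have h4 : (-h.map (rs V)) ^ K * C γ₀ = C ((-1) ^ K * γ₀) * h.map (rs V) ^ K := by
        have h2 : (-h.map (rs V)) ^ K = (-1) ^ K * h.map (rs V) ^ K := by rw [← mul_pow]; ring
        rw [h2, map_mul, map_pow, map_neg, map_one]
        ring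
      rw [h4, natDegree_C_mul (mul_ne_zero (pow_ne_zero _ (by simp)) hγ₀.ne_zero),
        hmon.natDegree_pow, S.monic.natDegree_map, S.deg]
      ring
    rwa [h3] at h2
  have hle2 : N ≤ (g + 1) * K := by
    by_contra hlt
    push Not at hlt
    have h1 : Ge (N : ℤ) (lmap (rs V) t₀) := ge_lmap hst0 _
    have h2 : Ge (-(((g + 1) * K : ℕ) : ℤ)) (ex _ (h.map (rs V) ^ K)) := by
      refine ge_ex ?_
      rw [hmon.natDegree_pow, S.monic.natDegree_map, S.deg]
      exact le_of_eq (by ring)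
    have h3 := h1.mul h2
    rw [hQ] at h3
    have h4 := h3 0 (by omega)
    have h5 := coeff_ex_neg (C q₀) 0
    rw [coeff_C_zero] at h5
    have h6 : (ex (IsLocalRing.ResidueField V) (C q₀)).coeff 0 = q₀ := by simpa using h5
    rw [h6] at h4
    exact hq₀.ne_zero h4
  have hNK : N = (g + 1) * K := le_antisymm hle2 hle1
  refine ⟨K, u, t₀, u₀, hNK, hw, hst0, hu1, u₀.isUnit, htt', q₀ / γ₀,
    div_ne_zero hq₀.ne_zero hγ₀.ne_zero, ?_⟩
  obtain ⟨T, hT⟩ := hdvd
  refine ⟨-(C γ₀⁻¹ * T), ?_⟩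
  have h1 : C γ₀⁻¹ * C γ₀ = (1 : (IsLocalRing.ResidueField V)[X]) := by
    rw [← map_mul, inv_mul_cancel₀ hγ₀.ne_zero, map_one]
  have h2 : C (q₀ / γ₀) = C γ₀⁻¹ * C q₀ := by
    rw [← map_mul, div_eq_inv_mul]
  rw [h2]
  linear_combination (-(C γ₀⁻¹)) * hT - (r'.map (rs V) ^ K) * h1

end dvr

end H41Ban
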