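import Pool.Agent.Helper41_Ban.Lv

/-!
One step of the extraction of a root.
-/

open Polynomial

namespace H41Ban

open H58UB H12UBI

section dvr

variable {V : Type*} [CommRing V] [IsDomain V] [IsDiscreteValuationRing V] {g : ℕ} {h r : V[X]}
variable {π : V} {l : ℕ} {S : Shape g h r} {r' : V[X]}

theorem step (H : Ban π l S r') (hr' : r'.natDegree ≤ g) {p t e k : ℕ} (hp : p.Prime) {ε : V}
    (hε : IsUnit ε) (hle : (p : V) = ε * π ^ e) (hte : t + e < p * t) (hk : 1 ≤ k)
    {u : CR V h r} {su : LaurentSeries V} {ν : V}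
    (hu : e0 S u = HahnSeries.C (π ^ (l * (p * k))) * su)
    (hsu : Ge ((p * ((g + 1) * k) : ℕ) : ℤ) su)
    (hu1 : Ge (-((p * ((g + 1) * k) : ℕ) : ℤ)) (e1 S u)) (hν : IsUnit ν)
    (hsν : su * e1 S u = HahnSeries.C ν)
    {w : CR V h r} {s : LaurentSeries V} (hw : LevJ H t k w s) :
    ∃ w' s', LevJ H (t + 1) k w' s' := by
  have hπ := H.irr
  have ht : t ≠ 0 := by rintro rfl; simp at hte
  have ht1 : 1 ≤ t := by omega
  set n := (g + 1) * k with hn
  have hfn2 : Ge (-(n : ℤ)) (e1 S w) := hw.fn.2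
  obtain ⟨x, b, hxb, hx, hb⟩ := hw.d.split hw.ge
  -- expansion of the `p`-th power
  obtain ⟨s₁, hs₁⟩ := add_pow_prime hp x (HahnSeries.C (π ^ t) * b)
  obtain ⟨m, hm⟩ : ∃ m, p * t = t + e + 1 + m := ⟨p * t - (t + e + 1), by omega⟩
  obtain ⟨t₁, ht₁⟩ : ∃ t₁, t = t₁ + 1 := ⟨t - 1, by omega⟩
  have hlC : (p : LaurentSeries V) = HahnSeries.C ε * HahnSeries.C π ^ e := by
    rw [← map_pow, ← map_mul, ← hle]; simp
  set P : LaurentSeries V := HahnSeries.C π with hP
  have hPt : ∀ i : ℕ, HahnSeries.C (π ^ i) = P ^ i := fun i => by rw [map_pow]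
  have hpow : s ^ p = x ^ p + P ^ (t + e) * (HahnSeries.C ε * (x ^ (p - 1) * b) +
      P * (P ^ m * b ^ p + HahnSeries.C ε * P ^ t₁ * b ^ 2 * s₁)) := by
    have h2 : (P ^ t) ^ 2 = P ^ (t + t₁ + 1) := by
      rw [← pow_mul]; congr 1; omega
    have h3 : (P ^ t) ^ p = P ^ (t + e + 1 + m) := by
      rw [← pow_mul, mul_comm t p, hm]
    rw [hxb, hs₁, hlC, hPt, mul_pow (P ^ t) b p, mul_pow (P ^ t) b 2, h2, h3]
    ring
  obtain ⟨ν', hν'⟩ := hν.exists_right_inv
  have hpk : l * (p * k) = l * k * p := by ring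
  have hwp : e0 S w ^ p = HahnSeries.C (π ^ (l * (p * k))) * s ^ p := by
    rw [hw.e, mul_pow, ← map_pow, ← pow_mul, hpk]
  -- comparison with `u`
  obtain ⟨z, hz⟩ := dvd_of_exp S (v := w ^ p * star u) (a := π ^ (l * (p * k)))
    (s := s ^ p * e1 S u) (t := e1 S w ^ p * su)
    (by rw [map_mul, map_pow, e0_star, hwp]; ring)
    (by rw [map_mul, map_pow, e1_star, hu]; ring)
  have hc0 : π ^ (l * (p * k)) ≠ 0 := pow_ne_zero _ hπ.ne_zero
  have hz0 : e0 S z = s ^ p * e1 S u := by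
    apply C_cancel hc0
    have h1 := congrArg (e0 S) hz
    rw [map_mul, map_pow, e0_star, hwp, map_mul (e0 S) (cst h r (π ^ (l * (p * k)))) z,
      e0_cst] at h1
    linear_combination (-1 : LaurentSeries V) * h1
  have hz1 : e1 S z = e1 S w ^ p * su := by
    apply C_cancel hc0
    have h1 := congrArg (e1 S) hz
    rw [map_mul, map_pow, e1_star, hu, map_mul (e1 S) (cst h r (π ^ (l * (p * k)))) z,
      e1_cst] at h1
    linear_combination (-1 : LaurentSeries V) * h1
  have hzu : z * u = cst h r ν * w ^ p := by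
    have h1 : u * star u = cst h r (π ^ (l * (p * k))) * cst h r ν := by
      rw [← QuadraticAlgebra.algebraMap_norm_eq_mul_star]
      have h2 : u.norm = C (π ^ (l * (p * k))) * C ν := by
        apply ex_injective
        rw [← e0_mul_e1 S, hu, map_mul, ex_C, ex_C, ← hsν]
        ring
      rw [h2, map_mul]
      rfl
    apply cst_mul_cancel hc0
    linear_combination (-u) * hz + w ^ p * h1
  have hz1' : Ge 0 (e1 S z) := by
    rw [hz1]
    exact ((hfn2.pow p).mul hsu).mono (le_of_eq (by push_cast; ring))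
  have hz0' : D (π ^ (t + e)) 0 (e0 S z) := by
    rw [hz0, hpow, add_mul, mul_assoc]
    refine D.add ?_ ?_
    · refine D.of_ge ?_
      exact ((hx.pow p).mul hu1).mono (le_of_eq (by rw [hn]; push_cast; ring))
    · rw [← hPt]
      exact D.C_mul
  set c : V := (e0 S z).coeff 0 with hc
  have hzz : ∃ δ₀, z - cst h r c = cst h r (π ^ (t + e)) * δ₀ := by
    refine H.lemZ0 (t + e) _ ?_ ?_
    · rw [map_sub, e1_cst]
      refine hz1'.sub ?_
      have := ge_C_mul (n := 0) (s := (1 : LaurentSeries V)) (by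
        intro j hj
        rw [HahnSeries.coeff_one, if_neg (by omega)]) c
      simpa using this
    · intro j hj
      rw [map_sub, e0_cst, HahnSeries.coeff_sub]
      rcases lt_or_eq_of_le (show j ≤ 0 by omega) with h0 | h0
      · have h3 : (HahnSeries.C c : LaurentSeries V).coeff j = 0 := by
          rw [HahnSeries.C_apply, HahnSeries.coeff_single_of_ne (by omega)]
        rw [h3, sub_zero]
        exact hz0' j h0
      · subst h0
        have h3 : (HahnSeries.C c : LaurentSeries V).coeff 0 = c := by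
          rw [HahnSeries.C_apply, HahnSeries.coeff_single_same]
        rw [h3, ← hc, sub_self]
        exact dvd_zero _
  obtain ⟨δ₀, hδ₀⟩ := hzz
  set δ : CR V h r := cst h r ν' * (δ₀ * u) with hδ
  have hν1 : cst h r ν * cst h r ν' = 1 := by rw [← map_mul, hν', map_one]
  have hwl : w ^ p = cst h r (c * ν') * u + cst h r (π ^ (t + e)) * δ := by
    rw [map_mul, hδ]
    linear_combination (cst h r ν' * u) * hδ₀ - (w ^ p) * hν1 - cst h r ν' * hzu
  obtain ⟨sδ, hsδ⟩ : ∃ s' : LaurentSeries V, s' = HahnSeries.C ν' * (e0 S δ₀ * su) := ⟨_, rfl⟩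
  have hδe : e0 S δ = HahnSeries.C (π ^ (l * (p * k))) * sδ := by
    rw [hδ, map_mul, map_mul, e0_cst, hu, hsδ]
    ring
  have hPne : HahnSeries.C (π ^ (t + e)) = P ^ (t + e) := hPt _
  have hspl : s ^ p = HahnSeries.C (c * ν') * su + HahnSeries.C (π ^ (t + e)) * sδ := by
    apply C_cancel hc0
    rw [← hwp, ← map_pow, hwl, map_add, map_mul, map_mul (e0 S) (cst h r (π ^ (t + e))),
      e0_cst, e0_cst, hu, hδe]
    ring
  have hδe0 : Ge ((p * n : ℕ) : ℤ) (sδ - HahnSeries.C ε * (x ^ (p - 1) * b) -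
      P * (P ^ m * b ^ p + HahnSeries.C ε * P ^ t₁ * b ^ 2 * s₁)) := by
    refine ge_of_C_mul (pow_ne_zero (t + e) hπ.ne_zero) ?_
    have h2 : HahnSeries.C (π ^ (t + e)) * (sδ - HahnSeries.C ε * (x ^ (p - 1) * b) -
      P * (P ^ m * b ^ p + HahnSeries.C ε * P ^ t₁ * b ^ 2 * s₁)) =
        x ^ p - HahnSeries.C (c * ν') * su := by
      have h1 := hspl
      rw [hpow, hPne] at h1
      rw [hPne]
      linear_combination (-1 : LaurentSeries V) * h1
    rw [h2]
    refine Ge.sub ((hx.pow p).mono (by push_cast; exact le_rfl)) (ge_C_mul hsu _)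
  have hδe1 : Ge (-((p * n : ℕ) : ℤ)) (e1 S δ) := by
    refine ge_of_C_mul (pow_ne_zero (t + e) hπ.ne_zero) ?_
    have h1 := congrArg (e1 S) hwl
    rw [map_pow, map_add, map_mul (e1 S) (cst h r (c * ν')) u,
      map_mul (e1 S) (cst h r (π ^ (t + e))) δ, e1_cst, e1_cst] at h1
    have h2 : HahnSeries.C (π ^ (t + e)) * e1 S δ =
        e1 S w ^ p - HahnSeries.C (c * ν') * e1 S u := by
      linear_combination (-1 : LaurentSeries V) * h1
    rw [h2]
    refine Ge.sub ((hfn2.pow p).mono (le_of_eq (by push_cast; ring))) (ge_C_mul hu1 _)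
  -- the correction
  obtain ⟨q, hq⟩ : ∃ q, p = q + 1 := ⟨p - 1, by have := hp.pos; omega⟩
  have hlk : l * (p * k) = l * k * q + l * k := by rw [hq]; ring
  have hsq : (HahnSeries.C (π ^ (l * k)) * s) ^ q =
      HahnSeries.C (π ^ (l * k * q)) * s ^ q := by
    rw [mul_pow, ← map_pow, ← pow_mul]
  obtain ⟨σ, hσ⟩ := dvd_of_exp S (v := δ * star w ^ q) (a := π ^ (l * k * q))
    (s := HahnSeries.C (π ^ (l * k)) * (sδ * e1 S w ^ q)) (t := e1 S δ * s ^ q)
    (by rw [map_mul, map_pow, e0_star, hδe, hlk, pow_add, map_mul]; ring)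
    (by rw [map_mul, map_pow, e1_star, hw.e, hsq]; ring)
  have hc1 : π ^ (l * k * q) ≠ 0 := pow_ne_zero _ hπ.ne_zero
  have hσ0 : e0 S σ = HahnSeries.C (π ^ (l * k)) * (sδ * e1 S w ^ q) := by
    apply C_cancel hc1
    have h1 := congrArg (e0 S) hσ
    rw [map_mul, map_pow, e0_star, hδe, hlk, pow_add, map_mul HahnSeries.C,
      map_mul (e0 S) (cst h r (π ^ (l * k * q))) σ, e0_cst] at h1
    linear_combination (-1 : LaurentSeries V) * h1
  have hσ1 : e1 S σ = e1 S δ * s ^ q := by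
    apply C_cancel hc1
    have h1 := congrArg (e1 S) hσ
    rw [map_mul, map_pow, e1_star, hw.e, hsq,
      map_mul (e1 S) (cst h r (π ^ (l * k * q))) σ, e1_cst] at h1
    linear_combination (-1 : LaurentSeries V) * h1
  -- reductions
  obtain ⟨c₀, hc₀, hcc⟩ := hw.cst_red ht1
  have hε0 : rs V ε ≠ 0 := (hε.map (rs V)).ne_zero
  set a : IsLocalRing.ResidueField V := -(rs V ε * c₀ ^ q)⁻¹ with ha
  obtain ⟨γ, Q, hγ, hQ, hdvd⟩ := H.conv hσ0
  have hmon : (h.map (rs V)).Monic := S.monic.map _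
  have hdg : (h.map (rs V) ^ k).natDegree = n := by
    rw [hmon.natDegree_pow, S.monic.natDegree_map, S.deg, hn]; ring
  have hexh : ex (IsLocalRing.ResidueField V) (h.map (rs V) ^ k) ≠ 0 := by
    intro h0
    exact (hmon.pow k).ne_zero (ex_injective (h0.trans (map_zero _).symm))
  have hP0 : lmap (rs V) P = 0 := by
    rw [hP, lmap_C, (residue_eq_zero_iff' hπ π).2 dvd_rfl, map_zero]
  have hxr : lmap (rs V) x = lmap (rs V) s := by
    rw [hxb, map_add, map_mul, hPt, map_pow, hP0, zero_pow ht, zero_mul, add_zero]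
  have hsr : Ge (n : ℤ) (lmap (rs V) s) := hw.ge_red ht1
  have hbr : Ge (-(n : ℤ)) (lmap (rs V) b) := ge_lmap hb _
  have he1r : Ge (-(n : ℤ)) (lmap (rs V) (e1 S w)) := ge_lmap hw.fn.2 _
  have hsδr : Ge ((p * n : ℕ) : ℤ) (lmap (rs V) sδ -
      HahnSeries.C (rs V ε) * (lmap (rs V) s ^ q * lmap (rs V) b)) := by
    have h1 := ge_lmap hδe0 (rs V)
    rw [map_sub, map_sub, map_mul _ P, hP0, zero_mul, sub_zero, map_mul, lmap_C, map_mul,
      map_pow, hxr, hq, Nat.add_sub_cancel] at h1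
    rw [hq]
    exact h1
  -- the first expansion of the correction
  have hkey : Ge (n : ℤ) (lmap (rs V) b +
      HahnSeries.C a * lmap (rs V) (sδ * e1 S w ^ q)) := by
    have h1 : HahnSeries.C a * (HahnSeries.C (rs V ε) * (HahnSeries.C c₀ ^ q)) =
        (-1 : LaurentSeries (IsLocalRing.ResidueField V)) := by
      rw [← map_pow, ← map_mul, ← map_mul, ha]
      have h2 : -(rs V ε * c₀ ^ q)⁻¹ * (rs V ε * c₀ ^ q) = -1 := by
        rw [neg_mul, inv_mul_cancel₀ (mul_ne_zero hε0 (pow_ne_zero q hc₀))]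
      rw [h2, map_neg, map_one]
    have h3 : lmap (rs V) b + HahnSeries.C a * lmap (rs V) (sδ * e1 S w ^ q) =
        HahnSeries.C a * ((lmap (rs V) sδ -
          HahnSeries.C (rs V ε) * (lmap (rs V) s ^ q * lmap (rs V) b)) *
            lmap (rs V) (e1 S w) ^ q) := by
      rw [map_mul, map_pow, ← hcc] at *
      have h4 : (lmap (rs V) s * lmap (rs V) (e1 S w)) ^ q =
          lmap (rs V) s ^ q * lmap (rs V) (e1 S w) ^ q := mul_pow _ _ _
      rw [h4] at h1
      linear_combination (lmap (rs V) b) * h1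
    rw [h3]
    refine ge_C_mul ((hsδr.mul (he1r.pow q)).mono ?_) a
    rw [hq]
    push_cast
    ring_nf
    exact le_rfl
  have hγ1 : Ge (-(n : ℤ)) (ex (IsLocalRing.ResidueField V) ((-h.map (rs V)) ^ k * γ)) := by
    rw [← hγ, hσ1, map_mul, map_pow]
    refine ((ge_lmap hδe1 (rs V)).mul (hsr.pow q)).mono ?_
    rw [hq]
    push_cast
    ring_nf
    exact le_rfl
  have hγc : γ = C (γ.coeff 0) := by
    by_cases hγ0 : γ = 0
    · rw [hγ0]; simp
    · have h5 := natDegree_le_of_ge hγ1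
      have hneg : (-h.map (rs V)) ^ k = (-1) ^ k * h.map (rs V) ^ k := by
        rw [← mul_pow]; ring
      have h6 : ((-h.map (rs V)) ^ k * γ).natDegree = n + γ.natDegree := by
        have h7 : (-h.map (rs V)) ^ k * γ = h.map (rs V) ^ k * (C ((-1) ^ k) * γ) := by
          rw [hneg, map_pow, map_neg, map_one]; ring
        have h8 : ((-1 : IsLocalRing.ResidueField V) ^ k) ≠ 0 := pow_ne_zero _ (by simp)
        rw [h7, (hmon.pow k).natDegree_mul' (mul_ne_zero (C_ne_zero.2 h8) hγ0), hdg,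
          natDegree_C_mul h8]
      rw [h6] at h5
      exact eq_C_of_natDegree_le_zero (by omega)
  have hQd : (C a * Q).natDegree ≤ 2 * ((g + 1) * k) := by
    refine natDegree_le_of_ge ?_
    rw [map_mul, ex_C, ← hQ]
    have h9 : HahnSeries.C a * (lmap (rs V) (sδ * e1 S w ^ q) *
        ex (IsLocalRing.ResidueField V) (h.map (rs V) ^ k)) =
        HahnSeries.C a * lmap (rs V) (sδ * e1 S w ^ q) *
        ex (IsLocalRing.ResidueField V) (h.map (rs V) ^ k) := (mul_assoc _ _ _).symm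
    rw [h9]
    have h1 : Ge (-(n : ℤ)) (HahnSeries.C a * lmap (rs V) (sδ * e1 S w ^ q)) := by
      have h2 : HahnSeries.C a * lmap (rs V) (sδ * e1 S w ^ q) = (lmap (rs V) b +
          HahnSeries.C a * lmap (rs V) (sδ * e1 S w ^ q)) - lmap (rs V) b := by ring
      rw [h2]
      exact (hkey.mono (by omega)).sub hbr
    refine (h1.mul (ge_ex (le_of_eq hdg))).mono ?_
    rw [← hn]
    push_cast
    linarith
  obtain ⟨w₁, s₁', hf₁, he₁, hs₁', he1₁⟩ := H.lift hr' hk (a * γ.coeff 0) (Q := C a * Q) hQd (by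
    obtain ⟨T, hT⟩ := hdvd
    refine ⟨C a * T, ?_⟩
    rw [hγc] at hT
    rw [map_mul]
    linear_combination (C a) * hT)
  have hs₁red : lmap (rs V) s₁' = HahnSeries.C a * lmap (rs V) (sδ * e1 S w ^ q) := by
    apply mul_right_cancel₀ hexh
    rw [hs₁', map_mul, ex_C, ← hQ, mul_assoc]
  refine ⟨w + cst h r (π ^ t) * w₁, s + HahnSeries.C (π ^ t) * s₁',
    hw.fn.add (hf₁.cst_mul _), ?_, ?_, ?_, ?_⟩
  · rw [map_add, map_mul, e0_cst, hw.e, he₁]
    ring
  · have h1 : s + HahnSeries.C (π ^ t) * s₁' = x + HahnSeries.C (π ^ t) * (b + s₁') := by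
      rw [hxb]; ring
    rw [h1]
    refine (D.of_ge hx).add ?_
    intro j hj
    rw [coeff_C_mul', pow_succ]
    refine mul_dvd_mul_left _ ?_
    rw [← residue_eq_zero_iff' hπ, ← coeff_lmap, map_add, hs₁red]
    exact hkey j hj
  · rw [map_add, lmap_eq_zero_of_dvd hπ ht1, add_zero]
    exact hw.ne0
  · rw [map_add, map_mul, e1_cst, map_add, lmap_eq_zero_of_dvd hπ ht1, add_zero]
    exact hw.ne1

end dvr

end H41Ban
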